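import Pool.Agent.Work.MP_7eec5e_nt.GG.Stmts

/-!
# MP_7eec5e_nt, block GG, item A1: sums over tuples are finite
-/

set_option autoImplicit false

namespace Pool.Agent.Work.MP_7eec5e_nt.GG

open MeasureTheory Filter Topology Finset

namespace IA1

theorem fin_T {ι : Type} (x : ι → ℝ) (hx : LF x) (R u : ℝ) : {i | |x i - u| ≤ R}.Finite := by
  refine (hx (R + |u|)).subset fun i hi => ?_
  have h1 : |x i - u| ≤ R := hi
  have h2 : |x i| ≤ |x i - u| + |u| := by
    have := abs_add_le (x i - u) u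
    rwa [sub_add_cancel] at this
  show |x i| ≤ R + |u|
  linarith

/-- the embeddings with values in a finite set -/
theorem emb_finite {ι : Type} (n : ℕ) (T : Set ι) (hT : T.Finite) :
    {s : Fin n ↪ ι | ∀ a, s a ∈ T}.Finite ∧ {s : Fin n ↪ ι | ∀ a, s a ∈ T}.ncard ≤ T.ncard ^ n := by
  have hF : Finite T := hT
  have hFt : Fintype T := Fintype.ofFinite T
  have hinj : Function.Injective fun (s : {s : Fin n ↪ ι | ∀ a, s a ∈ T}) (a : Fin n) =>
      (⟨s.1 a, s.2 a⟩ : T) := by
    intro s t h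
    apply Subtype.ext
    ext a
    have := congrFun h a
    exact congrArg Subtype.val this
  have hfin : Finite {s : Fin n ↪ ι | ∀ a, s a ∈ T} := Finite.of_injective _ hinj
  refine ⟨hfin, ?_⟩
  have h1 := Nat.card_le_card_of_injective _ hinj
  have h2 : Nat.card (Fin n → T) = T.ncard ^ n := by
    rw [Nat.card_fun, Nat.card_fin, Nat.card_coe_set_eq]
  rw [h2, Nat.card_coe_set_eq] at h1
  exact h1

end IA1

open IA1 in
theorem prA1 : StA1 := by
  intro ι x hx n f R B u hB hS hf
  obtain ⟨hE, hc⟩ := emb_finite n {i | |x i - u| ≤ R} (fin_T x hx R u)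
  have hsub : (Function.support fun s : Fin n ↪ ι => f fun a => x (s a) - u) ⊆
      {s : Fin n ↪ ι | ∀ a, s a ∈ {i | |x i - u| ≤ R}} := fun s hs a => hS _ hs a
  refine ⟨hE.subset hsub, ?_⟩
  have h1 : W x n f u = ∑ s ∈ hE.toFinset, f fun a => x (s a) - u := by
    unfold W
    refine tsum_eq_sum fun s hs => ?_
    by_contra h
    exact hs (hE.mem_toFinset.2 (hsub h))
  rw [h1]
  calc |∑ s ∈ hE.toFinset, f fun a => x (s a) - u|
      ≤ ∑ s ∈ hE.toFinset, |f fun a => x (s a) - u| := Finset.abs_sum_le_sum_abs _ _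
    _ ≤ ∑ _s ∈ hE.toFinset, B := Finset.sum_le_sum fun s _ => hf _
    _ = (hE.toFinset.card : ℝ) * B := by rw [Finset.sum_const, nsmul_eq_mul]
    _ ≤ (cn x R u : ℝ) ^ n * B := by
        refine mul_le_mul_of_nonneg_right ?_ hB
        rw [← Set.ncard_eq_toFinset_card _ hE]
        unfold cn
        exact_mod_cast hc
    _ = B * (cn x R u : ℝ) ^ n := mul_comm _ _

end Pool.Agent.Work.MP_7eec5e_nt.GG
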