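import Pool.Agent.Work.MP_7eec5e_nt.GG.Stmts

/-!
# MP_7eec5e_nt, block GG, items A2 and A8: the number of tuples in a finite set
-/

set_option autoImplicit false

namespace Pool.Agent.Work.MP_7eec5e_nt.GG

open MeasureTheory Filter Topology Finset

namespace IA2

theorem fin_T {ι : Type} (x : ι → ℝ) (hx : LF x) (R u : ℝ) : {i | |x i - u| ≤ R}.Finite := by
  refine (hx (R + |u|)).subset fun i hi => ?_
  have h1 : |x i - u| ≤ R := hi
  have h2 : |x i| ≤ |x i - u| + |u| := by
    have := abs_add_le (x i - u) u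
    rwa [sub_add_cancel] at this
  show |x i| ≤ R + |u|
  linarith

/-- the embeddings with values in a finite set -/
theorem emb_card {ι : Type} (n : ℕ) (T : Set ι) (hT : T.Finite) :
    {s : Fin n ↪ ι | ∀ a, s a ∈ T}.Finite ∧
      {s : Fin n ↪ ι | ∀ a, s a ∈ T}.ncard = T.ncard.descFactorial n := by
  have hF : Finite T := hT
  have hFt : Fintype T := Fintype.ofFinite T
  let e : {s : Fin n ↪ ι | ∀ a, s a ∈ T} ≃ (Fin n ↪ T) :=
    { toFun := fun s => s.1.codRestrict T s.2
      invFun := fun s => ⟨s.trans (Function.Embedding.subtype _), fun a => (s a).2⟩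
      left_inv := fun s => by
        apply Subtype.ext
        ext a
        rfl
      right_inv := fun s => by
        ext a
        rfl }
  have hfin : Finite {s : Fin n ↪ ι | ∀ a, s a ∈ T} := Finite.of_equiv _ e.symm
  refine ⟨hfin, ?_⟩
  have h1 : Nat.card {s : Fin n ↪ ι | ∀ a, s a ∈ T} = Nat.card (Fin n ↪ T) := Nat.card_congr e
  rw [Nat.card_coe_set_eq] at h1
  rw [h1, Nat.card_eq_fintype_card, Fintype.card_embedding_eq, Fintype.card_fin,
    ← Nat.card_eq_fintype_card, Nat.card_coe_set_eq]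

end IA2

open IA2 in
theorem prA2 : StA2 := by
  intro ι x hx n f R R' u h0 h1 hS
  obtain ⟨hE', -⟩ := emb_card n {i | |x i - u| ≤ R'} (fin_T x hx R' u)
  obtain ⟨hE, hc⟩ := emb_card n {i | |x i - u| ≤ R} (fin_T x hx R u)
  have hsupp : (Function.support fun s : Fin n ↪ ι => f fun a => x (s a) - u).Finite :=
    hE'.subset fun s hs a => hS _ hs a
  have hsum : Summable fun s : Fin n ↪ ι => f fun a => x (s a) - u :=
    summable_of_hasFiniteSupport hsupp
  have h2 : ∑ s ∈ hE.toFinset, f (fun a => x (s a) - u) ≤ W x n f u :=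
    hsum.sum_le_tsum hE.toFinset fun s _ => h0 _
  have h3 : (hE.toFinset.card : ℝ) ≤ ∑ s ∈ hE.toFinset, f (fun a => x (s a) - u) := by
    have h4 : ∑ _s ∈ hE.toFinset, (1 : ℝ) ≤ ∑ s ∈ hE.toFinset, f (fun a => x (s a) - u) :=
      Finset.sum_le_sum fun s hs => h1 _ (hE.mem_toFinset.1 hs)
    rwa [Finset.sum_const, nsmul_eq_mul, mul_one] at h4
  rw [← Set.ncard_eq_toFinset_card _ hE, hc] at h3
  exact h3.trans h2

open IA2 in
open Classical in
theorem prA8 : StA8 := by
  intro ι x hx n u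
  have hT : {i | u ≤ x i ∧ x i < u + 1}.Finite := by
    refine (fin_T x hx 1 u).subset fun i hi => ?_
    show |x i - u| ≤ 1
    rw [abs_le]
    constructor <;> [linarith [hi.1]; linarith [hi.2]]
  obtain ⟨hE, hc⟩ := emb_card n _ hT
  have h1 : W x n (fun y => if ∀ a, 0 ≤ y a ∧ y a < 1 then 1 else 0) u =
      ∑ s ∈ hE.toFinset, (1 : ℝ) := by
    unfold W
    have h2 : ∀ s : Fin n ↪ ι, s ∉ hE.toFinset →
        (if ∀ a, 0 ≤ x (s a) - u ∧ x (s a) - u < 1 then (1 : ℝ) else 0) = 0 := by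
      intro s hs
      rw [if_neg]
      intro h
      exact hs (hE.mem_toFinset.2 fun a => ⟨by linarith [(h a).1], by linarith [(h a).2]⟩)
    rw [tsum_eq_sum h2]
    refine Finset.sum_congr rfl fun s hs => ?_
    have h3 := hE.mem_toFinset.1 hs
    rw [if_pos]
    intro a
    have h4 : u ≤ x (s a) ∧ x (s a) < u + 1 := h3 a
    exact ⟨by linarith [h4.1], by linarith [h4.2]⟩
  rw [h1, Finset.sum_const, nsmul_eq_mul, mul_one, ← Set.ncard_eq_toFinset_card _ hE, hc]

end Pool.Agent.Work.MP_7eec5e_nt.GG
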