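import Pool.Agent.Work.MP_7eec5e_nt.GG.Stmts

/-!
# MP_7eec5e_nt, block GG, items A3, Cc, Cb, A9
-/

set_option autoImplicit false

namespace Pool.Agent.Work.MP_7eec5e_nt.GG

open MeasureTheory Filter Topology Finset

theorem prA3 : StA3 := by
  intro N p
  rcases lt_or_ge N (2 * p) with h | h
  · have h1 : (N : ℝ) ^ p ≤ (2 * p) ^ p := by
      refine pow_le_pow_left₀ (Nat.cast_nonneg _) ?_ p
      exact_mod_cast h.le
    have h2 : (0 : ℝ) ≤ 2 ^ p * (N.descFactorial p : ℝ) := by positivity
    linarith
  · have h1 : (((N + 1 - p : ℕ) : ℝ)) ^ p ≤ (N.descFactorial p : ℝ) := by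
      exact_mod_cast Nat.pow_sub_le_descFactorial N p
    have h2 : (N : ℝ) ≤ 2 * ((N + 1 - p : ℕ) : ℝ) := by
      have : N ≤ 2 * (N + 1 - p) := by omega
      exact_mod_cast this
    have h3 : (N : ℝ) ^ p ≤ (2 * ((N + 1 - p : ℕ) : ℝ)) ^ p :=
      pow_le_pow_left₀ (Nat.cast_nonneg _) h2 p
    rw [mul_pow] at h3
    have h4 : (0 : ℝ) ≤ 2 ^ p := by positivity
    have h5 := mul_le_mul_of_nonneg_left h1 h4
    have h6 : (0 : ℝ) ≤ (2 * p) ^ p := by positivity
    linarith

theorem prCc : StCc := by
  intro n f
  constructor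
  · intro hf
    obtain ⟨R, hR⟩ := hf.2.isCompact.isBounded.subset_closedBall (0 : Fin n → ℝ)
    obtain ⟨B, hB⟩ := hf.2.exists_bound_of_continuous hf.1
    refine ⟨max R 0, max B 0, le_max_right _ _, le_max_right _ _, fun y hy a => ?_, fun y => ?_⟩
    · have h1 : y ∈ Metric.closedBall (0 : Fin n → ℝ) R := hR (subset_tsupport f hy)
      rw [mem_closedBall_zero_iff] at h1
      have h2 := norm_le_pi_norm y a
      rw [Real.norm_eq_abs] at h2
      exact (h2.trans h1).trans (le_max_left _ _)
    · exact (hB y).trans (le_max_left _ _)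
  · intro R hc hS
    refine ⟨hc, ?_⟩
    refine HasCompactSupport.of_support_subset_isCompact
      (K := Metric.closedBall (0 : Fin n → ℝ) (max R 0)) (isCompact_closedBall _ _) ?_
    intro y hy
    rw [mem_closedBall_zero_iff, pi_norm_le_iff_of_nonneg (le_max_right _ _)]
    intro a
    exact (hS y hy a).trans (le_max_left _ _)

theorem prCb : StCb := by
  intro n R hR
  refine ⟨?_, ?_, ?_⟩
  · unfold cube
    fun_prop
  · intro y hy a
    by_contra h
    rw [not_le] at h
    apply hy
    unfold cube
    refine Finset.prod_eq_zero (Finset.mem_univ a) ?_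
    rw [max_eq_left]
    exact (min_le_right _ _).trans (by linarith)
  · intro y
    refine ⟨?_, ?_, ?_⟩
    · exact Finset.prod_nonneg fun a _ => le_max_left _ _
    · exact Finset.prod_le_one (fun a _ => le_max_left _ _)
        fun a _ => max_le zero_le_one (min_le_left _ _)
    · intro h
      refine Finset.prod_eq_one fun a _ => ?_
      rw [min_eq_left (by linarith [h a]), max_eq_right zero_le_one]

theorem prA9 (hA1 : StA1) (hA7 : StA7) : StA9 := by
  intro ι x hx n f R hS hf δ hδ
  have huc : UniformContinuous f := hf.2.uniformContinuous_of_continuous hf.1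
  rw [Metric.uniformContinuous_iff] at huc
  obtain ⟨ε, hε, h1⟩ := huc δ hδ
  refine ⟨min (ε / 2) 1, lt_min (by linarith) one_pos, min_le_right _ _, fun u s hs hse => ?_⟩
  have hs1 : s ≤ 1 := hse.trans (min_le_right _ _)
  have hs2 : s < ε := by
    have : s ≤ ε / 2 := hse.trans (min_le_left _ _)
    linarith
  -- the shifted function
  have hS1 : Sp n (fun y => f fun a => y a - s) (R + 1) := by
    intro y hy a
    have h2 := hS _ hy a
    have h3 : |y a| ≤ |y a - s| + |s| := by
      have := abs_add_le (y a - s) s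
      rwa [sub_add_cancel] at this
    rw [abs_of_nonneg hs] at h3
    linarith
  have hS2 : Sp n f (R + 1) := fun y hy a => (hS y hy a).trans (by linarith)
  have h4 : ∀ y : Fin n → ℝ, |(f fun a => y a - s) + (-1) * f y| ≤ δ := by
    intro y
    have h5 : dist (fun a => y a - s) y < ε := by
      refine lt_of_le_of_lt ?_ hs2
      rw [dist_pi_le_iff hs]
      intro a
      rw [Real.dist_eq]
      have h6 : y a - s - y a = -s := by ring
      rw [h6, abs_neg, abs_of_nonneg hs]
    have h7 := h1 h5
    rw [Real.dist_eq] at h7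
    have h8 : (f fun a => y a - s) + (-1) * f y = (f fun a => y a - s) - f y := by ring
    rw [h8]
    exact h7.le
  have hS3 : Sp n (fun y => (f fun a => y a - s) + (-1) * f y) (R + 1) := by
    intro y hy a
    by_contra h
    apply hy
    have h5 : (f fun a => y a - s) = 0 := by
      by_contra h6
      exact h (hS1 y h6 a)
    have h6 : f y = 0 := by
      by_contra h7
      exact h (hS2 y h7 a)
    show (f fun a => y a - s) + (-1) * f y = 0
    rw [h5, h6]
    ring
  have h9 := (hA7 x hx n f f (R + 1) u hS2 hS2).2.1 s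
  have h10 := (hA7 x hx n (fun y => f fun a => y a - s) f (R + 1) u hS1 hS2).1 (-1)
  have h11 := (hA1 x hx n _ (R + 1) δ u hδ.le hS3 h4).2
  rw [h10] at h11
  rw [h9]
  have h12 : W x n (fun y => f fun a => y a - s) u + -1 * W x n f u =
      W x n (fun y => f fun a => y a - s) u - W x n f u := by ring
  rw [h12] at h11
  exact h11

end Pool.Agent.Work.MP_7eec5e_nt.GG
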