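import Pool.Agent.Work.MP_7eec5e_nt.GG.Stmts

/-!
# MP_7eec5e_nt, block GG, item A4: product of two sums over tuples
-/

set_option autoImplicit false

namespace Pool.Agent.Work.MP_7eec5e_nt.GG

open MeasureTheory Filter Topology Finset

namespace IA4

theorem fin_supp {ι : Type} (x : ι → ℝ) (hx : LF x) (n : ℕ) (f : (Fin n → ℝ) → ℝ) (R u : ℝ)
    (hS : Sp n f R) : (Function.support fun s : Fin n ↪ ι => f fun a => x (s a) - u).Finite := by
  have hT : {i | |x i - u| ≤ R}.Finite := by
    refine (hx (R + |u|)).subset fun i hi => ?_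
    have h1 : |x i - u| ≤ R := hi
    have h2 : |x i| ≤ |x i - u| + |u| := by
      have := abs_add_le (x i - u) u
      rwa [sub_add_cancel] at this
    show |x i| ≤ R + |u|
    linarith
  have hF : Finite {i | |x i - u| ≤ R} := hT
  have hinj : Function.Injective fun (s : {s : Fin n ↪ ι | ∀ a, s a ∈ {i | |x i - u| ≤ R}})
      (a : Fin n) => (⟨s.1 a, s.2 a⟩ : {i | |x i - u| ≤ R}) := by
    intro s t h
    apply Subtype.ext
    ext a
    have := congrFun h a
    exact congrArg Subtype.val this
  have hfin : {s : Fin n ↪ ι | ∀ a, s a ∈ {i | |x i - u| ≤ R}}.Finite :=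
    Finite.of_injective _ hinj
  exact hfin.subset fun s hs a => hS _ hs a

theorem summ {ι : Type} (x : ι → ℝ) (hx : LF x) (n : ℕ) (f : (Fin n → ℝ) → ℝ) (R u : ℝ)
    (hS : Sp n f R) : Summable fun s : Fin n ↪ ι => ‖f fun a => x (s a) - u‖ := by
  apply summable_of_finite_support
  refine (fin_supp x hx n f R u hS).subset fun s hs => ?_
  rw [Function.mem_support] at hs ⊢
  exact fun h => hs (by rw [h, norm_zero])

/-- the two halves of an embedding -/
def phi {ι : Type} (n : ℕ) (t : Fin (n + n) ↪ ι) : (Fin n ↪ ι) × (Fin n ↪ ι) :=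
  ((Fin.castAddEmb n).trans t, (Fin.natAddEmb n).trans t)

theorem phi_inj {ι : Type} (n : ℕ) : Function.Injective (phi (ι := ι) n) := by
  intro t t' h
  ext a
  rw [phi, phi, Prod.mk.injEq] at h
  refine Fin.addCases (fun i => ?_) (fun i => ?_) a
  · exact DFunLike.congr_fun h.1 i
  · exact DFunLike.congr_fun h.2 i

end IA4

open IA4 in
theorem prA4 : StA4 := by
  intro ι x hx n f R u h hS hR
  obtain ⟨F, hF⟩ : ∃ F : (Fin n ↪ ι) → ℝ, F = fun s => f fun a => x (s a) - u := ⟨_, rfl⟩
  obtain ⟨G, hG⟩ : ∃ G : (Fin n ↪ ι) → ℝ, G = fun s => f fun a => x (s a) - (u + h) := ⟨_, rfl⟩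
  have h1 : W x n f u * W x n f (u + h) = ∑' p : (Fin n ↪ ι) × (Fin n ↪ ι), F p.1 * G p.2 := by
    rw [← tsum_mul_tsum_of_summable_norm (f := F) (g := G)]
    · rw [hF, hG]
      rfl
    · rw [hF]
      exact summ x hx n f R u hS
    · rw [hG]
      exact summ x hx n f R (u + h) hS
  have h2 : (Function.support fun p : (Fin n ↪ ι) × (Fin n ↪ ι) => F p.1 * G p.2) ⊆
      Set.range (phi n) := by
    rintro ⟨s, s'⟩ hp
    rw [Function.mem_support] at hp
    have hs : ∀ a, |x (s a) - u| ≤ R := by
      have := left_ne_zero_of_mul hp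
      rw [hF] at this
      exact hS _ this
    have hs' : ∀ a, |x (s' a) - (u + h)| ≤ R := by
      have := right_ne_zero_of_mul hp
      rw [hG] at this
      exact hS _ this
    have hd : ∀ i j, s i ≠ s' j := by
      intro i j hij
      have e1 := hs i
      have e2 := hs' j
      rw [← hij] at e2
      have e3 : |h| ≤ 2 * R := by
        have e4 : h = (x (s i) - u) - (x (s i) - (u + h)) := by ring
        calc |h| = |(x (s i) - u) - (x (s i) - (u + h))| := by rw [← e4]
          _ ≤ |x (s i) - u| + |x (s i) - (u + h)| := abs_sub _ _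
          _ ≤ 2 * R := by linarith
      linarith
    refine ⟨⟨Fin.append s s', Fin.append_injective_iff.2 ⟨s.injective, s'.injective, hd⟩⟩, ?_⟩
    rw [phi, Prod.mk.injEq]
    constructor
    · ext a
      exact Fin.append_left _ _ a
    · ext a
      exact Fin.append_right _ _ a
  rw [h1, ← (phi_inj n).tsum_eq h2]
  unfold W
  refine tsum_congr fun t => ?_
  rw [hF, hG]
  show (f fun a => x (t (Fin.castAdd n a)) - u) * (f fun a => x (t (Fin.natAdd n a)) - (u + h)) =
    (f fun a => x (t (Fin.castAdd n a)) - u) * f fun a => x (t (Fin.natAdd n a)) - u - h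
  congr 2
  funext a
  ring

end Pool.Agent.Work.MP_7eec5e_nt.GG
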