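import Pool.Agent.Work.MP_7eec5e_nt.GG.Stmts

/-!
# MP_7eec5e_nt, block GG (captain helper89), item A5 (helper59): continuity of `W x n f`
-/

set_option autoImplicit false

namespace Pool.Agent.Work.MP_7eec5e_nt.GG

open MeasureTheory Filter Topology Finset

theorem prA5 : StA5 := by
  intro ι x hx n f R hSp hf
  rw [continuous_iff_continuousAt]
  intro u₀
  have hT : {i | |x i - u₀| ≤ R + 1}.Finite := by
    refine (hx (R + 1 + |u₀|)).subset ?_
    intro i hi
    have h1 : |x i - u₀| ≤ R + 1 := hi
    show |x i| ≤ R + 1 + |u₀|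
    have h2 : x i = (x i - u₀) + u₀ := by ring
    calc |x i| = |(x i - u₀) + u₀| := by rw [← h2]
      _ ≤ |x i - u₀| + |u₀| := abs_add_le _ _
      _ ≤ R + 1 + |u₀| := by linarith
  have hS : {s : Fin n ↪ ι | ∀ a, |x (s a) - u₀| ≤ R + 1}.Finite := by
    have h1 : (Set.pi Set.univ (fun _ : Fin n => {i | |x i - u₀| ≤ R + 1})).Finite :=
      Set.Finite.pi fun _ => hT
    have h2 := h1.preimage (f := fun s : Fin n ↪ ι => (s : Fin n → ι))
      (DFunLike.coe_injective.injOn)
    refine h2.subset ?_
    intro s hs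
    simp only [Set.mem_preimage, Set.mem_pi]
    intro a _
    exact hs a
  have hev : (fun u => ∑ s ∈ hS.toFinset, f fun a => x (s a) - u) =ᶠ[𝓝 u₀] W x n f := by
    filter_upwards [Metric.ball_mem_nhds u₀ one_pos] with u hu
    rw [Metric.mem_ball, Real.dist_eq] at hu
    refine (tsum_eq_sum ?_).symm
    intro s hs
    by_contra hne
    apply hs
    rw [Set.Finite.mem_toFinset]
    intro a
    have h1 := hSp _ hne a
    have h2 : x (s a) - u₀ = (x (s a) - u) + (u - u₀) := by ring
    rw [h2]
    exact (abs_add_le _ _).trans (by simpa using add_le_add h1 hu.le)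
  refine ContinuousAt.congr ?_ hev
  refine Continuous.continuousAt ?_
  refine continuous_finset_sum _ fun s _ => ?_
  exact hf.comp (continuous_pi fun a => continuous_const.sub continuous_id)

end Pool.Agent.Work.MP_7eec5e_nt.GG
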