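import Pool.Agent.Work.MP_7eec5e_nt.GG.Stmts

/-!
# MP_7eec5e_nt, block GG, item A7: linearity, shifts and monotonicity of the sums
-/

set_option autoImplicit false

namespace Pool.Agent.Work.MP_7eec5e_nt.GG

open MeasureTheory Filter Topology Finset

namespace IA7

theorem fin_supp {ι : Type} (x : ι → ℝ) (hx : LF x) (n : ℕ) (f : (Fin n → ℝ) → ℝ) (R u : ℝ)
    (hS : Sp n f R) : (Function.support fun s : Fin n ↪ ι => f fun a => x (s a) - u).Finite := by
  have hT : {i | |x i - u| ≤ R}.Finite := by
    refine (hx (R + |u|)).subset fun i hi => ?_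
    have h1 : |x i - u| ≤ R := hi
    have h2 : |x i| ≤ |x i - u| + |u| := by
      have := abs_add_le (x i - u) u
      rwa [sub_add_cancel] at this
    show |x i| ≤ R + |u|
    linarith
  have hF : Finite {i | |x i - u| ≤ R} := hT
  have hinj : Function.Injective fun (s : {s : Fin n ↪ ι | ∀ a, s a ∈ {i | |x i - u| ≤ R}})
      (a : Fin n) => (⟨s.1 a, s.2 a⟩ : {i | |x i - u| ≤ R}) := by
    intro s t h
    apply Subtype.ext
    ext a
    have := congrFun h a
    exact congrArg Subtype.val this
  have hfin : {s : Fin n ↪ ι | ∀ a, s a ∈ {i | |x i - u| ≤ R}}.Finite :=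
    Finite.of_injective _ hinj
  exact hfin.subset fun s hs a => hS _ hs a

theorem summ {ι : Type} (x : ι → ℝ) (hx : LF x) (n : ℕ) (f : (Fin n → ℝ) → ℝ) (R u : ℝ)
    (hS : Sp n f R) : Summable fun s : Fin n ↪ ι => f fun a => x (s a) - u :=
  summable_of_finite_support (fin_supp x hx n f R u hS)

end IA7

open IA7 in
theorem prA7 : StA7 := by
  intro ι x hx n f g R u hf hg
  have sf := summ x hx n f R u hf
  have sg := summ x hx n g R u hg
  refine ⟨fun c => ?_, fun s => ?_, fun h => ?_, fun h => ?_⟩
  · unfold W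
    rw [sf.tsum_add (sg.mul_left c), tsum_mul_left]
  · unfold W
    refine tsum_congr fun t => ?_
    congr 1
    funext a
    ring
  · exact sf.tsum_le_tsum (fun s => h _) sg
  · exact tsum_nonneg fun s => h _

end Pool.Agent.Work.MP_7eec5e_nt.GG
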