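import Pool.Agent.Work.MP_7eec5e_nt.GG.Stmts

/-!
# MP_7eec5e_nt, block GG, item B0: the integral of the sum over tuples and the differences
-/

set_option autoImplicit false

namespace Pool.Agent.Work.MP_7eec5e_nt.GG

open MeasureTheory Filter Topology Finset

namespace IB0

theorem fin_box {ι : Type} (x : ι → ℝ) (hx : LF x) (n : ℕ) (M : ℝ) :
    {s : Fin n ↪ ι | ∀ a, |x (s a)| ≤ M}.Finite := by
  have hF : Finite {i | |x i| ≤ M} := hx M
  have hinj : Function.Injective fun (s : {s : Fin n ↪ ι | ∀ a, |x (s a)| ≤ M})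
      (a : Fin n) => (⟨s.1 a, s.2 a⟩ : {i | |x i| ≤ M}) := by
    intro s t h
    apply Subtype.ext
    ext a
    exact congrArg Subtype.val (congrFun h a)
  exact Finite.of_injective _ hinj

theorem bd (g : ℝ → ℝ) (c R B : ℝ) (S : Set ℝ) (hS : MeasurableSet S) (hR : 0 ≤ R)
    (hB : ∀ u, |g u| ≤ B) (hg : ∀ u, g u ≠ 0 → |c - u| ≤ R) :
    |∫ u in S, g u| ≤ 2 * R * B := by
  have hB0 : 0 ≤ B := (abs_nonneg _).trans (hB 0)
  have h1 : ∫ u in S, g u = ∫ u in S ∩ Set.Icc (c - R) (c + R), g u := by
    apply setIntegral_eq_of_subset_of_forall_sdiff_eq_zero hS Set.inter_subset_left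
    rintro u ⟨hu, hu'⟩
    by_contra h
    have := hg u h
    rw [abs_le] at this
    exact hu' ⟨hu, by constructor <;> linarith⟩
  have hfin : volume (Set.Icc (c - R) (c + R)) < ⊤ := measure_Icc_lt_top
  have h2 : ‖∫ u in S ∩ Set.Icc (c - R) (c + R), g u‖ ≤
      B * volume.real (S ∩ Set.Icc (c - R) (c + R)) :=
    norm_setIntegral_le_of_norm_le_const
      ((measure_mono Set.inter_subset_right).trans_lt hfin) (fun u _ => hB u)
  have h3 : volume.real (S ∩ Set.Icc (c - R) (c + R)) ≤ 2 * R := by
    calc volume.real (S ∩ Set.Icc (c - R) (c + R)) ≤ volume.real (Set.Icc (c - R) (c + R)) :=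
          measureReal_mono Set.inter_subset_right hfin.ne
      _ = 2 * R := by
          rw [Real.volume_real_Icc_of_le (by linarith)]
          ring
  rw [h1]
  calc |∫ u in S ∩ Set.Icc (c - R) (c + R), g u|
      ≤ B * volume.real (S ∩ Set.Icc (c - R) (c + R)) := h2
    _ ≤ B * (2 * R) := mul_le_mul_of_nonneg_left h3 hB0
    _ = 2 * R * B := by ring

/-- the diagonal integral of a tuple -/
theorem bar_eq {ι : Type} (x : ι → ℝ) (n : ℕ) (f : (Fin (n + 1) → ℝ) → ℝ)
    (s : Fin (n + 1) ↪ ι) :
    bar n f (fun a => x (s a.succ) - x (s 0)) = ∫ u : ℝ, f fun a => x (s a) - u := by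
  unfold bar
  rw [← integral_sub_left_eq_self (fun t : ℝ => f (Fin.cons t fun a => x (s a.succ) - x (s 0) + t))
    volume (x (s 0))]
  refine integral_congr_ae (ae_of_all _ fun u => ?_)
  show f (Fin.cons (x (s 0) - u) fun a => x (s a.succ) - x (s 0) + (x (s 0) - u)) =
    f fun a => x (s a) - u
  congr 1
  funext a
  refine Fin.cases ?_ (fun i => ?_) a
  · rfl
  · show x (s i.succ) - x (s 0) + (x (s 0) - u) = x (s i.succ) - u
    ring

theorem Dd_eq {ι : Type} (x : ι → ℝ) (n : ℕ) (f : (Fin n → ℝ) → ℝ) (R U M : ℝ)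
    (hf : Sp n f R) (hU : U ≤ M) (hM : U + R ≤ M) (hR : -R ≤ M) (E : Finset (Fin (n + 1) ↪ ι))
    (hM0 : 0 ≤ M) (hRM : R ≤ M)
    (hE : ∀ s : Fin (n + 1) ↪ ι, (∀ a, |x (s a)| ≤ M) → s ∈ E) :
    Dd x n f U = ∑ s ∈ E, if 0 ≤ x (s 0) ∧ x (s 0) < U then f (fun a => x (s a.succ) - x (s 0))
      else 0 := by
  unfold Dd
  refine tsum_eq_sum fun s hs => ?_
  split_ifs with h
  · by_contra hne
    apply hs
    apply hE
    intro a
    refine Fin.cases ?_ (fun i => ?_) a
    · rw [abs_of_nonneg h.1]
      linarith [h.2]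
    · have h1 := hf _ hne i
      rw [abs_le] at h1 ⊢
      constructor
      · linarith [h1.1, h.1]
      · linarith [h1.2, h.2]
  · rfl

end IB0

open IB0 in
theorem prB0 : StB0 := by
  intro ι x hx n f R B χ R' hR hc hS hB hχ hS' hχ1
  have hB0 : 0 ≤ B := (abs_nonneg _).trans (hB 0)
  classical
  -- the constant
  let T : Set (Fin (n + 1) ↪ ι) :=
    {s | |x (s 0)| ≤ R ∧ ∀ a : Fin n, |x (s a.succ) - x (s 0)| ≤ 2 * R}
  have hT : T.Finite := by
    refine (fin_box x hx (n + 1) (3 * R)).subset ?_
    rintro s ⟨h0, h1⟩ a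
    refine Fin.cases ?_ (fun i => ?_) a
    · linarith
    · have h2 := h1 i
      rw [abs_le] at h0 h2 ⊢
      constructor <;> linarith [h0.1, h0.2, h2.1, h2.2]
  refine ⟨hT.toFinset.card * (4 * R * B), fun U hU => ?_⟩
  let M : ℝ := U + 3 * R + 1 + |R'|
  let E : Finset (Fin (n + 1) ↪ ι) := (fin_box x hx (n + 1) M).toFinset
  have hE : ∀ s : Fin (n + 1) ↪ ι, (∀ a, |x (s a)| ≤ M) → s ∈ E := fun s hs =>
    (Set.Finite.mem_toFinset _).2 hs
  have habs := abs_nonneg R'
  have habs1 := le_abs_self R'
  have habs2 := neg_abs_le R'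
  have hMdef : M = U + 3 * R + 1 + |R'| := rfl
  -- supports
  have hbar : Sp n (bar n f) (2 * R) := by
    intro y hy a
    by_contra hcon
    apply hy
    unfold bar
    have : ∀ t : ℝ, f (Fin.cons t fun a => y a + t) = 0 := by
      intro t
      by_contra h
      have h0 := hS _ h 0
      have h1 := hS _ h a.succ
      apply hcon
      have h0' : |t| ≤ R := h0
      have h1' : |y a + t| ≤ R := h1
      rw [abs_le] at h0' h1' ⊢
      constructor <;> linarith [h0'.1, h0'.2, h1'.1, h1'.2]
    simp [this]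
  -- the integral is a finite sum
  have hI : ∫ u in (0 : ℝ)..U, W x (n + 1) f u =
      ∑ s ∈ E, ∫ u in (0 : ℝ)..U, f fun a => x (s a) - u := by
    have h1 : ∫ u in (0 : ℝ)..U, W x (n + 1) f u =
        ∫ u in (0 : ℝ)..U, ∑ s ∈ E, f fun a => x (s a) - u := by
      refine intervalIntegral.integral_congr fun u hu => ?_
      rw [Set.uIcc_of_le (by linarith)] at hu
      show W x (n + 1) f u = _
      unfold W
      refine tsum_eq_sum fun s hs => ?_
      by_contra hne
      apply hs
      apply hE
      intro a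
      have h2 := hS _ hne a
      rw [abs_le] at h2 ⊢
      constructor <;> linarith [h2.1, h2.2, hu.1, hu.2]
    rw [h1, intervalIntegral.integral_finsetSum]
    intro s _
    apply Continuous.intervalIntegrable
    exact hc.comp (continuous_pi fun a => continuous_const.sub continuous_id)
  have hD := Dd_eq x n (bar n f) (2 * R) U M hbar (by linarith) (by linarith) (by linarith) E
    (by linarith) (by linarith) hE
  have hD1 := Dd_eq x n χ R' (U + R + 1) M hS' (by linarith) (by linarith) (by linarith) E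
    (by linarith) (by linarith) hE
  have hD2 := Dd_eq x n χ R' (U - R) M hS' (by linarith) (by linarith) (by linarith) E
    (by linarith) (by linarith) hE
  rw [hI, hD, hD1, hD2, ← Finset.sum_sub_distrib, ← Finset.sum_sub_distrib, Finset.mul_sum]
  -- termwise
  have hterm : ∀ s ∈ E, |(∫ u in (0 : ℝ)..U, f fun a => x (s a) - u) -
      (if 0 ≤ x (s 0) ∧ x (s 0) < U then bar n f (fun a => x (s a.succ) - x (s 0)) else 0)| ≤
      (if s ∈ T then 4 * R * B else 0) + 4 * R * B *
        ((if 0 ≤ x (s 0) ∧ x (s 0) < U + R + 1 then χ (fun a => x (s a.succ) - x (s 0)) else 0) -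
        (if 0 ≤ x (s 0) ∧ x (s 0) < U - R then χ (fun a => x (s a.succ) - x (s 0)) else 0)) := by
    intro s _
    obtain ⟨I, hIs⟩ : ∃ I, I = ∫ u in (0 : ℝ)..U, f fun a => x (s a) - u := ⟨_, rfl⟩
    obtain ⟨D, hDs⟩ : ∃ D, D = (if 0 ≤ x (s 0) ∧ x (s 0) < U then
      bar n f (fun a => x (s a.succ) - x (s 0)) else 0) := ⟨_, rfl⟩
    obtain ⟨c, hcs⟩ : ∃ c, c = χ (fun a => x (s a.succ) - x (s 0)) := ⟨_, rfl⟩
    rw [← hIs, ← hDs, ← hcs]
    have hc0 : 0 ≤ c := by rw [hcs]; exact hχ _
    have hRB : 0 ≤ 4 * R * B := by positivity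
    have hk : 0 ≤ (if s ∈ T then 4 * R * B else 0) := by
      split_ifs
      · exact hRB
      · exact le_rfl
    have hcc : 0 ≤ (if 0 ≤ x (s 0) ∧ x (s 0) < U + R + 1 then c else 0) -
        (if 0 ≤ x (s 0) ∧ x (s 0) < U - R then c else 0) := by
      split_ifs with h1 h2 h2
      · linarith
      · linarith
      · exact absurd ⟨h2.1, by linarith [h2.2]⟩ h1
      · linarith
    have hsupp : ∀ u, (f fun a => x (s a) - u) ≠ 0 → |x (s 0) - u| ≤ R := fun u hu => hS _ hu 0
    have hI0 : I = ∫ u in Set.Ioc (0 : ℝ) U, f fun a => x (s a) - u := by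
      rw [hIs, intervalIntegral.integral_of_le (by linarith)]
    have hIb : |I| ≤ 2 * R * B := by
      rw [hI0]
      exact bd _ (x (s 0)) R B _ measurableSet_Ioc hR (fun u => hB _) hsupp
    have hbarb : |bar n f (fun a => x (s a.succ) - x (s 0))| ≤ 2 * R * B := by
      rw [bar_eq, ← setIntegral_univ]
      exact bd _ (x (s 0)) R B _ MeasurableSet.univ hR (fun u => hB _) hsupp
    have hDb : |D| ≤ 2 * R * B := by
      rw [hDs]
      split_ifs
      · exact hbarb
      · rw [abs_zero]
        positivity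
    have hzero : I = 0 → D = 0 → |I - D| ≤ (if s ∈ T then 4 * R * B else 0) + 4 * R * B *
        ((if 0 ≤ x (s 0) ∧ x (s 0) < U + R + 1 then c else 0) -
        (if 0 ≤ x (s 0) ∧ x (s 0) < U - R then c else 0)) := by
      intro h1 h2
      rw [h1, h2, sub_zero, abs_zero]
      positivity
    have hsame : I = D → |I - D| ≤ (if s ∈ T then 4 * R * B else 0) + 4 * R * B *
        ((if 0 ≤ x (s 0) ∧ x (s 0) < U + R + 1 then c else 0) -
        (if 0 ≤ x (s 0) ∧ x (s 0) < U - R then c else 0)) := by
      intro h1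
      rw [h1, sub_self, abs_zero]
      positivity
    by_cases hd : ∀ a : Fin n, |x (s a.succ) - x (s 0)| ≤ 2 * R
    · have hc1 : 1 ≤ c := by rw [hcs]; exact hχ1 _ hd
      by_cases h1 : |x (s 0)| ≤ R
      · have hsT : s ∈ T := ⟨h1, hd⟩
        rw [if_pos hsT]
        have h2 : |I - D| ≤ |I| + |D| := abs_sub _ _
        have h3 := mul_nonneg hRB hcc
        linarith
      · rw [abs_le, not_and_or, not_le, not_le] at h1
        rcases h1 with h1 | h1
        · -- far left
          apply hzero
          · rw [hI0]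
            apply setIntegral_eq_zero_of_forall_eq_zero
            intro u hu
            by_contra h
            have := hsupp u h
            rw [abs_le] at this
            linarith [this.1, hu.1]
          · rw [hDs, if_neg (fun h => by linarith [h.1])]
        · by_cases h2 : x (s 0) < U - R
          · -- the interior
            apply hsame
            rw [hDs, if_pos ⟨by linarith, by linarith⟩, bar_eq, hI0]
            apply setIntegral_eq_integral_of_forall_compl_eq_zero
            intro u hu
            by_contra h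
            apply hu
            have := hsupp u h
            rw [abs_le] at this
            exact ⟨by linarith [this.2], by linarith [this.1]⟩
          · push Not at h2
            by_cases h3 : x (s 0) ≤ U + R
            · rw [if_pos (⟨by linarith, by linarith⟩ : 0 ≤ x (s 0) ∧ x (s 0) < U + R + 1),
                if_neg (fun h => by linarith [h.2] : ¬ (0 ≤ x (s 0) ∧ x (s 0) < U - R)), sub_zero]
              have h4 : |I - D| ≤ |I| + |D| := abs_sub _ _
              have h5 : 4 * R * B * 1 ≤ 4 * R * B * c := mul_le_mul_of_nonneg_left hc1 hRB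
              linarith
            · push Not at h3
              apply hzero
              · rw [hI0]
                apply setIntegral_eq_zero_of_forall_eq_zero
                intro u hu
                by_contra h
                have := hsupp u h
                rw [abs_le] at this
                linarith [this.2, hu.2]
              · rw [hDs, if_neg (fun h => by linarith [h.2])]
    · push Not at hd
      obtain ⟨a, ha⟩ := hd
      apply hzero
      · rw [hI0]
        apply setIntegral_eq_zero_of_forall_eq_zero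
        intro u _
        by_contra h
        have e0 := hS _ h 0
        have e1 := hS _ h a.succ
        have : |x (s a.succ) - x (s 0)| ≤ 2 * R := by
          rw [abs_le] at e0 e1 ⊢
          constructor <;> linarith [e0.1, e0.2, e1.1, e1.2]
        linarith
      · rw [hDs]
        split_ifs
        · by_contra h
          have := hbar _ h a
          linarith
        · rfl
  calc |∑ s ∈ E, ((∫ u in (0 : ℝ)..U, f fun a => x (s a) - u) -
      (if 0 ≤ x (s 0) ∧ x (s 0) < U then bar n f (fun a => x (s a.succ) - x (s 0)) else 0))|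
      ≤ ∑ s ∈ E, |(∫ u in (0 : ℝ)..U, f fun a => x (s a) - u) -
      (if 0 ≤ x (s 0) ∧ x (s 0) < U then bar n f (fun a => x (s a.succ) - x (s 0)) else 0)| :=
        Finset.abs_sum_le_sum_abs _ _
    _ ≤ ∑ s ∈ E, ((if s ∈ T then 4 * R * B else 0) + 4 * R * B *
        ((if 0 ≤ x (s 0) ∧ x (s 0) < U + R + 1 then χ (fun a => x (s a.succ) - x (s 0)) else 0) -
        (if 0 ≤ x (s 0) ∧ x (s 0) < U - R then χ (fun a => x (s a.succ) - x (s 0)) else 0))) :=
        Finset.sum_le_sum hterm
    _ = ∑ s ∈ E, (if s ∈ T then 4 * R * B else 0) + ∑ s ∈ E, 4 * R * B *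
        ((if 0 ≤ x (s 0) ∧ x (s 0) < U + R + 1 then χ (fun a => x (s a.succ) - x (s 0)) else 0) -
        (if 0 ≤ x (s 0) ∧ x (s 0) < U - R then χ (fun a => x (s a.succ) - x (s 0)) else 0)) :=
        Finset.sum_add_distrib
    _ ≤ hT.toFinset.card * (4 * R * B) + ∑ s ∈ E, 4 * R * B *
        ((if 0 ≤ x (s 0) ∧ x (s 0) < U + R + 1 then χ (fun a => x (s a.succ) - x (s 0)) else 0) -
        (if 0 ≤ x (s 0) ∧ x (s 0) < U - R then χ (fun a => x (s a.succ) - x (s 0)) else 0)) := by
        gcongr
        rw [← Finset.sum_filter, Finset.sum_const, nsmul_eq_mul]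
        apply mul_le_mul_of_nonneg_right _ (by positivity)
        exact_mod_cast Finset.card_le_card (fun s hs => by
          rw [Finset.mem_filter] at hs
          exact hT.mem_toFinset.2 hs.2)

end Pool.Agent.Work.MP_7eec5e_nt.GG
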