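import Pool.Agent.Work.MP_7eec5e_nt.GG.Stmts

/-!
# MP_7eec5e_nt, block GG, items B1 and B2: correlations of the differences and uniform sampling
-/

set_option autoImplicit false

namespace Pool.Agent.Work.MP_7eec5e_nt.GG

open MeasureTheory Filter Topology Finset

namespace IB1

theorem W_zero {ι : Type} (x : ι → ℝ) (f : (Fin 0 → ℝ) → ℝ) (u : ℝ) : W x 0 f u = f 0 := by
  have h1 : ∀ s : Fin 0 ↪ ι, f (fun a => x (s a) - u) = f 0 := fun s => by
    congr 1
    exact Subsingleton.elim _ _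
  unfold W
  simp only [h1]
  rw [tsum_const]
  simp

theorem shift (D : ℝ → ℝ) (L s : ℝ) (h : Tendsto (fun U : ℝ => U⁻¹ * D U) atTop (𝓝 L)) :
    Tendsto (fun U : ℝ => U⁻¹ * D (U + s)) atTop (𝓝 L) := by
  have h1 : Tendsto (fun U : ℝ => (U + s)⁻¹ * D (U + s)) atTop (𝓝 L) :=
    h.comp (tendsto_atTop_add_const_right atTop s tendsto_id)
  have h2 : Tendsto (fun U : ℝ => 1 + s * U⁻¹) atTop (𝓝 (1 + s * 0)) :=
    (tendsto_inv_atTop_zero.const_mul s).const_add 1
  have h3 := h2.mul h1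
  rw [mul_zero, add_zero, one_mul] at h3
  refine h3.congr' ?_
  filter_upwards [eventually_gt_atTop (0 : ℝ), eventually_gt_atTop (-s)] with U hU hUs
  have h4 : U + s ≠ 0 := by
    have : 0 < U + s := by linarith
    exact this.ne'
  have h5 : U ≠ 0 := hU.ne'
  field_simp

/-- comparison -/
theorem comp (I D E : ℝ → ℝ) (L K C : ℝ) (U₀ : ℝ)
    (h : ∀ U, U₀ ≤ U → |I U - D U| ≤ K + C * E U)
    (hE : Tendsto (fun U : ℝ => U⁻¹ * E U) atTop (𝓝 0))
    (hD : Tendsto (fun U : ℝ => U⁻¹ * D U) atTop (𝓝 L)) :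
    Tendsto (fun U : ℝ => U⁻¹ * I U) atTop (𝓝 L) := by
  have h1 : Tendsto (fun U : ℝ => K * U⁻¹ + C * (U⁻¹ * E U)) atTop (𝓝 (K * 0 + C * 0)) :=
    (tendsto_inv_atTop_zero.const_mul K).add (hE.const_mul C)
  rw [mul_zero, mul_zero, add_zero] at h1
  have h2 : Tendsto (fun U : ℝ => U⁻¹ * I U - U⁻¹ * D U) atTop (𝓝 0) := by
    refine squeeze_zero_norm' ?_ h1
    filter_upwards [eventually_gt_atTop (0 : ℝ), eventually_ge_atTop U₀] with U hU hU0
    have h3 := h U hU0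
    have h4 : U⁻¹ * I U - U⁻¹ * D U = U⁻¹ * (I U - D U) := by ring
    rw [h4, Real.norm_eq_abs, abs_mul, abs_of_pos (inv_pos.2 hU)]
    calc U⁻¹ * |I U - D U| ≤ U⁻¹ * (K + C * E U) :=
          mul_le_mul_of_nonneg_left h3 (inv_pos.2 hU).le
      _ = K * U⁻¹ + C * (U⁻¹ * E U) := by ring
  have h3 := h2.add hD
  rw [zero_add] at h3
  refine h3.congr fun U => ?_
  ring

end IB1

open IB1 in
theorem prB1 (hCc : StCc) (hCb : StCb) (hBr : StBr) (hFb : StFb) (hB0 : StB0) : StB1 := by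
  intro ι x hx hG n f hf
  rcases n with _ | n
  · -- no variables
    have h1 : ∀ u, W x 0 f u = f 0 := fun u => W_zero x f u
    have h2 : ∫ y : Fin 0 → ℝ, f y * rho 0 y = f 0 := by
      have h3 : ∀ y : Fin 0 → ℝ, rho 0 y = 1 := fun y => by
        unfold rho
        exact Matrix.det_isEmpty
      simp only [h3, mul_one]
      rw [integral_unique]
      have h4 : (volume : Measure (Fin 0 → ℝ)).real Set.univ = 1 := by
        rw [Measure.real, volume_pi, Measure.pi_univ]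
        simp
      rw [h4, smul_eq_mul, one_mul]
      congr 1
      exact Subsingleton.elim _ _
    rw [h2]
    refine (tendsto_const_nhds (x := f 0)).congr' ?_
    filter_upwards [eventually_gt_atTop (0 : ℝ)] with U hU
    simp only [h1, intervalIntegral.integral_const, sub_zero, smul_eq_mul]
    field_simp
  · obtain ⟨R, B, hR, hB, hS, hfB⟩ := (hCc (n + 1) f).1 hf
    obtain ⟨hb1, hb2, hb3⟩ := hBr n f R B hR hf.1 hS hfB
    obtain ⟨hc1, hc2, hc3⟩ := hCb n (2 * R) (by linarith)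
    obtain ⟨K, hK⟩ := hB0 x hx n f R B (cube n (2 * R)) (2 * R + 1) hR hf.1 hS hfB
      (fun y => (hc3 y).1) hc2 (fun y hy => ((hc3 y).2.2 hy).ge)
    have hbc : CC n (bar n f) := (hCc n (bar n f)).2 (2 * R) hb1 hb2
    have hcc : CC n (cube n (2 * R)) := (hCc n _).2 (2 * R + 1) hc1 hc2
    have hD := hG n (bar n f) hbc
    rw [← hFb n f hf] at hD
    have hX := hG n _ hcc
    have hX1 := shift _ _ (R + 1) hX
    have hX2 := shift _ _ (-R) hX
    have hX3 := hX1.sub hX2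
    rw [sub_self] at hX3
    refine comp _ _ (fun U => Dd x n (cube n (2 * R)) (U + R + 1) -
      Dd x n (cube n (2 * R)) (U - R)) _ K (4 * R * B) (2 * R) (fun U hU => hK U hU) ?_ hD
    refine hX3.congr fun U => ?_
    have h1 : U + (R + 1) = U + R + 1 := by ring
    have h2 : U + -R = U - R := by ring
    rw [h1, h2]
    ring

open IB1 in
theorem prB2 (hCc : StCc) (hCb : StCb) (hTf : StTf) (hFb : StFb) (hB0 : StB0) (hB4 : StB4) :
    StB2 := by
  intro ι x hx hU n f hf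
  obtain ⟨R, B, hR, hB, hS, hfB⟩ := (hCc n f).1 hf
  obtain ⟨ht1, ht2, ht3, -⟩ := hTf n f R hf.1 hS hR
  have htB : ∀ y, |tf n f y| ≤ B := by
    intro y
    unfold tf
    rw [abs_mul]
    have h1 : |tent (y 0)| ≤ 1 := by
      unfold tent
      rw [abs_of_nonneg (le_max_left _ _)]
      refine max_le zero_le_one ?_
      have := abs_nonneg (y 0)
      linarith
    calc |tent (y 0)| * |f fun a => y a.succ - y 0| ≤ 1 * B :=
          mul_le_mul h1 (hfB _) (abs_nonneg _) zero_le_one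
      _ = B := one_mul B
  have hR2 : (0 : ℝ) ≤ 2 * (R + 1) := by linarith
  obtain ⟨hc1, hc2, hc3⟩ := hCb n (2 * (R + 1)) hR2
  obtain ⟨hq1, hq2, hq3, hq4⟩ := hTf n (cube n (2 * (R + 1))) (2 * (R + 1) + 1) hc1 hc2
    (by linarith)
  obtain ⟨K, hK⟩ := hB0 x hx n (tf n f) (R + 1) B (cube n (2 * (R + 1))) (2 * (R + 1) + 1)
    (by linarith) ht1 ht2 htB (fun y => (hc3 y).1) hc2 (fun y hy => ((hc3 y).2.2 hy).ge)
  obtain ⟨K', hK'⟩ := hB4 x hx n (cube n (2 * (R + 1))) (2 * (R + 1) + 1) (by linarith) hc1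
    (fun y => (hc3 y).1) hc2
  rw [ht3] at hK
  have htc : CC (n + 1) (tf n f) := (hCc (n + 1) _).2 (R + 1) ht1 ht2
  have hqc : CC (n + 1) (tf n (cube n (2 * (R + 1)))) := (hCc (n + 1) _).2 _ hq1 hq2
  have hD := hU (n + 1) (tf n f) htc
  rw [hFb n (tf n f) htc, ht3] at hD
  have hX := hU (n + 1) _ hqc
  have hX1 := shift (fun U => ∫ u in (0 : ℝ)..U, W x (n + 1) (tf n (cube n (2 * (R + 1)))) u) _
    (R + 3) hX
  have hX2 := shift (fun U => ∫ u in (0 : ℝ)..U, W x (n + 1) (tf n (cube n (2 * (R + 1)))) u) _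
    (-(R + 3)) hX
  have hX3 := hX1.sub hX2
  rw [sub_self] at hX3
  have hX4 : Tendsto (fun U : ℝ => 2 * K' * U⁻¹) atTop (𝓝 (2 * K' * 0)) :=
    tendsto_inv_atTop_zero.const_mul (2 * K')
  have hX5 := hX3.add hX4
  rw [mul_zero, add_zero] at hX5
  refine comp _ _ (fun U => (∫ u in (0 : ℝ)..(U + (R + 3)),
      W x (n + 1) (tf n (cube n (2 * (R + 1)))) u) -
      (∫ u in (0 : ℝ)..(U + -(R + 3)), W x (n + 1) (tf n (cube n (2 * (R + 1)))) u) + 2 * K') _ K
      (4 * (R + 1) * B) (2 * R + 8) (fun U hU => ?_) (hX5.congr fun U => by ring) hD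
  have h1 := hK U (by linarith)
  rw [abs_sub_comm] at h1
  refine h1.trans ?_
  have h2 := (hK' (U + (R + 1) + 1 + 1) (by linarith)).1
  have h3 := (hK' (U - (R + 1) - 2) (by linarith)).2
  have h4 : U + (R + 1) + 1 + 1 - 1 = U + (R + 1) + 1 := by ring
  have h5 : U - (R + 1) - 2 + 2 = U - (R + 1) := by ring
  have h6 : U + (R + 1) + 1 + 1 = U + (R + 3) := by ring
  have h7 : U - (R + 1) - 2 = U + -(R + 3) := by ring
  rw [h4, h6] at h2
  rw [h5, h7] at h3
  have h8 : (0 : ℝ) ≤ 4 * (R + 1) * B := by positivity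
  have h9 : Dd x n (cube n (2 * (R + 1))) (U + (R + 1) + 1) -
      Dd x n (cube n (2 * (R + 1))) (U - (R + 1)) ≤
      (∫ u in (0 : ℝ)..(U + (R + 3)), W x (n + 1) (tf n (cube n (2 * (R + 1)))) u) -
      (∫ u in (0 : ℝ)..(U + -(R + 3)), W x (n + 1) (tf n (cube n (2 * (R + 1)))) u) + 2 * K' := by
    linarith
  have h10 := mul_le_mul_of_nonneg_left h9 h8
  linarith

end Pool.Agent.Work.MP_7eec5e_nt.GG
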