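import Pool.Agent.Work.MP_7eec5e_nt.GG.Stmts

/-!
# MP_7eec5e_nt, block GG, item B4: the sum with the tent function
-/

set_option autoImplicit false

namespace Pool.Agent.Work.MP_7eec5e_nt.GG

open MeasureTheory Filter Topology Finset

namespace IB4

theorem tent_zero (t : ℝ) (h : 1 ≤ |t|) : tent t = 0 := by
  unfold tent
  exact max_eq_left (by linarith)

theorem tent_nonneg (t : ℝ) : 0 ≤ tent t := le_max_left _ _

theorem tent_cont : Continuous tent := by
  unfold tent
  fun_prop

theorem int_mid : ∫ t in (-1 : ℝ)..1, tent t = 1 := by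
  have h1 : ∫ t in (-1 : ℝ)..0, tent t = 1 / 2 := by
    have : ∫ t in (-1 : ℝ)..0, tent t = ∫ t in (-1 : ℝ)..0, (1 + t) := by
      apply intervalIntegral.integral_congr
      intro t ht
      rw [Set.uIcc_of_le (by norm_num)] at ht
      show tent t = 1 + t
      unfold tent
      rw [abs_of_nonpos ht.2, max_eq_right (by linarith [ht.1])]
      ring
    rw [this, intervalIntegral.integral_add (by simp) (by simp)]
    simp
    norm_num
  have h2 : ∫ t in (0 : ℝ)..1, tent t = 1 / 2 := by
    have : ∫ t in (0 : ℝ)..1, tent t = ∫ t in (0 : ℝ)..1, (1 - t) := by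
      apply intervalIntegral.integral_congr
      intro t ht
      rw [Set.uIcc_of_le (by norm_num)] at ht
      show tent t = 1 - t
      unfold tent
      rw [abs_of_nonneg ht.1, max_eq_right (by linarith [ht.2])]
    rw [this, intervalIntegral.integral_sub (by simp) (by simp)]
    simp
    norm_num
  rw [← intervalIntegral.integral_add_adjacent_intervals (b := 0)
    (tent_cont.intervalIntegrable _ _) (tent_cont.intervalIntegrable _ _), h1, h2]
  norm_num

theorem int_out (a b : ℝ) (hab : a ≤ b) (h : b ≤ -1 ∨ 1 ≤ a) : ∫ t in a..b, tent t = 0 := by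
  have : ∫ t in a..b, tent t = ∫ t in a..b, (0 : ℝ) := by
    apply intervalIntegral.integral_congr
    intro t ht
    rw [Set.uIcc_of_le hab] at ht
    show tent t = 0
    apply tent_zero
    rcases h with h | h
    · rw [abs_of_nonpos (by linarith [ht.2])]
      linarith [ht.2]
    · rw [abs_of_nonneg (by linarith [ht.1])]
      linarith [ht.1]
  rw [this]
  simp

theorem int_big (a b : ℝ) (ha : a ≤ -1) (hb : 1 ≤ b) : ∫ t in a..b, tent t = 1 := by
  rw [← intervalIntegral.integral_add_adjacent_intervals (b := -1)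
    (tent_cont.intervalIntegrable _ _) (tent_cont.intervalIntegrable _ _),
    ← intervalIntegral.integral_add_adjacent_intervals (a := -1) (b := 1)
    (tent_cont.intervalIntegrable _ _) (tent_cont.intervalIntegrable _ _),
    int_mid, int_out a (-1) ha (Or.inl le_rfl), int_out 1 b hb (Or.inr le_rfl)]
  norm_num

theorem int_le (a b : ℝ) (hab : a ≤ b) : ∫ t in a..b, tent t ≤ 1 := by
  rw [← int_big (min a (-1)) (max b 1) (min_le_right _ _) (le_max_right _ _)]
  exact intervalIntegral.integral_mono_interval (min_le_left _ _) hab (le_max_left _ _)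
    (Filter.Eventually.of_forall fun t => tent_nonneg t) (tent_cont.intervalIntegrable _ _)

/-- the inner integral -/
noncomputable def J (U c : ℝ) : ℝ := ∫ u in (0 : ℝ)..U, tent (c - u)

theorem J_eq (U c : ℝ) : J U c = ∫ t in (c - U)..c, tent t := by
  unfold J
  rw [intervalIntegral.integral_comp_sub_left (fun t => tent t) c, sub_zero]

theorem J_nonneg (U c : ℝ) (hU : 0 ≤ U) : 0 ≤ J U c :=
  intervalIntegral.integral_nonneg hU fun _ _ => tent_nonneg _

theorem J_le (U c : ℝ) (hU : 0 ≤ U) : J U c ≤ 1 := by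
  rw [J_eq]
  exact int_le _ _ (by linarith)

theorem J_out (U c : ℝ) (hU : 0 ≤ U) (h : c ≤ -1 ∨ U + 1 ≤ c) : J U c = 0 := by
  rw [J_eq]
  apply int_out _ _ (by linarith)
  rcases h with h | h
  · exact Or.inl h
  · exact Or.inr (by linarith)

theorem J_in (U c : ℝ) (h1 : 1 ≤ c) (h2 : c ≤ U - 1) : J U c = 1 := by
  rw [J_eq]
  exact int_big _ _ (by linarith) h1

theorem fin_emb {ι : Type} (x : ι → ℝ) (hx : LF x) (n : ℕ) (M : ℝ) :
    {s : Fin n ↪ ι | ∀ a, |x (s a)| ≤ M}.Finite := by
  have h1 : (Set.univ.pi fun _ : Fin n => {i | |x i| ≤ M}).Finite :=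
    Set.Finite.pi fun _ => hx M
  refine (h1.preimage (f := fun s : Fin n ↪ ι => (s : Fin n → ι))
    (DFunLike.coe_injective.injOn)).subset ?_
  intro s hs a _
  exact hs a

/-- the term without the tent -/
noncomputable def F {ι : Type} (x : ι → ℝ) (n : ℕ) (χ : (Fin n → ℝ) → ℝ)
    (s : Fin (n + 1) ↪ ι) : ℝ := χ fun a => x (s a.succ) - x (s 0)

theorem F_bound {ι : Type} (x : ι → ℝ) (n : ℕ) (χ : (Fin n → ℝ) → ℝ) (R M : ℝ) (hR : 0 ≤ R)
    (hχ : Sp n χ R) (s : Fin (n + 1) ↪ ι) (h0 : |x (s 0)| ≤ M) (hF : F x n χ s ≠ 0) :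
    ∀ a, |x (s a)| ≤ M + R := by
  have h1 := hχ _ hF
  intro a
  refine Fin.cases ?_ (fun b => ?_) a
  · linarith
  · have h2 := h1 b
    have h3 : x (s b.succ) = (x (s b.succ) - x (s 0)) + x (s 0) := by ring
    rw [h3]
    refine (abs_add_le _ _).trans ?_
    linarith

theorem term_eq {ι : Type} (x : ι → ℝ) (n : ℕ) (χ : (Fin n → ℝ) → ℝ) (u : ℝ)
    (s : Fin (n + 1) ↪ ι) :
    tf n χ (fun a => x (s a) - u) = F x n χ s * tent (x (s 0) - u) := by
  unfold tf F
  rw [mul_comm]
  congr 2
  funext a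
  ring

end IB4

open IB4 in
theorem prB4 : StB4 := by
  classical
  intro ι x hx n χ R hR hc h0 hS
  refine ⟨∑' s : Fin (n + 1) ↪ ι, if |x (s 0)| ≤ 1 then F x n χ s else 0, ?_⟩
  intro U hU
  have hfin := fin_emb x hx (n + 1) (U + 2 + R)
  set A : Finset (Fin (n + 1) ↪ ι) := hfin.toFinset with hA
  have hmem : ∀ s, s ∈ A ↔ ∀ a, |x (s a)| ≤ U + 2 + R := by
    intro s
    rw [hA, Set.Finite.mem_toFinset]
    rfl
  have hFA : ∀ s, |x (s 0)| ≤ U + 2 → s ∉ A → F x n χ s = 0 := by
    intro s h1 h2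
    by_contra h3
    exact h2 ((hmem s).2 (F_bound x n χ R (U + 2) hR hS s h1 h3))
  have hF0 : ∀ s, 0 ≤ F x n χ s := fun s => h0 _
  have hK : (∑' s : Fin (n + 1) ↪ ι, if |x (s 0)| ≤ 1 then F x n χ s else 0) =
      ∑ s ∈ A, if |x (s 0)| ≤ 1 then F x n χ s else 0 := by
    apply tsum_eq_sum
    intro s hs
    by_cases h : |x (s 0)| ≤ 1
    · rw [if_pos h]
      exact hFA s (by linarith) hs
    · rw [if_neg h]
  have hD : ∀ V : ℝ, V ≤ U + 2 → Dd x n χ V =
      ∑ s ∈ A, if 0 ≤ x (s 0) ∧ x (s 0) < V then F x n χ s else 0 := by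
    intro V hV
    unfold Dd
    have h1 : (∑' s : Fin (n + 1) ↪ ι, if 0 ≤ x (s 0) ∧ x (s 0) < V then F x n χ s else 0) =
        ∑ s ∈ A, if 0 ≤ x (s 0) ∧ x (s 0) < V then F x n χ s else 0 := by
      apply tsum_eq_sum
      intro s hs
      by_cases h : 0 ≤ x (s 0) ∧ x (s 0) < V
      · rw [if_pos h]
        refine hFA s ?_ hs
        rw [abs_of_nonneg h.1]
        linarith [h.2]
      · rw [if_neg h]
    exact h1
  have hW : ∀ u ∈ Set.uIcc 0 U, W x (n + 1) (tf n χ) u =
      ∑ s ∈ A, F x n χ s * tent (x (s 0) - u) := by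
    intro u hu
    rw [Set.uIcc_of_le (by linarith)] at hu
    unfold W
    have h1 : (∑' s : Fin (n + 1) ↪ ι, F x n χ s * tent (x (s 0) - u)) =
        ∑ s ∈ A, F x n χ s * tent (x (s 0) - u) := by
      apply tsum_eq_sum
      intro s hs
      by_cases h : |x (s 0) - u| ≤ 1
      · rw [hFA s ?_ hs, zero_mul]
        rw [abs_le] at h ⊢
        constructor <;> linarith [h.1, h.2, hu.1, hu.2]
      · rw [tent_zero _ (by push Not at h; exact h.le), mul_zero]
    rw [← h1]
    exact tsum_congr fun s => term_eq x n χ u s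
  have hI : ∫ u in (0 : ℝ)..U, W x (n + 1) (tf n χ) u = ∑ s ∈ A, F x n χ s * J U (x (s 0)) := by
    rw [intervalIntegral.integral_congr hW, intervalIntegral.integral_finsetSum]
    · refine Finset.sum_congr rfl fun s _ => ?_
      rw [intervalIntegral.integral_const_mul]
      rfl
    · intro s _
      apply Continuous.intervalIntegrable
      exact continuous_const.mul (tent_cont.comp (continuous_const.sub continuous_id))
  rw [hI, hK, hD (U - 1) (by linarith), hD (U + 2) le_rfl]
  have hU0 : (0 : ℝ) ≤ U := by linarith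
  constructor
  · rw [sub_le_iff_le_add, ← Finset.sum_add_distrib]
    refine Finset.sum_le_sum fun s _ => ?_
    have hF := hF0 s
    have hJ := J_nonneg U (x (s 0)) hU0
    by_cases h1 : |x (s 0)| ≤ 1
    · rw [if_pos h1]
      split_ifs
      · nlinarith [mul_nonneg hF hJ]
      · nlinarith [mul_nonneg hF hJ]
    · rw [if_neg h1]
      split_ifs with h2
      · rw [J_in U (x (s 0)) ?_ h2.2.le]
        · linarith
        · rw [abs_of_nonneg h2.1] at h1
          linarith
      · nlinarith [mul_nonneg hF hJ]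
  · rw [← Finset.sum_add_distrib]
    refine Finset.sum_le_sum fun s _ => ?_
    have hF := hF0 s
    have hJ := J_nonneg U (x (s 0)) hU0
    have hJ1 := J_le U (x (s 0)) hU0
    have hle : F x n χ s * J U (x (s 0)) ≤ F x n χ s := by nlinarith
    by_cases h1 : |x (s 0)| ≤ 1
    · rw [if_pos h1]
      split_ifs
      · linarith
      · linarith
    · rw [if_neg h1]
      split_ifs with h2
      · linarith
      · rw [J_out U (x (s 0)) hU0 ?_]
        · simp
        · by_cases h3 : 0 ≤ x (s 0)
          · right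
            by_contra h4
            exact h2 ⟨h3, by linarith⟩
          · left
            rw [abs_of_nonpos (by linarith)] at h1
            linarith

end Pool.Agent.Work.MP_7eec5e_nt.GG
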