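import Pool.Agent.Work.MP_7eec5e_nt.GG.Stmts2

/-!
# MP_7eec5e_nt, block GG, items Bf, Kb, El
-/

set_option autoImplicit false

namespace Pool.Agent.Work.MP_7eec5e_nt.GG

open MeasureTheory Filter Topology Finset

namespace IBf

theorem cm (N k r : ℕ) :
    (k + r).choose k * N.choose (k + r) = N.choose k * (N - k).choose r := by
  rcases le_or_gt (k + r) N with h | h
  · have h1 := Nat.choose_mul (n := N) (Nat.le_add_right k r)
    rw [Nat.add_sub_cancel_left] at h1
    rw [mul_comm, h1]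
  · rw [Nat.choose_eq_zero_of_lt h, mul_zero]
    rcases le_or_gt k N with h1 | h1
    · rw [Nat.choose_eq_zero_of_lt (show N - k < r by omega), mul_zero]
    · rw [Nat.choose_eq_zero_of_lt h1, zero_mul]

theorem alt (n L : ℕ) :
    ∑ r ∈ range (L + 1), (-1 : ℝ) ^ r * ((n + 1).choose r : ℝ) = (-1) ^ L * (n.choose L : ℝ) := by
  induction L with
  | zero => simp
  | succ L ih =>
    rw [Finset.sum_range_succ, ih, Nat.choose_succ_succ n L]
    push_cast
    ring

theorem alt0 (L : ℕ) :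
    ∑ r ∈ range (L + 1), (-1 : ℝ) ^ r * ((0 : ℕ).choose r : ℝ) = 1 := by
  induction L with
  | zero => simp
  | succ L ih =>
    rw [Finset.sum_range_succ, ih]
    simp

end IBf

open IBf in
theorem prBf : StBf := by
  intro N k L
  have h1 : ∑ r ∈ range (L + 1), (-1 : ℝ) ^ r * ((k + r).choose k : ℝ) * (N.choose (k + r) : ℝ) =
      (N.choose k : ℝ) * ∑ r ∈ range (L + 1), (-1 : ℝ) ^ r * ((N - k).choose r : ℝ) := by
    rw [Finset.mul_sum]
    refine Finset.sum_congr rfl fun r _ => ?_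
    have h2 : ((k + r).choose k : ℝ) * (N.choose (k + r) : ℝ) =
        (N.choose k : ℝ) * ((N - k).choose r : ℝ) := by exact_mod_cast cm N k r
    calc (-1 : ℝ) ^ r * ((k + r).choose k : ℝ) * (N.choose (k + r) : ℝ)
        = (-1 : ℝ) ^ r * (((k + r).choose k : ℝ) * (N.choose (k + r) : ℝ)) := by ring
      _ = (N.choose k : ℝ) * ((-1 : ℝ) ^ r * ((N - k).choose r : ℝ)) := by rw [h2]; ring
  rw [h1]
  have h0 : (0 : ℝ) ≤ ((k + L + 1).choose k : ℝ) * (N.choose (k + L + 1) : ℝ) := by positivity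
  rcases lt_trichotomy N k with h | h | h
  · rw [if_neg h.ne, Nat.choose_eq_zero_of_lt h]
    simpa using h0
  · subst h
    rw [if_pos rfl, Nat.sub_self, alt0, Nat.choose_self]
    simpa using h0
  · rw [if_neg h.ne']
    obtain ⟨n, hn⟩ : ∃ n, N - k = n + 1 := ⟨N - k - 1, by omega⟩
    have h2 : ((k + L + 1).choose k : ℝ) * (N.choose (k + L + 1) : ℝ) =
        (N.choose k : ℝ) * ((n + 1).choose (L + 1) : ℝ) := by
      have h3 := cm N k (L + 1)
      rw [hn] at h3
      exact_mod_cast h3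
    rw [h2, hn, alt, zero_sub, abs_neg, abs_mul, abs_mul, abs_pow, abs_neg, abs_one, one_pow,
      one_mul, Nat.abs_cast, Nat.abs_cast]
    refine mul_le_mul_of_nonneg_left ?_ (Nat.cast_nonneg _)
    rw [Nat.choose_succ_succ n L]
    push_cast
    have : (0 : ℝ) ≤ (n.choose (L + 1) : ℝ) := by positivity
    linarith

theorem prKb (hKp : StKp) : StKb := by
  intro N m b hN
  have hN0 : (0 : ℝ) < N := by exact_mod_cast hN
  have hset : {θ : Fin m → ℝ | ∀ a, θ a ∈ Set.Ico b (b + 2 * Real.pi / N)} =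
      Set.pi Set.univ fun _ : Fin m => Set.Ico b (b + 2 * Real.pi / N) := by
    ext y
    simp [Set.mem_pi]
  have hp : 0 < 2 * Real.pi / N := by positivity
  have hvol : volume {θ : Fin m → ℝ | ∀ a, θ a ∈ Set.Ico b (b + 2 * Real.pi / N)} =
      ENNReal.ofReal (2 * Real.pi / N) ^ m := by
    rw [hset, volume_pi_pi]
    simp
  have hfin : volume {θ : Fin m → ℝ | ∀ a, θ a ∈ Set.Ico b (b + 2 * Real.pi / N)} < ⊤ := by
    rw [hvol]
    exact ENNReal.pow_lt_top ENNReal.ofReal_lt_top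
  have h0 : 0 ≤ ∫ θ in {θ : Fin m → ℝ | ∀ a, θ a ∈ Set.Ico b (b + 2 * Real.pi / N)},
      (dN N m θ).re := integral_nonneg fun θ => (hKp N m θ).2.1
  have h1 := norm_setIntegral_le_of_norm_le_const hfin
    (f := fun θ : Fin m → ℝ => (dN N m θ).re) (C := ((N : ℝ) / (2 * Real.pi)) ^ m) fun θ _ => by
      rw [Real.norm_eq_abs, abs_of_nonneg (hKp N m θ).2.1]
      exact (hKp N m θ).2.2
  have h2 : ((N : ℝ) / (2 * Real.pi)) ^ m *
      (volume : Measure (Fin m → ℝ)).real
        {θ : Fin m → ℝ | ∀ a, θ a ∈ Set.Ico b (b + 2 * Real.pi / N)} = 1 := by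
    rw [Measure.real, hvol, ENNReal.toReal_pow, ENNReal.toReal_ofReal hp.le, ← mul_pow]
    have h3 : (N : ℝ) / (2 * Real.pi) * (2 * Real.pi / N) = 1 := by
      have : Real.pi ≠ 0 := Real.pi_ne_zero
      field_simp
    rw [h3, one_pow]
  rw [h2, Real.norm_eq_abs] at h1
  have hf : (0 : ℝ) ≤ (m.factorial : ℝ)⁻¹ := by positivity
  unfold mN
  refine ⟨mul_nonneg hf h0, ?_⟩
  calc (m.factorial : ℝ)⁻¹ * ∫ θ in {θ : Fin m → ℝ | ∀ a, θ a ∈ Set.Ico b (b + 2 * Real.pi / N)},
        (dN N m θ).re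
      ≤ (m.factorial : ℝ)⁻¹ * 1 := mul_le_mul_of_nonneg_left ((le_abs_self _).trans h1) hf
    _ = (m.factorial : ℝ)⁻¹ := mul_one _

theorem prEl (hIe : StIe) (hKb : StKb) (hLm : StLm) : StEl := by
  intro k b hb
  have hchoose : ∀ r : ℕ, ((k + r).choose k : ℝ) * ((k + r).factorial : ℝ)⁻¹ =
      (k.factorial : ℝ)⁻¹ * (r.factorial : ℝ)⁻¹ := by
    intro r
    have h1 : (k + r).choose k * k.factorial * r.factorial = (k + r).factorial := by
      have h2 := Nat.choose_mul_factorial_mul_factorial (Nat.le_add_right k r)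
      rwa [Nat.add_sub_cancel_left] at h2
    have h3 : ((k + r).choose k : ℝ) * (k.factorial : ℝ) * (r.factorial : ℝ) =
        ((k + r).factorial : ℝ) := by exact_mod_cast h1
    have h4 : (k.factorial : ℝ) ≠ 0 := by positivity
    have h5 : (r.factorial : ℝ) ≠ 0 := by positivity
    have h6 : ((k + r).factorial : ℝ) ≠ 0 := by positivity
    rw [← mul_inv, ← div_eq_mul_inv, div_eq_iff h6, ← h3]
    field_simp
  have hlim : Tendsto (fun N : ℕ => ∑' r : ℕ, if r < N - k + 1 then
      (-1 : ℝ) ^ r * ((k + r).choose k : ℝ) * mN N (k + r) (b N) else 0) atTop (𝓝 (ek k)) := by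
    unfold ek
    refine tendsto_tsum_of_dominated_convergence
      (bound := fun r => (k.factorial : ℝ)⁻¹ * (r.factorial : ℝ)⁻¹) ?_ (fun r => ?_) ?_
    · refine Summable.mul_left _ ?_
      have h1 := Real.summable_pow_div_factorial 1
      refine h1.congr fun r => ?_
      rw [one_pow, one_div]
    · have h1 : Tendsto (fun N : ℕ => (-1 : ℝ) ^ r * ((k + r).choose k : ℝ) * mN N (k + r) (b N))
          atTop (𝓝 ((-1 : ℝ) ^ r * ((k + r).choose k : ℝ) * dm (k + r))) :=
        (hLm (k + r) b).const_mul _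
      refine h1.congr' ?_
      filter_upwards [eventually_ge_atTop (k + r)] with N hN
      rw [if_pos (by omega)]
    · filter_upwards [eventually_ge_atTop 1] with N hN r
      split_ifs with h
      · obtain ⟨h1, h2⟩ := hKb N (k + r) (b N) hN
        rw [Real.norm_eq_abs, abs_mul, abs_mul, abs_pow, abs_neg, abs_one, one_pow, one_mul,
          Nat.abs_cast, abs_of_nonneg h1, ← hchoose]
        exact mul_le_mul_of_nonneg_left h2 (Nat.cast_nonneg _)
      · rw [norm_zero]
        positivity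
  refine hlim.congr' ?_
  filter_upwards [hb, eventually_ge_atTop (max 1 k)] with N hN hNk
  have h1 : 1 ≤ N := (le_max_left _ _).trans hNk
  have h2 : k ≤ N := (le_max_right _ _).trans hNk
  rw [hIe N k (b N) h1 h2 hN.1 hN.2]
  rw [tsum_eq_sum (s := range (N - k + 1)) fun r hr => if_neg fun h => hr (Finset.mem_range.2 h)]
  exact Finset.sum_congr rfl fun r hr => if_pos (Finset.mem_range.1 hr)

end Pool.Agent.Work.MP_7eec5e_nt.GG
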