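import Pool.Agent.Work.MP_7eec5e_nt.GG.Stmts

/-!
# MP_7eec5e_nt, block GG, item C1: a continuous majorant of the moments
-/

set_option autoImplicit false

namespace Pool.Agent.Work.MP_7eec5e_nt.GG

open MeasureTheory Filter Topology Finset

theorem prC1 (hA2 : StA2) (hA3 : StA3) (hA5 : StA5) (hA7 : StA7) (hCc : StCc) (hCb : StCb) :
    StC1 := by
  intro ι x hx hU R p hR
  obtain ⟨hc1, hc2, hc3⟩ := hCb p R hR
  have hcc : CC p (cube p R) := (hCc p (cube p R)).2 (R + 1) hc1 hc2
  have hpos : ∀ u, 0 ≤ W x p (cube p R) u := fun u =>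
    (hA7 x hx p (cube p R) (cube p R) (R + 1) u hc2 hc2).2.2.2 fun y => (hc3 y).1
  refine ⟨fun u => (2 * p) ^ p + 2 ^ p * W x p (cube p R) u,
    (2 * p) ^ p + 2 ^ p * ∫ y : Fin p → ℝ, cube p R y * rho p y, ?_, fun u => ?_, fun u => ?_, ?_⟩
  · exact continuous_const.add (continuous_const.mul (hA5 x hx p (cube p R) (R + 1) hc2 hc1))
  · have := hpos u
    positivity
  · have h1 := hA3 (cn x R u) p
    have h2 := hA2 x hx p (cube p R) R (R + 1) u (fun y => (hc3 y).1)
      (fun y hy => ((hc3 y).2.2 hy).ge) hc2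
    refine h1.trans ?_
    have h3 : (0 : ℝ) ≤ 2 ^ p := by positivity
    have h4 := mul_le_mul_of_nonneg_left h2 h3
    linarith
  · have h1 := hU p (cube p R) hcc
    have h2 := h1.const_mul ((2 : ℝ) ^ p)
    have h3 := h2.const_add ((2 * (p : ℝ)) ^ p)
    refine h3.congr' ?_
    filter_upwards [eventually_gt_atTop (0 : ℝ)] with U hU0
    have hcont := hA5 x hx p (cube p R) (R + 1) hc2 hc1
    rw [intervalIntegral.integral_add (by simp) ((hcont.intervalIntegrable 0 U).const_mul _),
      intervalIntegral.integral_const_mul, intervalIntegral.integral_const, sub_zero, smul_eq_mul]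
    field_simp

end Pool.Agent.Work.MP_7eec5e_nt.GG
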