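import Pool.Agent.Work.MP_7eec5e_nt.GG.Stmts

/-!
# MP_7eec5e_nt, block GG, item C5: the variance of block averages
-/

set_option autoImplicit false

namespace Pool.Agent.Work.MP_7eec5e_nt.GG

open MeasureTheory Filter Topology Finset

namespace IC5

/-- the distance of two natural numbers -/
def D (i j : ℕ) : ℕ := (i - j) + (j - i)

theorem row (a : ℕ → ℝ) (ha : ∀ d, 0 ≤ a d) (H i : ℕ) (hi : i < H) :
    ∑ j ∈ range H, a (D i j) ≤ 2 * ∑ d ∈ range H, a d := by
  have h0 : ∀ j ∈ range H, a (D i j) ≤ (if j ≤ i then a (i - j) else 0) +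
      (if i ≤ j then a (j - i) else 0) := by
    intro j _
    unfold D
    by_cases h1 : j ≤ i
    · rw [if_pos h1]
      by_cases h2 : i ≤ j
      · rw [if_pos h2]
        have : i = j := le_antisymm h2 h1
        subst this
        simp only [Nat.sub_self, add_zero]
        linarith [ha 0]
      · rw [if_neg h2]
        have : j - i = 0 := by omega
        rw [this, add_zero, add_zero]
    · rw [if_neg h1, if_pos (by omega)]
      have : i - j = 0 := by omega
      rw [this, zero_add, zero_add]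
  refine (Finset.sum_le_sum h0).trans ?_
  rw [Finset.sum_add_distrib, two_mul]
  apply add_le_add
  · rw [← Finset.sum_filter]
    have hinj : Set.InjOn (fun j => i - j) (((range H).filter fun j => j ≤ i : Finset ℕ) : Set ℕ) := by
      intro j hj k hk hjk
      rw [Finset.mem_coe, Finset.mem_filter] at hj hk
      have h1 : i - j = i - k := hjk
      omega
    rw [← Finset.sum_image (f := a) (g := fun j => i - j) hinj]
    apply Finset.sum_le_sum_of_subset_of_nonneg
    · intro d hd
      rw [Finset.mem_image] at hd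
      obtain ⟨j, hj, rfl⟩ := hd
      rw [Finset.mem_range]
      omega
    · intro d _ _
      exact ha d
  · rw [← Finset.sum_filter]
    have hinj : Set.InjOn (fun j => j - i) (((range H).filter fun j => i ≤ j : Finset ℕ) : Set ℕ) := by
      intro j hj k hk hjk
      rw [Finset.mem_coe, Finset.mem_filter] at hj hk
      have h1 : j - i = k - i := hjk
      omega
    rw [← Finset.sum_image (f := a) (g := fun j => j - i) hinj]
    apply Finset.sum_le_sum_of_subset_of_nonneg
    · intro d hd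
      rw [Finset.mem_image] at hd
      obtain ⟨j, hj, rfl⟩ := hd
      rw [Finset.mem_filter, Finset.mem_range] at hj
      rw [Finset.mem_range]
      omega
    · intro d _ _
      exact ha d

theorem dbl (a : ℕ → ℝ) (ha : ∀ d, 0 ≤ a d) (H : ℕ) :
    ∑ i ∈ range H, ∑ j ∈ range H, a (D i j) ≤ H * (2 * ∑ d ∈ range H, a d) := by
  calc ∑ i ∈ range H, ∑ j ∈ range H, a (D i j)
      ≤ ∑ _i ∈ range H, (2 * ∑ d ∈ range H, a d) :=
        Finset.sum_le_sum fun i hi => row a ha H i (Finset.mem_range.1 hi)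
    _ = H * (2 * ∑ d ∈ range H, a d) := by
        rw [Finset.sum_const, Finset.card_range, nsmul_eq_mul]

end IC5

open IC5 in
theorem prC5 (hSh : StSh) : StC5 := by
  intro G h μ C c d₀ hG hh hμ hc hcμ hC δ hδ
  -- `C` is not negative
  have hC0 : 0 ≤ C := by
    obtain ⟨U, hU1, hU2⟩ := (hC.and (eventually_gt_atTop (0 : ℝ))).exists
    refine le_trans ?_ hU1
    apply mul_nonneg (inv_nonneg.2 hU2.le)
    apply intervalIntegral.integral_nonneg hU2.le
    intro u _
    positivity
  -- second moments of the shifts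
  have hsq : ∀ s : ℝ, 0 ≤ s → ∀ᶠ U : ℝ in atTop,
      U⁻¹ * ∫ u in (0 : ℝ)..U, G (u + s) ^ 2 ≤ C + 1 := by
    intro s hs
    have h1 := (tendsto_atTop_add_const_right atTop s tendsto_id).eventually hC
    filter_upwards [h1, eventually_gt_atTop (0 : ℝ), eventually_ge_atTop (C * s)] with U hU1 hU2 hU3
    have hUs : 0 < U + s := by linarith
    have h2 : ∫ u in (0 : ℝ)..(U + s), G u ^ 2 ≤ C * (U + s) := by
      have h3 : (U + s)⁻¹ * ∫ u in (0 : ℝ)..(U + s), G u ^ 2 ≤ C := hU1
      rw [inv_mul_le_iff₀ hUs] at h3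
      linarith
    have hii : ∀ a b : ℝ, IntervalIntegrable (fun u => G u ^ 2) volume a b := fun a b =>
      (hG.pow 2).intervalIntegrable a b
    have h3 : ∫ u in (0 : ℝ)..U, G (u + s) ^ 2 = ∫ u in (0 + s)..(U + s), G u ^ 2 :=
      intervalIntegral.integral_comp_add_right (fun u => G u ^ 2) s
    have h4 : ∫ u in (0 : ℝ)..(U + s), G u ^ 2 =
        (∫ u in (0 : ℝ)..(0 + s), G u ^ 2) + ∫ u in (0 + s)..(U + s), G u ^ 2 :=
      (intervalIntegral.integral_add_adjacent_intervals (hii _ _) (hii _ _)).symm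
    have h5 : 0 ≤ ∫ u in (0 : ℝ)..(0 + s), G u ^ 2 := by
      apply intervalIntegral.integral_nonneg (by linarith)
      intro u _
      positivity
    rw [inv_mul_le_iff₀ hU2, h3]
    nlinarith
  obtain ⟨a, haf, han, ha0⟩ : ∃ a : ℕ → ℝ, (∀ d, d₀ < d → a d = |c d - μ ^ 2|) ∧
      (∀ d, d ≤ d₀ → a d = C + 1) ∧ ∀ d, 0 ≤ a d := by
    refine ⟨fun d => if d₀ < d then |c d - μ ^ 2| else C + 1, fun d hd => if_pos hd,
      fun d hd => if_neg (by omega), fun d => ?_⟩
    dsimp only
    split_ifs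
    · exact abs_nonneg _
    · linarith
  have hat : Tendsto a atTop (𝓝 0) := by
    have h1 : Tendsto (fun d => |c d - μ ^ 2|) atTop (𝓝 0) := by
      have := (hcμ.sub_const (μ ^ 2)).abs
      simpa using this
    refine h1.congr' ?_
    filter_upwards [eventually_gt_atTop d₀] with d hd
    exact (haf d hd).symm
  -- the size of the blocks
  obtain ⟨H, hH1, hH2⟩ : ∃ H : ℕ, 1 ≤ H ∧ 2 * ((H : ℝ)⁻¹ * ∑ d ∈ range H, a d) ≤ δ / 2 := by
    have h1 := hat.cesaro.const_mul 2
    rw [mul_zero] at h1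
    obtain ⟨H, h2, h3⟩ := ((h1.eventually (eventually_le_nhds (by linarith : (0 : ℝ) < δ / 2))).and
      (eventually_ge_atTop 1)).exists
    exact ⟨H, h3, h2⟩
  have hHpos : (0 : ℝ) < H := by exact_mod_cast hH1
  refine ⟨H, hH1, ?_⟩
  -- pairs
  have hpair : ∀ i j : ℕ, ∀ᶠ U : ℝ in atTop,
      U⁻¹ * ∫ u in (0 : ℝ)..U, G (u + h * i) * G (u + h * j) ≤
        μ ^ 2 + a (IC5.D i j) + δ / 4 := by
    have hle : ∀ i j : ℕ, i ≤ j → ∀ᶠ U : ℝ in atTop,
        U⁻¹ * ∫ u in (0 : ℝ)..U, G (u + h * i) * G (u + h * j) ≤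
          μ ^ 2 + a (j - i) + δ / 4 := by
      intro i j hij
      by_cases hd : d₀ < j - i
      · have h1 := (hSh (fun u => G u * G (u + h * ((j - i : ℕ) : ℝ))) (c (j - i)) (h * i)
          (hG.mul (hG.comp (continuous_id.add continuous_const))) (by positivity)
          (hc (j - i) hd)).1
        have h2 : c (j - i) < μ ^ 2 + a (j - i) + δ / 4 := by
          rw [haf _ hd]
          have := le_abs_self (c (j - i) - μ ^ 2)
          linarith
        filter_upwards [h1.eventually (eventually_le_nhds h2)] with U hU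
        refine le_trans (le_of_eq ?_) hU
        congr 1
        refine intervalIntegral.integral_congr fun u _ => ?_
        show G (u + h * i) * G (u + h * j) =
          G (u + h * i) * G (u + h * i + h * ((j - i : ℕ) : ℝ))
        congr 2
        rw [Nat.cast_sub hij]
        ring
      · have h1 := hsq (h * i) (by positivity)
        have h2 := hsq (h * j) (by positivity)
        filter_upwards [h1, h2, eventually_gt_atTop (0 : ℝ)] with U hU1 hU2 hU3
        rw [han _ (by omega)]
        have hii : ∀ s : ℝ, IntervalIntegrable (fun u => G (u + s) ^ 2) volume 0 U := fun s =>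
          ((hG.comp (continuous_id.add continuous_const)).pow 2).intervalIntegrable _ _
        have h3 : ∫ u in (0 : ℝ)..U, G (u + h * i) * G (u + h * j) ≤
            ∫ u in (0 : ℝ)..U, ((1 / 2) * G (u + h * i) ^ 2 + (1 / 2) * G (u + h * j) ^ 2) := by
          apply intervalIntegral.integral_mono_on hU3.le
          · exact ((hG.comp (continuous_id.add continuous_const)).mul
              (hG.comp (continuous_id.add continuous_const))).intervalIntegrable _ _
          · exact ((hii _).const_mul _).add ((hii _).const_mul _)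
          · intro u _
            nlinarith [sq_nonneg (G (u + h * i) - G (u + h * j))]
        rw [intervalIntegral.integral_add ((hii _).const_mul _) ((hii _).const_mul _),
          intervalIntegral.integral_const_mul, intervalIntegral.integral_const_mul] at h3
        have h4 : U⁻¹ * ∫ u in (0 : ℝ)..U, G (u + h * i) * G (u + h * j) ≤
            U⁻¹ * ((1 / 2) * (∫ u in (0 : ℝ)..U, G (u + h * i) ^ 2) +
              (1 / 2) * ∫ u in (0 : ℝ)..U, G (u + h * j) ^ 2) :=
          mul_le_mul_of_nonneg_left h3 (inv_nonneg.2 hU3.le)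
        have h5 : 0 ≤ μ ^ 2 := by positivity
        linarith
    intro i j
    rcases le_total i j with hij | hij
    · have : IC5.D i j = j - i := by unfold IC5.D; omega
      rw [this]
      exact hle i j hij
    · have : IC5.D i j = i - j := by unfold IC5.D; omega
      rw [this]
      filter_upwards [hle j i hij] with U hU
      refine le_trans (le_of_eq ?_) hU
      congr 1
      refine intervalIntegral.integral_congr fun u _ => ?_
      exact mul_comm _ _
  -- single shifts
  have hone : Tendsto (fun U : ℝ => ∑ i ∈ range H, U⁻¹ * ∫ u in (0 : ℝ)..U, G (u + h * i)) atTop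
      (𝓝 (H * μ)) := by
    have h1 : Tendsto (fun U : ℝ => ∑ i ∈ range H, U⁻¹ * ∫ u in (0 : ℝ)..U, G (u + h * i)) atTop
        (𝓝 (∑ _i ∈ range H, μ)) :=
      tendsto_finsetSum _ fun i _ => (hSh G μ (h * i) hG (by positivity) hμ).1
    rwa [Finset.sum_const, Finset.card_range, nsmul_eq_mul] at h1
  have hone' : ∀ᶠ U : ℝ in atTop, -(2 * μ / H) *
      (∑ i ∈ range H, U⁻¹ * ∫ u in (0 : ℝ)..U, G (u + h * i)) ≤ -(2 * μ ^ 2) + δ / 4 := by
    have h1 := hone.const_mul (-(2 * μ / H))
    have h2 : -(2 * μ / H) * (H * μ) = -(2 * μ ^ 2) := by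
      field_simp
    rw [h2] at h1
    exact h1.eventually (eventually_le_nhds (by linarith))
  have hall : ∀ᶠ U : ℝ in atTop, ∀ i ∈ range H, ∀ j ∈ range H,
      U⁻¹ * ∫ u in (0 : ℝ)..U, G (u + h * i) * G (u + h * j) ≤
        μ ^ 2 + a (IC5.D i j) + δ / 4 := by
    rw [Filter.eventually_all_finset]
    intro i _
    rw [Filter.eventually_all_finset]
    intro j _
    exact hpair i j
  filter_upwards [hall, hone', eventually_gt_atTop (0 : ℝ)] with U hU1 hU2 hU3
  -- expansion of the square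
  have hcont : ∀ i : ℕ, Continuous fun u => G (u + h * i) := fun i =>
    hG.comp (continuous_id.add continuous_const)
  have hexp : ∫ u in (0 : ℝ)..U, ((H : ℝ)⁻¹ * ∑ i ∈ range H, G (u + h * i) - μ) ^ 2 =
      ((H : ℝ)⁻¹) ^ 2 * (∑ i ∈ range H, ∑ j ∈ range H,
        ∫ u in (0 : ℝ)..U, G (u + h * i) * G (u + h * j)) -
      (2 * μ / H) * (∑ i ∈ range H, ∫ u in (0 : ℝ)..U, G (u + h * i)) + μ ^ 2 * U := by
    have e1 : ∀ u, ((H : ℝ)⁻¹ * ∑ i ∈ range H, G (u + h * i) - μ) ^ 2 =
        (((H : ℝ)⁻¹) ^ 2 * (∑ i ∈ range H, ∑ j ∈ range H, G (u + h * i) * G (u + h * j)) -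
        (2 * μ / H) * (∑ i ∈ range H, G (u + h * i))) + μ ^ 2 := by
      intro u
      rw [← Finset.sum_mul_sum]
      ring
    have c2 : ∀ i j : ℕ, Continuous fun u => G (u + h * i) * G (u + h * j) := fun i j =>
      (hcont i).mul (hcont j)
    have c3 : Continuous fun u => ((H : ℝ)⁻¹) ^ 2 *
        (∑ i ∈ range H, ∑ j ∈ range H, G (u + h * i) * G (u + h * j)) :=
      continuous_const.mul (continuous_finsetSum _ fun i _ => continuous_finsetSum _ fun j _ =>
        c2 i j)
    have c4 : Continuous fun u => (2 * μ / H) * (∑ i ∈ range H, G (u + h * i)) :=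
      continuous_const.mul (continuous_finsetSum _ fun i _ => hcont i)
    have c34 : Continuous fun u => ((H : ℝ)⁻¹) ^ 2 *
        (∑ i ∈ range H, ∑ j ∈ range H, G (u + h * i) * G (u + h * j)) -
        (2 * μ / H) * (∑ i ∈ range H, G (u + h * i)) := c3.sub c4
    calc ∫ u in (0 : ℝ)..U, ((H : ℝ)⁻¹ * ∑ i ∈ range H, G (u + h * i) - μ) ^ 2
        = ∫ u in (0 : ℝ)..U, ((((H : ℝ)⁻¹) ^ 2 *
          (∑ i ∈ range H, ∑ j ∈ range H, G (u + h * i) * G (u + h * j)) -
          (2 * μ / H) * (∑ i ∈ range H, G (u + h * i))) + μ ^ 2) :=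
          intervalIntegral.integral_congr fun u _ => e1 u
      _ = _ := by
          rw [intervalIntegral.integral_add (c34.intervalIntegrable _ _)
            (continuous_const.intervalIntegrable _ _),
            intervalIntegral.integral_sub (c3.intervalIntegrable _ _) (c4.intervalIntegrable _ _),
            intervalIntegral.integral_const_mul, intervalIntegral.integral_const_mul,
            intervalIntegral.integral_finsetSum (fun i _ =>
              (continuous_finsetSum _ fun j _ => c2 i j).intervalIntegrable _ _),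
            intervalIntegral.integral_finsetSum (fun i _ => (hcont i).intervalIntegrable _ _),
            intervalIntegral.integral_const, smul_eq_mul, sub_zero, mul_comm U]
          congr 3
          refine Finset.sum_congr rfl fun i _ => ?_
          rw [intervalIntegral.integral_finsetSum (fun j _ => (c2 i j).intervalIntegrable _ _)]
  rw [hexp]
  have hsum : ∑ i ∈ range H, ∑ j ∈ range H,
      (U⁻¹ * ∫ u in (0 : ℝ)..U, G (u + h * i) * G (u + h * j)) ≤
      H ^ 2 * (μ ^ 2 + δ / 4) + H * (2 * ∑ d ∈ range H, a d) := by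
    calc ∑ i ∈ range H, ∑ j ∈ range H,
        (U⁻¹ * ∫ u in (0 : ℝ)..U, G (u + h * i) * G (u + h * j))
        ≤ ∑ i ∈ range H, ∑ j ∈ range H, (μ ^ 2 + a (IC5.D i j) + δ / 4) :=
          Finset.sum_le_sum fun i hi => Finset.sum_le_sum fun j hj => hU1 i hi j hj
      _ = H ^ 2 * (μ ^ 2 + δ / 4) + ∑ i ∈ range H, ∑ j ∈ range H, a (IC5.D i j) := by
          have e2 : ∀ i ∈ range H, ∑ j ∈ range H, (μ ^ 2 + a (IC5.D i j) + δ / 4) =
              H * (μ ^ 2 + δ / 4) + ∑ j ∈ range H, a (IC5.D i j) := by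
            intro i _
            rw [Finset.sum_add_distrib, Finset.sum_add_distrib, Finset.sum_const,
              Finset.sum_const, Finset.card_range, nsmul_eq_mul, nsmul_eq_mul]
            ring
          rw [Finset.sum_congr rfl e2, Finset.sum_add_distrib, Finset.sum_const,
            Finset.card_range, nsmul_eq_mul]
          ring
      _ ≤ _ := by
          have := IC5.dbl a ha0 H
          linarith
  have hpull : ∑ i ∈ range H, ∑ j ∈ range H,
      (U⁻¹ * ∫ u in (0 : ℝ)..U, G (u + h * i) * G (u + h * j)) =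
      U⁻¹ * ∑ i ∈ range H, ∑ j ∈ range H, ∫ u in (0 : ℝ)..U, G (u + h * i) * G (u + h * j) := by
    rw [Finset.mul_sum]
    refine Finset.sum_congr rfl fun i _ => ?_
    rw [Finset.mul_sum]
  have hpull1 : ∑ i ∈ range H, U⁻¹ * ∫ u in (0 : ℝ)..U, G (u + h * i) =
      U⁻¹ * ∑ i ∈ range H, ∫ u in (0 : ℝ)..U, G (u + h * i) := by
    rw [Finset.mul_sum]
  rw [hpull] at hsum
  rw [hpull1] at hU2
  obtain ⟨S2, hS2⟩ : ∃ S2, S2 = ∑ i ∈ range H, ∑ j ∈ range H,
    ∫ u in (0 : ℝ)..U, G (u + h * i) * G (u + h * j) := ⟨_, rfl⟩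
  obtain ⟨S1, hS1⟩ : ∃ S1, S1 = ∑ i ∈ range H, ∫ u in (0 : ℝ)..U, G (u + h * i) := ⟨_, rfl⟩
  rw [← hS2] at hsum ⊢
  rw [← hS1] at hU2 ⊢
  have h1 : U⁻¹ * (((H : ℝ)⁻¹) ^ 2 * S2 - 2 * μ / H * S1 + μ ^ 2 * U) =
      ((H : ℝ)⁻¹) ^ 2 * (U⁻¹ * S2) + -(2 * μ / H) * (U⁻¹ * S1) + μ ^ 2 := by
    field_simp
    ring
  rw [h1]
  have h2 : ((H : ℝ)⁻¹) ^ 2 * (U⁻¹ * S2) ≤
      ((H : ℝ)⁻¹) ^ 2 * (H ^ 2 * (μ ^ 2 + δ / 4) + H * (2 * ∑ d ∈ range H, a d)) :=
    mul_le_mul_of_nonneg_left hsum (by positivity)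
  have h3 : ((H : ℝ)⁻¹) ^ 2 * (H ^ 2 * (μ ^ 2 + δ / 4) + H * (2 * ∑ d ∈ range H, a d)) =
      (μ ^ 2 + δ / 4) + 2 * ((H : ℝ)⁻¹ * ∑ d ∈ range H, a d) := by
    field_simp
  linarith

end Pool.Agent.Work.MP_7eec5e_nt.GG
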