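import Pool.Agent.Work.MP_7eec5e_nt.GG.Stmts

/-!
# MP_7eec5e_nt, block GG, item D1: the transfer from the real variable to the lattice
-/

set_option autoImplicit false

namespace Pool.Agent.Work.MP_7eec5e_nt.GG

open MeasureTheory Filter Topology Finset

namespace ID1

theorem blk1 (f : ℕ → ℝ) (H M i : ℕ) (hi : i ≤ H) :
    |∑ j ∈ range M, f j - ∑ j ∈ range M, f (j + i)| ≤
      ∑ j ∈ Finset.Ico 0 H, |f j| + ∑ j ∈ Finset.Ico M (M + H), |f j| := by
  have h1 : ∑ j ∈ range M, f (j + i) = ∑ j ∈ range (M + i), f j - ∑ j ∈ range i, f j := by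
    have := Finset.sum_range_add_sum_Ico f (Nat.le_add_left i M)
    have h2 : ∑ j ∈ Finset.Ico i (M + i), f j = ∑ j ∈ range M, f (j + i) := by
      rw [Finset.sum_Ico_eq_sum_range]
      rw [Nat.add_sub_cancel]
      exact Finset.sum_congr rfl fun j _ => by rw [add_comm]
    linarith
  have h3 : ∑ j ∈ range (M + i), f j = ∑ j ∈ range M, f j + ∑ j ∈ Finset.Ico M (M + i), f j :=
    (Finset.sum_range_add_sum_Ico f (Nat.le_add_right M i)).symm
  have h4 : ∑ j ∈ range M, f j - ∑ j ∈ range M, f (j + i) =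
      ∑ j ∈ range i, f j - ∑ j ∈ Finset.Ico M (M + i), f j := by
    rw [h1, h3]; ring
  rw [h4]
  refine (abs_sub _ _).trans (add_le_add ?_ ?_)
  · refine (Finset.abs_sum_le_sum_abs _ _).trans ?_
    rw [Nat.Ico_zero_eq_range]
    exact Finset.sum_le_sum_of_subset_of_nonneg (Finset.range_subset_range.2 hi)
      (fun _ _ _ => abs_nonneg _)
  · refine (Finset.abs_sum_le_sum_abs _ _).trans ?_
    exact Finset.sum_le_sum_of_subset_of_nonneg
      (Finset.Ico_subset_Ico le_rfl (Nat.add_le_add_left hi M)) (fun _ _ _ => abs_nonneg _)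

theorem blk (f : ℕ → ℝ) (H M : ℕ) (hH : 1 ≤ H) :
    |∑ j ∈ range M, f j - ∑ j ∈ range M, (H : ℝ)⁻¹ * ∑ i ∈ range H, f (j + i)| ≤
      ∑ j ∈ Finset.Ico 0 H, |f j| + ∑ j ∈ Finset.Ico M (M + H), |f j| := by
  have hH0 : (0 : ℝ) < H := by exact_mod_cast hH
  have h1 : ∑ j ∈ range M, f j - ∑ j ∈ range M, (H : ℝ)⁻¹ * ∑ i ∈ range H, f (j + i) =
      (H : ℝ)⁻¹ * ∑ i ∈ range H, (∑ j ∈ range M, f j - ∑ j ∈ range M, f (j + i)) := by
    rw [Finset.sum_sub_distrib, Finset.sum_const, Finset.card_range, nsmul_eq_mul, mul_sub,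
      inv_mul_cancel_left₀ hH0.ne', ← Finset.mul_sum, Finset.sum_comm]
  rw [h1, abs_mul, abs_of_pos (inv_pos.2 hH0)]
  have h2 : |∑ i ∈ range H, (∑ j ∈ range M, f j - ∑ j ∈ range M, f (j + i))| ≤
      H * (∑ j ∈ Finset.Ico 0 H, |f j| + ∑ j ∈ Finset.Ico M (M + H), |f j|) := by
    refine (Finset.abs_sum_le_sum_abs _ _).trans ?_
    refine (Finset.sum_le_sum fun i hi => blk1 f H M i (Finset.mem_range.1 hi).le).trans ?_
    rw [Finset.sum_const, Finset.card_range, nsmul_eq_mul]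
  calc (H : ℝ)⁻¹ * _ ≤ (H : ℝ)⁻¹ *
        (H * (∑ j ∈ Finset.Ico 0 H, |f j| + ∑ j ∈ Finset.Ico M (M + H), |f j|)) :=
        mul_le_mul_of_nonneg_left h2 (inv_pos.2 hH0).le
    _ = _ := inv_mul_cancel_left₀ hH0.ne' _

theorem int_mono (Q : ℝ → ℝ) (hQ : Continuous Q) (hQ0 : ∀ v, 0 ≤ Q v) {x y x' y' : ℝ}
    (h1 : x' ≤ x) (h2 : x ≤ y) (h3 : y ≤ y') : ∫ u in x..y, Q u ≤ ∫ u in x'..y', Q u :=
  intervalIntegral.integral_mono_interval h1 h2 h3
    (Filter.Eventually.of_forall fun v => hQ0 v) (hQ.intervalIntegrable _ _)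

theorem pt (hD2 : StD2) (G Q : ℝ → ℝ) (a h μ B ζ ε : ℝ) (H M : ℕ) (hQ : Continuous Q)
    (ha : 0 ≤ a) (hh : 0 < h) (hB : 0 ≤ B) (hζ : 0 < ζ) (hεh : ε ≤ h) (hH : 1 ≤ H)
    (hQ0 : ∀ v, 0 ≤ Q v) (hbd : ∀ u v, |v - u| ≤ h → |G u| ≤ B * Q v)
    (hsm : ∀ u v s : ℝ, 0 ≤ s → s ≤ ε → |v - u| ≤ h → |G (u + s) - G u| ≤ ζ * Q v)
    (s : ℝ) (hs : 0 ≤ s) (hs2 : s ≤ ε) :
    |∑ j ∈ range M, G (a + h * j) - M * μ| ≤
      (ζ / h * ∫ u in (0 : ℝ)..(a + h * M), Q u) + (B / h * ∫ u in (0 : ℝ)..(a + h + h * H), Q u) +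
        (B / h * ∫ u in (a + h * M)..(a + h * M + (h + h * H)), Q u) +
      ∑ j ∈ range M, |(H : ℝ)⁻¹ * ∑ i ∈ range H, G (a + h * j + s + h * i) - μ| := by
  have hsh : s ≤ h := hs2.trans hεh
  have hM0 : (0 : ℝ) ≤ M := Nat.cast_nonneg M
  have hHr : (0 : ℝ) ≤ H := Nat.cast_nonneg H
  -- first term
  have t1 : ∑ j ∈ range M, |G (a + h * j + s) - G (a + h * j)| ≤
      ζ / h * ∫ u in (0 : ℝ)..(a + h * M), Q u := by
    have := hD2 (fun u => G (u + s) - G u) Q a h ζ 0 M hQ hh hζ.le (Nat.zero_le M) hQ0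
      (fun u v huv => hsm u v s hs hs2 huv)
    rw [Nat.Ico_zero_eq_range] at this
    refine this.trans (mul_le_mul_of_nonneg_left ?_ (by positivity))
    refine int_mono Q hQ hQ0 ?_ ?_ le_rfl
    · simpa using ha
    · simpa using mul_nonneg hh.le hM0
  have t2 : ∑ j ∈ Finset.Ico 0 H, |G (a + s + h * j)| ≤
      B / h * ∫ u in (0 : ℝ)..(a + h + h * H), Q u := by
    refine (hD2 G Q (a + s) h B 0 H hQ hh hB (Nat.zero_le H) hQ0 hbd).trans
      (mul_le_mul_of_nonneg_left ?_ (by positivity))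
    refine int_mono Q hQ hQ0 ?_ ?_ ?_
    · push_cast; linarith
    · push_cast
      nlinarith [mul_nonneg hh.le hHr]
    · linarith
  have t3 : ∑ j ∈ Finset.Ico M (M + H), |G (a + s + h * j)| ≤
      B / h * ∫ u in (a + h * M)..(a + h * M + (h + h * H)), Q u := by
    refine (hD2 G Q (a + s) h B M (M + H) hQ hh hB (Nat.le_add_right M H) hQ0 hbd).trans
      (mul_le_mul_of_nonneg_left ?_ (by positivity))
    refine int_mono Q hQ hQ0 ?_ ?_ ?_
    · linarith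
    · push_cast
      nlinarith [mul_nonneg hh.le hHr]
    · push_cast
      linarith
  have t4 := blk (fun j : ℕ => G (a + s + h * j)) H M hH
  have e1 : ∑ j ∈ range M, G (a + h * j) - M * μ =
      -(∑ j ∈ range M, (G (a + h * j + s) - G (a + h * j))) +
      (∑ j ∈ range M, G (a + s + h * j) -
        ∑ j ∈ range M, (H : ℝ)⁻¹ * ∑ i ∈ range H, G (a + s + h * ((j + i : ℕ) : ℝ))) +
      ∑ j ∈ range M, ((H : ℝ)⁻¹ * ∑ i ∈ range H, G (a + h * j + s + h * i) - μ) := by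
    have e2 : ∀ j i : ℕ, a + s + h * ((j + i : ℕ) : ℝ) = a + h * j + s + h * i := by
      intro j i
      push_cast
      ring
    have e3 : ∀ j : ℕ, a + s + h * (j : ℝ) = a + h * j + s := by
      intro j
      ring
    simp only [e2, e3, Finset.sum_sub_distrib, Finset.sum_const, Finset.card_range, nsmul_eq_mul]
    ring
  rw [e1]
  refine (abs_add_three _ _ _).trans ?_
  rw [abs_neg]
  have t5 := Finset.abs_sum_le_sum_abs
    (fun j : ℕ => G (a + h * j + s) - G (a + h * j)) (range M)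
  have t6 := Finset.abs_sum_le_sum_abs
    (fun j : ℕ => (H : ℝ)⁻¹ * ∑ i ∈ range H, G (a + h * j + s + h * i) - μ) (range M)
  linarith

theorem main (hD2 : StD2) (G Q : ℝ → ℝ) (a h μ B ζ ε : ℝ) (H M : ℕ) (hG : Continuous G)
    (hQ : Continuous Q)
    (ha : 0 ≤ a) (hh : 0 < h) (hB : 0 ≤ B) (hζ : 0 < ζ) (hε : 0 < ε) (hεh : ε ≤ h) (hH : 1 ≤ H)
    (hQ0 : ∀ v, 0 ≤ Q v) (hbd : ∀ u v, |v - u| ≤ h → |G u| ≤ B * Q v)
    (hsm : ∀ u v s : ℝ, 0 ≤ s → s ≤ ε → |v - u| ≤ h → |G (u + s) - G u| ≤ ζ * Q v) :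
    |∑ j ∈ range M, G (a + h * j) - M * μ| ≤
      (ζ / h * ∫ u in (0 : ℝ)..(a + h * M), Q u) + (B / h * ∫ u in (0 : ℝ)..(a + h + h * H), Q u) +
        (B / h * ∫ u in (a + h * M)..(a + h * M + (h + h * H)), Q u) +
      (M * (ζ / 2) + 1 / (2 * ζ * ε) * ∫ u in (0 : ℝ)..(a + h * M),
        ((H : ℝ)⁻¹ * ∑ i ∈ range H, G (u + h * i) - μ) ^ 2) := by
  set X : ℝ := |∑ j ∈ range M, G (a + h * j) - M * μ| with hX
  set E : ℝ := (ζ / h * ∫ u in (0 : ℝ)..(a + h * M), Q u) +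
    (B / h * ∫ u in (0 : ℝ)..(a + h + h * H), Q u) +
        (B / h * ∫ u in (a + h * M)..(a + h * M + (h + h * H)), Q u) with hE
  set F : ℝ → ℝ := fun u => (H : ℝ)⁻¹ * ∑ i ∈ range H, G (u + h * i) - μ with hF
  have hFc : Continuous F := by
    refine (continuous_const.mul (continuous_finsetSum _ fun i _ => ?_)).sub continuous_const
    exact hG.comp (continuous_id.add continuous_const)
  have hM0 : (0 : ℝ) ≤ M := Nat.cast_nonneg M
  have p1 : ∀ s ∈ Set.Icc (0 : ℝ) ε, X ≤ E + M * (ζ / 2) +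
      1 / (2 * ζ) * ∑ j ∈ range M, F (a + h * j + s) ^ 2 := by
    intro s hs
    have h1 := pt hD2 G Q a h μ B ζ ε H M hQ ha hh hB hζ hεh hH hQ0 hbd hsm s hs.1 hs.2
    have h2 : ∑ j ∈ range M, |F (a + h * j + s)| ≤
        ∑ j ∈ range M, (ζ / 2 + 1 / (2 * ζ) * F (a + h * j + s) ^ 2) := by
      refine Finset.sum_le_sum fun j _ => ?_
      set y := F (a + h * j + s)
      have h3 : 0 ≤ (|y| - ζ) ^ 2 := sq_nonneg _
      have h4 : |y| ^ 2 = y ^ 2 := sq_abs y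
      have h5 : ζ / 2 + 1 / (2 * ζ) * y ^ 2 = (ζ ^ 2 + y ^ 2) / (2 * ζ) := by
        field_simp
      rw [h5, le_div_iff₀ (by positivity)]
      nlinarith
    rw [Finset.sum_add_distrib, Finset.sum_const, Finset.card_range, nsmul_eq_mul,
      ← Finset.mul_sum] at h2
    linarith
  have hFs : ∀ j : ℕ, Continuous fun s : ℝ => F (a + h * j + s) ^ 2 := fun j =>
    (hFc.comp (continuous_const.add continuous_id)).pow 2
  have hSc : Continuous fun s : ℝ => ∑ j ∈ range M, F (a + h * j + s) ^ 2 :=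
    continuous_finsetSum _ fun j _ => hFs j
  have hSc2 : Continuous fun s : ℝ => 1 / (2 * ζ) * ∑ j ∈ range M, F (a + h * j + s) ^ 2 :=
    continuous_const.mul hSc
  have p2 : ε * X ≤ ε * (E + M * (ζ / 2)) +
      1 / (2 * ζ) * ∫ s in (0 : ℝ)..ε, ∑ j ∈ range M, F (a + h * j + s) ^ 2 := by
    have h1 : ∫ _s in (0 : ℝ)..ε, X ≤ ∫ s in (0 : ℝ)..ε, (E + M * (ζ / 2) +
        1 / (2 * ζ) * ∑ j ∈ range M, F (a + h * j + s) ^ 2) :=
      intervalIntegral.integral_mono_on hε.le (continuous_const.intervalIntegrable _ _)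
        ((continuous_const.add hSc2).intervalIntegrable _ _) p1
    rw [intervalIntegral.integral_const, intervalIntegral.integral_add
      (continuous_const.intervalIntegrable _ _)
      (hSc2.intervalIntegrable _ _), intervalIntegral.integral_const,
      intervalIntegral.integral_const_mul] at h1
    simpa using h1
  have p3 : ∫ s in (0 : ℝ)..ε, ∑ j ∈ range M, F (a + h * j + s) ^ 2 ≤
      ∫ u in (0 : ℝ)..(a + h * M), F u ^ 2 := by
    rw [intervalIntegral.integral_finsetSum fun j _ => (hFs j).intervalIntegrable _ _]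
    have hF2 : Continuous fun u => F u ^ 2 := hFc.pow 2
    have h1 : ∑ j ∈ range M, ∫ s in (0 : ℝ)..ε, F (a + h * j + s) ^ 2 ≤
        ∑ j ∈ range M, ∫ u in (a + h * (j : ℝ))..(a + h * ((j + 1 : ℕ) : ℝ)), F u ^ 2 := by
      refine Finset.sum_le_sum fun j _ => ?_
      have h2 : ∫ s in (0 : ℝ)..ε, F (a + h * j + s) ^ 2 =
          ∫ u in (a + h * (j : ℝ) + 0)..(a + h * j + ε), F u ^ 2 := by
        rw [intervalIntegral.integral_comp_add_left (fun u => F u ^ 2)]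
      rw [h2]
      refine int_mono (fun u => F u ^ 2) hF2 (fun v => sq_nonneg _) (by linarith) (by linarith) ?_
      push_cast
      linarith
    have h3 : ∑ j ∈ range M, ∫ u in (a + h * (j : ℝ))..(a + h * ((j + 1 : ℕ) : ℝ)), F u ^ 2 =
        ∫ u in (a + h * ((0 : ℕ) : ℝ))..(a + h * (M : ℝ)), F u ^ 2 :=
      intervalIntegral.sum_integral_adjacent_intervals (a := fun j : ℕ => a + h * (j : ℝ))
        (fun k _ => hF2.intervalIntegrable _ _)
    refine h1.trans (h3.le.trans ?_)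
    refine int_mono (fun u => F u ^ 2) hF2 (fun v => sq_nonneg _) (by simpa using ha) ?_ le_rfl
    simpa using mul_nonneg hh.le hM0
  have p4 : ε * X ≤ ε * (E + M * (ζ / 2) +
      1 / (2 * ζ * ε) * ∫ u in (0 : ℝ)..(a + h * M), F u ^ 2) := by
    have h1 : ε * (1 / (2 * ζ * ε) * ∫ u in (0 : ℝ)..(a + h * M), F u ^ 2) =
        1 / (2 * ζ) * ∫ u in (0 : ℝ)..(a + h * M), F u ^ 2 := by
      field_simp
    have h2 : 1 / (2 * ζ) * ∫ s in (0 : ℝ)..ε, ∑ j ∈ range M, F (a + h * j + s) ^ 2 ≤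
        1 / (2 * ζ) * ∫ u in (0 : ℝ)..(a + h * M), F u ^ 2 :=
      mul_le_mul_of_nonneg_left p3 (by positivity)
    rw [mul_add, h1]
    linarith
  have p5 := le_of_mul_le_mul_left p4 hε
  linarith

end ID1

theorem prD1 (hSh : StSh) (hD2 : StD2) : StD1 := by
  intro G Q a h μ q B hG hQ ha hh hB hQ0 hq hbd hsm hvar
  have hah : 0 < a + h := by linarith
  set C : ℝ := (a + h) / h * (|q| + 1) + 3 with hC
  have hC0 : 0 < C := by positivity
  have key : ∀ ζ : ℝ, 0 < ζ → ∀ᶠ M : ℕ in atTop,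
      |(M : ℝ)⁻¹ * ∑ j ∈ range M, G (a + h * j) - μ| ≤ ζ * C := by
    intro ζ hζ
    obtain ⟨ε₀, hε₀, hs⟩ := hsm ζ hζ
    set ε := min ε₀ h with hεd
    have hε : 0 < ε := lt_min hε₀ hh
    have hεh : ε ≤ h := min_le_right _ _
    have hs' : ∀ u v s : ℝ, 0 ≤ s → s ≤ ε → |v - u| ≤ h → |G (u + s) - G u| ≤ ζ * Q v :=
      fun u v s h0 h1 h2 => hs u v s h0 (h1.trans (min_le_left _ _)) h2
    obtain ⟨H, hH1, hH⟩ := hvar (ζ ^ 2 * ε / (a + h)) (by positivity)
    have hU : Tendsto (fun M : ℕ => a + h * (M : ℝ)) atTop atTop :=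
      tendsto_atTop_add_const_left _ _ (tendsto_natCast_atTop_atTop.const_mul_atTop hh)
    have e1 := hU.eventually hH
    have e2 : ∀ᶠ M : ℕ in atTop,
        (a + h * (M : ℝ))⁻¹ * ∫ u in (0 : ℝ)..(a + h * M), Q u < |q| + 1 :=
      (hq.comp hU).eventually_lt_const (lt_of_le_of_lt (le_abs_self q) (by linarith))
    have e3 : ∀ᶠ M : ℕ in atTop, (a + h * (M : ℝ))⁻¹ *
        ∫ u in (a + h * (M : ℝ))..(a + h * M + (h + h * H)), Q u < ζ * h / ((B + 1) * (a + h)) :=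
      ((hSh Q q (h + h * H) hQ (by positivity) hq).2.comp hU).eventually_lt_const (by positivity)
    have e4 : ∀ᶠ M : ℕ in atTop, (B / h * ∫ u in (0 : ℝ)..(a + h + h * H), Q u) / (M : ℝ) < ζ :=
      (tendsto_const_div_atTop_nhds_zero_nat _).eventually_lt_const hζ
    filter_upwards [e1, e2, e3, e4, eventually_ge_atTop 1] with M g1 g2 g3 g4 g5
    have hM1 : (1 : ℝ) ≤ M := by exact_mod_cast g5
    have hM0 : (0 : ℝ) < M := by linarith
    have hm := ID1.main hD2 G Q a h μ B ζ ε H M hG hQ ha hh hB hζ hε hεh hH1 hQ0 hbd hs'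
    set U : ℝ := a + h * M with hUd
    have hU0 : 0 < U := by positivity
    have hUM : U ≤ (a + h) * M := by nlinarith
    have e5 : (M : ℝ)⁻¹ * ∑ j ∈ range M, G (a + h * j) - μ =
        (∑ j ∈ range M, G (a + h * j) - M * μ) / M := by
      field_simp
    rw [e5, abs_div, abs_of_pos hM0, div_le_iff₀ hM0]
    refine hm.trans ?_
    -- the four terms
    have i1 : ∫ u in (0 : ℝ)..U, Q u ≤ U * (|q| + 1) := by
      rw [inv_mul_lt_iff₀ hU0] at g2
      exact g2.le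
    have i2 : ∫ u in U..(U + (h + h * H)), Q u ≤ U * (ζ * h / ((B + 1) * (a + h))) := by
      rw [inv_mul_lt_iff₀ hU0] at g3
      exact g3.le
    have i3 : B / h * ∫ u in (0 : ℝ)..(a + h + h * H), Q u ≤ ζ * M := by
      rw [div_lt_iff₀ hM0] at g4
      exact g4.le
    have i4 : ∫ u in (0 : ℝ)..U, ((H : ℝ)⁻¹ * ∑ i ∈ range H, G (u + h * i) - μ) ^ 2 ≤
        U * (ζ ^ 2 * ε / (a + h)) := by
      rwa [inv_mul_le_iff₀ hU0] at g1
    have j1 : ζ / h * ∫ u in (0 : ℝ)..U, Q u ≤ ζ * ((a + h) / h * (|q| + 1)) * M := by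
      calc ζ / h * ∫ u in (0 : ℝ)..U, Q u ≤ ζ / h * (U * (|q| + 1)) :=
            mul_le_mul_of_nonneg_left i1 (by positivity)
        _ ≤ ζ / h * (((a + h) * M) * (|q| + 1)) := by gcongr
        _ = _ := by field_simp
    have j2 : B / h * ∫ u in U..(U + (h + h * H)), Q u ≤ ζ * M := by
      calc B / h * ∫ u in U..(U + (h + h * H)), Q u ≤
            B / h * (U * (ζ * h / ((B + 1) * (a + h)))) :=
            mul_le_mul_of_nonneg_left i2 (by positivity)
        _ ≤ B / h * (((a + h) * M) * (ζ * h / ((B + 1) * (a + h)))) := by gcongr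
        _ = B / (B + 1) * (ζ * M) := by field_simp
        _ ≤ 1 * (ζ * M) := by
            refine mul_le_mul_of_nonneg_right ?_ (by positivity)
            rw [div_le_one (by linarith)]
            linarith
        _ = ζ * M := one_mul _
    have j4 : 1 / (2 * ζ * ε) *
        ∫ u in (0 : ℝ)..U, ((H : ℝ)⁻¹ * ∑ i ∈ range H, G (u + h * i) - μ) ^ 2 ≤ ζ / 2 * M := by
      calc _ ≤ 1 / (2 * ζ * ε) * (U * (ζ ^ 2 * ε / (a + h))) :=
            mul_le_mul_of_nonneg_left i4 (by positivity)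
        _ ≤ 1 / (2 * ζ * ε) * (((a + h) * M) * (ζ ^ 2 * ε / (a + h))) := by gcongr
        _ = _ := by field_simp
    have j5 : ζ * C * M = ζ * ((a + h) / h * (|q| + 1)) * M + ζ * 3 * M := by
      rw [hC]
      ring
    rw [j5]
    nlinarith
  rw [Metric.tendsto_nhds]
  intro η hη
  filter_upwards [key (η / (2 * C)) (by positivity)] with M hM
  rw [Real.dist_eq]
  refine lt_of_le_of_lt hM ?_
  have : η / (2 * C) * C = η / 2 := by
    field_simp
  rw [this]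
  linarith

end Pool.Agent.Work.MP_7eec5e_nt.GG
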