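import Pool.Agent.Work.MP_7eec5e_nt.GG.Stmts

/-!
# MP_7eec5e_nt, block GG, item D2: sums over a lattice against integrals
-/

set_option autoImplicit false

namespace Pool.Agent.Work.MP_7eec5e_nt.GG

open MeasureTheory Filter Topology Finset

theorem ID2.one (G Q : ℝ → ℝ) (h B u : ℝ) (hQ : Continuous Q) (hh : 0 < h)
    (hG : ∀ u v, |v - u| ≤ h → |G u| ≤ B * Q v) :
    |G u| ≤ B / h * ∫ v in u..(u + h), Q v := by
  have h1 : ∫ _ in u..(u + h), |G u| ≤ ∫ v in u..(u + h), B * Q v := by
    apply intervalIntegral.integral_mono_on (by linarith)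
    · exact intervalIntegrable_const
    · exact (continuous_const.mul hQ).intervalIntegrable _ _
    · intro v hv
      apply hG
      rw [abs_le]
      constructor <;> linarith [hv.1, hv.2]
  rw [intervalIntegral.integral_const, intervalIntegral.integral_const_mul, smul_eq_mul] at h1
  have h2 : u + h - u = h := by ring
  rw [h2] at h1
  rw [div_mul_eq_mul_div, le_div_iff₀ hh]
  linarith

theorem prD2 : StD2 := by
  intro G Q a h B m M hQ hh hB hmM hQ0 hG
  have h1 := intervalIntegral.sum_integral_adjacent_intervals_Ico (μ := volume) (f := Q)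
    (a := fun k : ℕ => a + h * k) hmM (fun k _ => hQ.intervalIntegrable _ _)
  rw [← h1, Finset.mul_sum]
  apply Finset.sum_le_sum
  intro j _
  have h2 := ID2.one G Q h B (a + h * j) hQ hh hG
  have h3 : a + h * ((j + 1 : ℕ) : ℝ) = a + h * j + h := by push_cast; ring
  rw [h3]
  exact h2

end Pool.Agent.Work.MP_7eec5e_nt.GG
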