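import Pool.Agent.Work.MP_7eec5e_nt.GG.Stmts

/-!
# MP_7eec5e_nt, block GG, item D3: from uniform sampling to the lattice
-/

set_option autoImplicit false

namespace Pool.Agent.Work.MP_7eec5e_nt.GG

open MeasureTheory Filter Topology Finset

namespace ID3

theorem cn_mono {ι : Type} (x : ι → ℝ) (hx : LF x) (R h u v : ℝ) (hv : |v - u| ≤ h) :
    cn x R u ≤ cn x (R + h) v := by
  have hfin : {i | |x i - v| ≤ R + h}.Finite := by
    refine (hx (R + h + |v|)).subset fun i hi => ?_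
    have h1 : |x i - v| ≤ R + h := hi
    have h2 : |x i| ≤ |x i - v| + |v| := by
      have := abs_add_le (x i - v) v
      rwa [sub_add_cancel] at this
    show |x i| ≤ R + h + |v|
    linarith
  refine Set.ncard_le_ncard (fun i hi => ?_) hfin
  have h1 : |x i - u| ≤ R := hi
  show |x i - v| ≤ R + h
  have h2 : x i - v = (x i - u) - (v - u) := by ring
  rw [h2]
  exact (abs_sub _ _).trans (add_le_add h1 hv)

end ID3

open ID3 in
theorem prD3 (hA1 : StA1) (hA4 : StA4) (hA5 : StA5) (hA9 : StA9) (hCc : StCc) (hMx : StMx)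
    (hC1 : StC1) (hC5 : StC5) (hD1 : StD1) : StD3 := by
  intro ι x hx hU a h ha hh n f hf
  obtain ⟨R, B, hR, hB, hS, hfB⟩ := (hCc n f).1 hf
  have hG : Continuous (W x n f) := hA5 x hx n f R hS hf.1
  have hGb : ∀ u, |W x n f u| ≤ B * (cn x R u : ℝ) ^ n := fun u =>
    (hA1 x hx n f R B u hB hS hfB).2
  obtain ⟨μ, hμ⟩ : ∃ μ : ℝ, μ = ∫ y : Fin n → ℝ, f y * rho n y := ⟨_, rfl⟩
  rw [← hμ]
  have hUf := hU n f hf
  rw [← hμ] at hUf
  obtain ⟨hpc, hpl⟩ := hMx n f hf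
  rw [← hμ] at hpl
  obtain ⟨c, hc⟩ : ∃ c : ℕ → ℝ, c = fun d : ℕ =>
    ∫ y : Fin (n + n) → ℝ, pr n f (h * d) y * rho (n + n) y := ⟨_, rfl⟩
  -- the moments
  obtain ⟨Q1, q1, hQ1c, hQ10, hQ1, hQ1l⟩ := hC1 x hx hU R (2 * n) hR
  obtain ⟨Q, q, hQc, hQ0, hQ, hQl⟩ := hC1 x hx hU (R + 1 + h) n (by linarith)
  obtain ⟨d₀, hd₀⟩ := exists_nat_gt (2 * R / h)
  have hfar : ∀ d : ℕ, d₀ < d → 2 * R < |h * (d : ℝ)| := by
    intro d hd
    have h1 : (d₀ : ℝ) < d := by exact_mod_cast hd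
    have h2 : 2 * R / h < d := hd₀.trans h1
    rw [div_lt_iff₀ hh] at h2
    rw [abs_of_nonneg (by positivity)]
    linarith
  have hvar := hC5 (W x n f) h μ (B ^ 2 * (q1 + 1)) c d₀ hG hh hUf (by
    intro d hd
    have h1 := hU (n + n) (pr n f (h * d)) (hpc (h * d))
    rw [hc]
    refine h1.congr fun U => ?_
    congr 1
    refine intervalIntegral.integral_congr fun u _ => ?_
    exact (hA4 x hx n f R u (h * d) hS (hfar d hd)).symm) (by
    rw [hc]
    exact hpl.comp (tendsto_natCast_atTop_atTop.const_mul_atTop hh)) (by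
    have h1 : ∀ᶠ U : ℝ in atTop, U⁻¹ * ∫ u in (0 : ℝ)..U, Q1 u < q1 + 1 :=
      hQ1l.eventually (gt_mem_nhds (by linarith))
    filter_upwards [h1, eventually_gt_atTop (0 : ℝ)] with U h2 hU0
    have h3 : ∫ u in (0 : ℝ)..U, W x n f u ^ 2 ≤ ∫ u in (0 : ℝ)..U, B ^ 2 * Q1 u := by
      refine intervalIntegral.integral_mono_on hU0.le ((hG.pow 2).intervalIntegrable _ _)
        ((hQ1c.const_mul _).intervalIntegrable _ _) fun u _ => ?_
      have h4 := hGb u
      have h5 : W x n f u ^ 2 ≤ (B * (cn x R u : ℝ) ^ n) ^ 2 := by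
        rw [← sq_abs]
        exact pow_le_pow_left₀ (abs_nonneg _) h4 2
      refine h5.trans ?_
      rw [mul_pow, ← pow_mul, mul_comm n 2]
      exact mul_le_mul_of_nonneg_left (hQ1 u) (by positivity)
    rw [intervalIntegral.integral_const_mul] at h3
    have hUi : 0 < U⁻¹ := inv_pos.2 hU0
    calc U⁻¹ * ∫ u in (0 : ℝ)..U, W x n f u ^ 2
        ≤ U⁻¹ * (B ^ 2 * ∫ u in (0 : ℝ)..U, Q1 u) := mul_le_mul_of_nonneg_left h3 hUi.le
      _ = B ^ 2 * (U⁻¹ * ∫ u in (0 : ℝ)..U, Q1 u) := by ring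
      _ ≤ B ^ 2 * (q1 + 1) := mul_le_mul_of_nonneg_left h2.le (by positivity))
  -- the transfer
  refine hD1 (W x n f) Q a h μ q B hG hQc ha hh hB hQ0 hQl ?_ ?_ hvar
  · intro u v huv
    refine (hGb u).trans (mul_le_mul_of_nonneg_left ?_ hB)
    refine le_trans ?_ (hQ v)
    have h1 := cn_mono x hx R (1 + h) u v (huv.trans (by linarith))
    have h2 : R + (1 + h) = R + 1 + h := by ring
    rw [h2] at h1
    exact pow_le_pow_left₀ (Nat.cast_nonneg _) (by exact_mod_cast h1) n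
  · intro δ hδ
    obtain ⟨ε, hε, -, h1⟩ := hA9 x hx n f R hS hf δ hδ
    refine ⟨ε, hε, fun u v s hs hse huv => (h1 u s hs hse).trans ?_⟩
    refine mul_le_mul_of_nonneg_left (le_trans ?_ (hQ v)) hδ.le
    have h2 := cn_mono x hx (R + 1) h u v huv
    exact pow_le_pow_left₀ (Nat.cast_nonneg _) (by exact_mod_cast h2) n

end Pool.Agent.Work.MP_7eec5e_nt.GG
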