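import Pool.Agent.Work.MP_7eec5e_nt.GG.Stmts

/-!
# MP_7eec5e_nt, block GG, item E1: from the lattice to the real variable
-/

set_option autoImplicit false

namespace Pool.Agent.Work.MP_7eec5e_nt.GG

open MeasureTheory Filter Topology Finset

namespace IE1

theorem W_mul {ι : Type} (x : ι → ℝ) (n : ℕ) (f : (Fin n → ℝ) → ℝ) (c u : ℝ) :
    W x n (fun y => c * f y) u = c * W x n f u := by
  unfold W
  exact tsum_mul_left

theorem bound (hA7 : StA7) (hCb : StCb) {ι : Type} (x : ι → ℝ) (hx : LF x) (n : ℕ)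
    (f : (Fin n → ℝ) → ℝ) (R B h : ℝ) (hR : 0 ≤ R) (hB : 0 ≤ B) (hf : Sp n f R)
    (hfB : ∀ y, |f y| ≤ B) (hh : 0 ≤ h) (v s : ℝ) (hs : 0 ≤ s) (hs2 : s ≤ h) :
    |W x n f (v + s)| ≤ B * W x n (cube n (R + h)) v := by
  obtain ⟨c1, c2, c3⟩ := hCb n (R + h) (by linarith)
  set F := cube n (R + h) with hF
  set fs : (Fin n → ℝ) → ℝ := fun y => f fun a => y a - s with hfs
  have e1 : W x n f (v + s) = W x n fs v := (hA7 x hx n f f R v hf hf).2.1 s
  have b1 : ∀ y, |fs y| ≤ B * F y := by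
    intro y
    by_cases h0 : fs y = 0
    · rw [h0, abs_zero]
      exact mul_nonneg hB (c3 y).1
    · have h1 : F y = 1 := by
        refine (c3 y).2.2 fun a => ?_
        have h2 := hf _ h0 a
        have h3 : |y a| ≤ |y a - s| + |s| := by
          have := abs_add_le (y a - s) s
          simpa using this
        rw [abs_of_nonneg hs] at h3
        linarith
      rw [h1, mul_one]
      exact hfB _
  have s1 : Sp n fs (R + h + 1) := by
    intro y hy a
    have h2 := hf _ hy a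
    have h3 : |y a| ≤ |y a - s| + |s| := by
      have := abs_add_le (y a - s) s
      simpa using this
    rw [abs_of_nonneg hs] at h3
    linarith
  have s2 : ∀ c : ℝ, Sp n (fun y => c * F y) (R + h + 1) := by
    intro c y hy a
    exact c2 y (right_ne_zero_of_mul hy) a
  rw [e1, abs_le]
  constructor
  · have := (hA7 x hx n (fun y => (-B) * F y) fs (R + h + 1) v (s2 _) s1).2.2.1
      (fun y => by have := (abs_le.1 (b1 y)).1; linarith)
    rw [W_mul] at this
    linarith
  · have := (hA7 x hx n fs (fun y => B * F y) (R + h + 1) v s1 (s2 _)).2.2.1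
      (fun y => (abs_le.1 (b1 y)).2)
    rw [W_mul] at this
    exact this

theorem shift_integral (hRc : StRc) (n : ℕ) (f : (Fin n → ℝ) → ℝ) (s : ℝ) :
    ∫ y : Fin n → ℝ, (f fun a => y a - s) * rho n y = ∫ y : Fin n → ℝ, f y * rho n y := by
  have h1 := integral_sub_right_eq_self (μ := (volume : Measure (Fin n → ℝ)))
    (fun y : Fin n → ℝ => f y * rho n y) (fun _ => s)
  rw [← h1]
  refine integral_congr_ae (Filter.Eventually.of_forall fun y => ?_)
  have h2 : rho n (y - fun _ => s) = rho n y := by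
    have := (hRc n).2.1 (y - fun _ => s) s
    rw [← this]
    congr 1
    ext a
    simp
  show (f fun a => y a - s) * rho n y = f (y - fun _ => s) * rho n (y - fun _ => s)
  rw [h2]
  rfl

theorem shift_CC (n : ℕ) (hCc : StCc) (f : (Fin n → ℝ) → ℝ) (R s : ℝ) (hf : Continuous f)
    (hsp : Sp n f R) : CC n (fun y => f fun a => y a - s) := by
  refine (hCc n (fun y => f fun a => y a - s)).2 (R + |s|) ?_ ?_
  · exact hf.comp (continuous_pi fun a => (continuous_apply a).sub continuous_const)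
  · intro y hy a
    have h2 := hsp _ hy a
    have h3 : |y a| ≤ |y a - s| + |s| := by
      have := abs_add_le (y a - s) s
      simpa using this
    linarith

theorem int_cells (G : ℝ → ℝ) (hG : Continuous G) (a h : ℝ) (M : ℕ) :
    ∫ u in a..(a + h * M), G u = ∫ s in (0 : ℝ)..h, ∑ j ∈ range M, G (a + h * j + s) := by
  have hc : ∀ j : ℕ, Continuous fun s : ℝ => G (a + h * j + s) := fun j =>
    hG.comp (continuous_const.add continuous_id)
  rw [intervalIntegral.integral_finsetSum fun j _ => (hc j).intervalIntegrable _ _]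
  have h3 := intervalIntegral.sum_integral_adjacent_intervals (f := G) (μ := volume)
    (a := fun j : ℕ => a + h * (j : ℝ)) (n := M) (fun k _ => hG.intervalIntegrable _ _)
  have h4 : ∫ u in a..(a + h * M), G u = ∫ u in (a + h * ((0 : ℕ) : ℝ))..(a + h * (M : ℝ)), G u := by
    simp
  rw [h4, ← h3]
  refine Finset.sum_congr rfl fun j _ => ?_
  rw [intervalIntegral.integral_comp_add_left (fun u => G u) (a + h * j)]
  congr 1
  · ring
  · push_cast
    ring

/-- along the integers -/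
theorem nat_lim (G : ℝ → ℝ) (hG : Continuous G) (a h μ ν B : ℝ) (Ψ : ℕ → ℝ) (hh : 0 < h)
    (hB : 0 ≤ B)
    (hpt : ∀ s : ℝ, 0 ≤ s → s ≤ h →
      Tendsto (fun M : ℕ => (M : ℝ)⁻¹ * ∑ j ∈ range M, G (a + h * j + s)) atTop (𝓝 μ))
    (hΨ : Tendsto Ψ atTop (𝓝 ν))
    (hb : ∀ (M : ℕ) (s : ℝ), 0 ≤ s → s ≤ h →
      |(M : ℝ)⁻¹ * ∑ j ∈ range M, G (a + h * j + s)| ≤ B * Ψ M) :
    Tendsto (fun M : ℕ => (M : ℝ)⁻¹ * ∫ u in a..(a + h * M), G u) atTop (𝓝 (h * μ)) := by
  have h1 : Tendsto (fun M : ℕ => ∫ s in (0 : ℝ)..h,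
      (M : ℝ)⁻¹ * ∑ j ∈ range M, G (a + h * j + s)) atTop (𝓝 (∫ _s in (0 : ℝ)..h, μ)) := by
    refine intervalIntegral.tendsto_integral_filter_of_dominated_convergence
      (fun _ => B * (ν + 1)) ?_ ?_ ?_ ?_
    · refine Filter.Eventually.of_forall fun M => ?_
      refine Continuous.aestronglyMeasurable ?_
      refine continuous_const.mul (continuous_finsetSum _ fun j _ => ?_)
      exact hG.comp (continuous_const.add continuous_id)
    · filter_upwards [hΨ.eventually_lt_const (lt_add_one ν)] with M hM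
      refine Filter.Eventually.of_forall fun s hs => ?_
      rw [Set.uIoc_of_le hh.le] at hs
      rw [Real.norm_eq_abs]
      exact (hb M s hs.1.le hs.2).trans (mul_le_mul_of_nonneg_left hM.le hB)
    · exact continuous_const.intervalIntegrable _ _
    · refine Filter.Eventually.of_forall fun s hs => ?_
      rw [Set.uIoc_of_le hh.le] at hs
      exact hpt s hs.1.le hs.2
  rw [intervalIntegral.integral_const, sub_zero, smul_eq_mul] at h1
  refine h1.congr fun M => ?_
  rw [int_cells G hG a h M, intervalIntegral.integral_const_mul]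

theorem floor_lim (a h : ℝ) (hh : 0 < h) :
    Tendsto (fun U : ℝ => (⌊h⁻¹ * (U - a)⌋₊ : ℝ) / U) atTop (𝓝 h⁻¹) := by
  have hU : Tendsto (fun U : ℝ => U - a) atTop atTop := tendsto_atTop_add_const_right _ (-a)
    tendsto_id
  have h1 := (tendsto_nat_floor_mul_div_atTop (R := ℝ) (inv_pos.2 hh).le).comp hU
  have h2 : Tendsto (fun U : ℝ => (U - a) / U) atTop (𝓝 1) := by
    have h3 : Tendsto (fun U : ℝ => 1 - a / U) atTop (𝓝 (1 - 0)) :=
      tendsto_const_nhds.sub (tendsto_const_nhds.div_atTop tendsto_id)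
    rw [sub_zero] at h3
    refine h3.congr' ?_
    filter_upwards [eventually_gt_atTop 0] with U hU
    field_simp
  have h3 := h1.mul h2
  rw [mul_one] at h3
  refine h3.congr' ?_
  filter_upwards [eventually_gt_atTop a, eventually_gt_atTop 0] with U hU1 hU2
  have : U - a ≠ 0 := (sub_pos.2 hU1).ne'
  simp only [Function.comp_def]
  field_simp

end IE1

open IE1 in
theorem prE1 (hA5 : StA5) (hA7 : StA7) (hCc : StCc) (hCb : StCb) (hRc : StRc) : StE1 := by
  intro ι x hx a h ha hh hS n f hf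
  obtain ⟨R, B, hR, hB, hsp, hfB⟩ := (hCc n f).1 hf
  have hG : Continuous (W x n f) := hA5 x hx n f R hsp hf.1
  set μ := ∫ y : Fin n → ℝ, f y * rho n y with hμ
  obtain ⟨c1, c2, c3⟩ := hCb n (R + h) (by linarith)
  set F := cube n (R + h) with hF
  have hFC : CC n F := (hCc n F).2 (R + h + 1) c1 c2
  set ν := ∫ y : Fin n → ℝ, F y * rho n y with hν
  set Ψ : ℕ → ℝ := fun M => (M : ℝ)⁻¹ * ∑ j ∈ range M, W x n F (a + h * j) with hΨd
  have hΨ : Tendsto Ψ atTop (𝓝 ν) := hS n F hFC
  have hbd : ∀ v s : ℝ, 0 ≤ s → s ≤ h → |W x n f (v + s)| ≤ B * W x n F v := fun v s h0 h1 =>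
    bound hA7 hCb x hx n f R B h hR hB hsp hfB hh.le v s h0 h1
  have hpt : ∀ s : ℝ, 0 ≤ s → s ≤ h →
      Tendsto (fun M : ℕ => (M : ℝ)⁻¹ * ∑ j ∈ range M, W x n f (a + h * j + s)) atTop (𝓝 μ) := by
    intro s _ _
    have h1 := hS n (fun y => f fun a => y a - s) (shift_CC n hCc f R s hf.1 hsp)
    rw [shift_integral hRc n f s] at h1
    refine h1.congr fun M => ?_
    congr 1
    exact Finset.sum_congr rfl fun j _ => ((hA7 x hx n f f R (a + h * j) hsp hsp).2.1 s).symm
  have hb : ∀ (M : ℕ) (s : ℝ), 0 ≤ s → s ≤ h →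
      |(M : ℝ)⁻¹ * ∑ j ∈ range M, W x n f (a + h * j + s)| ≤ B * Ψ M := by
    intro M s h0 h1
    have hM0 : (0 : ℝ) ≤ (M : ℝ)⁻¹ := by positivity
    rw [abs_mul, abs_of_nonneg hM0]
    have h2 : |∑ j ∈ range M, W x n f (a + h * j + s)| ≤
        B * ∑ j ∈ range M, W x n F (a + h * j) := by
      refine (Finset.abs_sum_le_sum_abs _ _).trans ?_
      rw [Finset.mul_sum]
      exact Finset.sum_le_sum fun j _ => hbd _ s h0 h1
    calc (M : ℝ)⁻¹ * |∑ j ∈ range M, W x n f (a + h * j + s)| ≤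
          (M : ℝ)⁻¹ * (B * ∑ j ∈ range M, W x n F (a + h * j)) :=
          mul_le_mul_of_nonneg_left h2 hM0
      _ = B * Ψ M := by rw [hΨd]; ring
  have key1 := nat_lim (W x n f) hG a h μ ν B Ψ hh hB hpt hΨ hb
  have key2 : Tendsto (fun M : ℕ => (M : ℝ)⁻¹ * W x n F (a + h * M)) atTop (𝓝 0) := by
    have h1 : Tendsto (fun M : ℕ => ((M : ℝ) + 1) / M * Ψ (M + 1) - Ψ M) atTop
        (𝓝 (1 * ν - ν)) := by
      refine Tendsto.sub (Tendsto.mul ?_ (hΨ.comp (tendsto_add_atTop_nat 1))) hΨ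
      have h2 : Tendsto (fun M : ℕ => 1 + 1 / (M : ℝ)) atTop (𝓝 (1 + 0)) :=
        tendsto_const_nhds.add tendsto_one_div_atTop_nhds_zero_nat
      rw [add_zero] at h2
      refine h2.congr' ?_
      filter_upwards [eventually_ge_atTop 1] with M hM
      have : (M : ℝ) ≠ 0 := by
        have : (1 : ℝ) ≤ M := by exact_mod_cast hM
        linarith
      field_simp
    rw [one_mul, sub_self] at h1
    refine h1.congr' ?_
    filter_upwards [eventually_ge_atTop 1] with M hM
    have hM1 : (1 : ℝ) ≤ M := by exact_mod_cast hM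
    have h2 : (M : ℝ) ≠ 0 := by linarith
    have h3 : (M : ℝ) + 1 ≠ 0 := by linarith
    simp only [hΨd]
    rw [Finset.sum_range_succ]
    push_cast
    field_simp
    ring
  have hU : Tendsto (fun U : ℝ => ⌊h⁻¹ * (U - a)⌋₊) atTop atTop := by
    refine tendsto_nat_floor_atTop.comp ?_
    refine Tendsto.const_mul_atTop (inv_pos.2 hh) ?_
    exact tendsto_atTop_add_const_right _ (-a) tendsto_id
  have k1 := key1.comp hU
  have k2 := (key2.comp hU).const_mul (h * B)
  have k3 : Tendsto (fun U : ℝ => (⌊h⁻¹ * (U - a)⌋₊ : ℝ)⁻¹ *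
      ∫ u in (0 : ℝ)..a, W x n f u) atTop (𝓝 (0 * ∫ u in (0 : ℝ)..a, W x n f u)) := by
    refine Tendsto.mul_const _ ?_
    exact (tendsto_inv_atTop_zero.comp tendsto_natCast_atTop_atTop).comp hU
  have k4 : Tendsto (fun U : ℝ => (⌊h⁻¹ * (U - a)⌋₊ : ℝ)⁻¹ *
      ∫ u in (a + h * (⌊h⁻¹ * (U - a)⌋₊ : ℝ))..U, W x n f u) atTop (𝓝 0) := by
    rw [mul_zero] at k2
    refine squeeze_zero_norm' ?_ k2
    filter_upwards [eventually_ge_atTop a] with U hUa
    set φ := ⌊h⁻¹ * (U - a)⌋₊ with hφ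
    have g1 : (φ : ℝ) ≤ h⁻¹ * (U - a) :=
      Nat.floor_le (mul_nonneg (inv_pos.2 hh).le (by linarith))
    have g2 : h⁻¹ * (U - a) < φ + 1 := Nat.lt_floor_add_one _
    have g3 : h * φ ≤ U - a := by
      have := mul_le_mul_of_nonneg_left g1 hh.le
      rwa [mul_inv_cancel_left₀ hh.ne'] at this
    have g4 : U - a < h * φ + h := by
      have := mul_lt_mul_of_pos_left g2 hh
      rw [mul_inv_cancel_left₀ hh.ne'] at this
      linarith
    have g5 : ‖∫ u in (a + h * (φ : ℝ))..U, W x n f u‖ ≤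
        B * W x n F (a + h * φ) * |U - (a + h * φ)| := by
      refine intervalIntegral.norm_integral_le_of_norm_le_const fun u hu => ?_
      rw [Set.uIoc_of_le (by linarith)] at hu
      rw [Real.norm_eq_abs]
      have := hbd (a + h * φ) (u - (a + h * φ)) (by linarith [hu.1]) (by linarith [hu.2])
      rwa [add_sub_cancel] at this
    have g6 : 0 ≤ W x n F (a + h * φ) :=
      (hA7 x hx n F F (R + h + 1) (a + h * φ) c2 c2).2.2.2 fun y => (c3 y).1
    have g7 : |U - (a + h * φ)| ≤ h := by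
      rw [abs_of_nonneg (by linarith)]
      linarith
    rw [norm_mul, Real.norm_eq_abs, abs_of_nonneg (by positivity : (0 : ℝ) ≤ (φ : ℝ)⁻¹)]
    simp only [Function.comp_def]
    calc (φ : ℝ)⁻¹ * ‖∫ u in (a + h * (φ : ℝ))..U, W x n f u‖ ≤
          (φ : ℝ)⁻¹ * (B * W x n F (a + h * φ) * h) :=
          mul_le_mul_of_nonneg_left (g5.trans (mul_le_mul_of_nonneg_left g7
            (mul_nonneg hB g6))) (by positivity)
      _ = h * B * ((φ : ℝ)⁻¹ * W x n F (a + h * φ)) := by ring
  have k5 := (floor_lim a h hh).mul ((k1.add k3).add k4)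
  rw [zero_mul, add_zero, add_zero, inv_mul_cancel_left₀ hh.ne'] at k5
  refine k5.congr' ?_
  filter_upwards [hU.eventually (eventually_ge_atTop 1), eventually_gt_atTop 0] with U hφ hU0
  simp only [Function.comp_def]
  set φ := ⌊h⁻¹ * (U - a)⌋₊ with hφd
  have hφ1 : (1 : ℝ) ≤ φ := by exact_mod_cast hφ
  have hφ0 : (φ : ℝ) ≠ 0 := by linarith
  have e1 : ∫ u in (0 : ℝ)..U, W x n f u = (∫ u in (0 : ℝ)..a, W x n f u) +
      (∫ u in a..(a + h * φ), W x n f u) + ∫ u in (a + h * (φ : ℝ))..U, W x n f u := by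
    rw [intervalIntegral.integral_add_adjacent_intervals (hG.intervalIntegrable _ _)
      (hG.intervalIntegrable _ _), intervalIntegral.integral_add_adjacent_intervals
      (hG.intervalIntegrable _ _) (hG.intervalIntegrable _ _)]
  rw [e1]
  field_simp
  ring

end Pool.Agent.Work.MP_7eec5e_nt.GG
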