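import Pool.Agent.Work.MP_7eec5e_nt.GG.Stmts

/-!
# MP_7eec5e_nt, block GG, items F0, F1: continuous approximation of the unit cube
-/

set_option autoImplicit false

namespace Pool.Agent.Work.MP_7eec5e_nt.GG

open MeasureTheory Filter Topology Finset

namespace IF0

/-- the lower function -/
noncomputable def lo (η t : ℝ) : ℝ := max 0 (min 1 (min (t / η) ((1 - t) / η)))

/-- the upper function -/
noncomputable def hi (η t : ℝ) : ℝ := max 0 (min 1 (min ((t + η) / η) ((1 + η - t) / η)))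

theorem lo_cont (η : ℝ) : Continuous (lo η) := by
  unfold lo
  fun_prop

theorem hi_cont (η : ℝ) : Continuous (hi η) := by
  unfold hi
  fun_prop

theorem lo_nonneg (η t : ℝ) : 0 ≤ lo η t := le_max_left _ _

theorem hi_nonneg (η t : ℝ) : 0 ≤ hi η t := le_max_left _ _

theorem lo_le (η t : ℝ) : lo η t ≤ 1 := max_le zero_le_one (min_le_left _ _)

theorem hi_le (η t : ℝ) : hi η t ≤ 1 := max_le zero_le_one (min_le_left _ _)

theorem lo_zero (η t : ℝ) (hη : 0 < η) (h : ¬ (0 ≤ t ∧ t < 1)) : lo η t = 0 := by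
  unfold lo
  rw [max_eq_left]
  refine (min_le_right _ _).trans ?_
  by_cases h0 : 0 ≤ t
  · have h1 : 1 ≤ t := by
      by_contra h2
      exact h ⟨h0, not_le.1 h2⟩
    exact (min_le_right _ _).trans (div_nonpos_of_nonpos_of_nonneg (by linarith) hη.le)
  · exact (min_le_left _ _).trans (div_nonpos_of_nonpos_of_nonneg (by linarith) hη.le)

theorem hi_zero (η t : ℝ) (hη : 0 < η) (h : ¬ (-η ≤ t ∧ t ≤ 1 + η)) : hi η t = 0 := by
  unfold hi
  rw [max_eq_left]
  refine (min_le_right _ _).trans ?_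
  by_cases h0 : -η ≤ t
  · have h1 : 1 + η < t := by
      by_contra h2
      exact h ⟨h0, not_lt.1 h2⟩
    exact (min_le_right _ _).trans (div_nonpos_of_nonpos_of_nonneg (by linarith) hη.le)
  · exact (min_le_left _ _).trans (div_nonpos_of_nonpos_of_nonneg (by linarith) hη.le)

theorem lo_one (η t : ℝ) (hη : 0 < η) (h : η ≤ t ∧ t ≤ 1 - η) : lo η t = 1 := by
  unfold lo
  rw [min_eq_left, max_eq_right zero_le_one]
  refine le_min ?_ ?_
  · rw [le_div_iff₀ hη]
    linarith [h.1]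
  · rw [le_div_iff₀ hη]
    linarith [h.2]

theorem hi_one (η t : ℝ) (hη : 0 < η) (h : 0 ≤ t ∧ t ≤ 1) : hi η t = 1 := by
  unfold hi
  rw [min_eq_left, max_eq_right zero_le_one]
  refine le_min ?_ ?_
  · rw [le_div_iff₀ hη]
    linarith [h.1]
  · rw [le_div_iff₀ hη]
    linarith [h.2]

theorem cs (F : ℝ → ℝ) (hF : Continuous F) (a b : ℝ) (h : ∀ t, ¬ (a ≤ t ∧ t ≤ b) → F t = 0) :
    Integrable F := by
  refine hF.integrable_of_hasCompactSupport ?_
  refine HasCompactSupport.intro (K := Set.Icc a b) isCompact_Icc fun t ht => h t ht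

theorem lo_int (η : ℝ) (hη : 0 < η) (hη2 : 2 * η ≤ 1) : 1 - 2 * η ≤ ∫ t, lo η t := by
  have h1 : Integrable (lo η) := cs _ (lo_cont η) 0 1 fun t ht =>
    lo_zero η t hη fun h => ht ⟨h.1, h.2.le⟩
  have h2 : ∫ t in Set.Icc η (1 - η), lo η t = 1 - 2 * η := by
    have h3 : ∫ t in Set.Icc η (1 - η), lo η t = ∫ _t in Set.Icc η (1 - η), (1 : ℝ) :=
      setIntegral_congr_fun measurableSet_Icc fun t ht => lo_one η t hη ht
    rw [h3, setIntegral_const, smul_eq_mul, mul_one, Measure.real, Real.volume_Icc,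
      ENNReal.toReal_ofReal (by linarith)]
    ring
  rw [← h2]
  exact setIntegral_le_integral h1 (Eventually.of_forall fun t => lo_nonneg η t)

theorem hi_int (η : ℝ) (hη : 0 < η) : ∫ t, hi η t ≤ 1 + 2 * η := by
  have h1 : ∫ t in Set.Icc (-η) (1 + η), hi η t = ∫ t, hi η t :=
    setIntegral_eq_integral_of_forall_compl_eq_zero fun t ht => hi_zero η t hη ht
  have h2 := norm_setIntegral_le_of_norm_le_const (μ := volume) (s := Set.Icc (-η) (1 + η))
    (f := hi η) (C := 1) (by rw [Real.volume_Icc]; exact ENNReal.ofReal_lt_top) fun t _ => by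
      rw [Real.norm_eq_abs, abs_of_nonneg (hi_nonneg η t)]
      exact hi_le η t
  rw [h1, Measure.real, Real.volume_Icc, ENNReal.toReal_ofReal (by linarith), one_mul,
    Real.norm_eq_abs] at h2
  exact (le_abs_self _).trans (h2.trans (by linarith))

/-- products -/
theorem prodCC (m : ℕ) (F : ℝ → ℝ) (hF : Continuous F) (a b : ℝ)
    (h : ∀ t, ¬ (a ≤ t ∧ t ≤ b) → F t = 0) : CC m fun y : Fin m → ℝ => ∏ i, F (y i) := by
  refine ⟨by fun_prop, ?_⟩
  refine HasCompactSupport.intro (K := Set.pi Set.univ fun _ : Fin m => Set.Icc a b)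
    (isCompact_univ_pi fun _ => isCompact_Icc) fun y hy => ?_
  rw [Set.mem_univ_pi, not_forall] at hy
  obtain ⟨i, hi⟩ := hy
  exact Finset.prod_eq_zero (Finset.mem_univ i) (h _ hi)

theorem exists_eta (m : ℕ) (δ : ℝ) (hδ : 0 < δ) : ∃ η : ℝ, 0 < η ∧ 2 * η ≤ 1 ∧
    (1 + 2 * η) ^ m ≤ 1 + δ ∧ 1 - δ ≤ (1 - 2 * η) ^ m := by
  have h1 : Tendsto (fun η : ℝ => (1 + 2 * η) ^ m) (𝓝[>] 0) (𝓝 ((1 + 2 * 0) ^ m)) :=
    ((by fun_prop : Continuous fun η : ℝ => (1 + 2 * η) ^ m).tendsto 0).mono_left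
      nhdsWithin_le_nhds
  have h2 : Tendsto (fun η : ℝ => (1 - 2 * η) ^ m) (𝓝[>] 0) (𝓝 ((1 - 2 * 0) ^ m)) :=
    ((by fun_prop : Continuous fun η : ℝ => (1 - 2 * η) ^ m).tendsto 0).mono_left
      nhdsWithin_le_nhds
  rw [mul_zero, add_zero, one_pow] at h1
  rw [mul_zero, sub_zero, one_pow] at h2
  have h3 := h1.eventually (gt_mem_nhds (show (1 : ℝ) < 1 + δ by linarith))
  have h4 := h2.eventually (lt_mem_nhds (show 1 - δ < (1 : ℝ) by linarith))
  have h5 : ∀ᶠ η : ℝ in 𝓝[>] 0, η < 1 / 2 :=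
    mem_nhdsWithin_of_mem_nhds (gt_mem_nhds (by norm_num))
  obtain ⟨η, ⟨⟨h6, h7⟩, h8⟩, h9⟩ := (((h3.and h4).and h5).and self_mem_nhdsWithin).exists
  exact ⟨η, h9, by linarith, h6.le, h7.le⟩

end IF0

open IF0 in
theorem prF0 (hRc : StRc) (hPs : StPs) : StF0 := by
  intro m δ hδ
  obtain ⟨η, hη, hη2, h1, h2⟩ := exists_eta m δ hδ
  have hset : {y : Fin m → ℝ | ∀ a, 0 ≤ y a ∧ y a < 1} =
      Set.pi Set.univ fun _ : Fin m => Set.Ico (0 : ℝ) 1 := by
    ext y
    simp [Set.mem_pi, Set.mem_Ico]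
  have hvol : volume {y : Fin m → ℝ | ∀ a, 0 ≤ y a ∧ y a < 1} = 1 := by
    rw [hset, volume_pi_pi]
    simp
  have hms : MeasurableSet {y : Fin m → ℝ | ∀ a, 0 ≤ y a ∧ y a < 1} := by
    rw [hset]
    exact MeasurableSet.univ_pi fun _ => measurableSet_Ico
  obtain ⟨Q, hQ⟩ : ∃ Q : Set (Fin m → ℝ), Q = {y : Fin m → ℝ | ∀ a, 0 ≤ y a ∧ y a < 1} :=
    ⟨_, rfl⟩
  rw [← hQ] at hvol hms
  have hfac : (m.factorial : ℝ) * dm m = ∫ y in Q, rho m y := by
    unfold dm
    rw [hQ, ← mul_assoc, mul_inv_cancel₀ (by positivity), one_mul]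
  obtain ⟨f, hf⟩ : ∃ f : (Fin m → ℝ) → ℝ, f = fun y => ∏ a, lo η (y a) := ⟨_, rfl⟩
  obtain ⟨g, hg⟩ : ∃ g : (Fin m → ℝ) → ℝ, g = fun y => ∏ a, hi η (y a) := ⟨_, rfl⟩
  have hfc : CC m f := by
    rw [hf]
    exact prodCC m _ (lo_cont η) 0 1 fun t ht => lo_zero η t hη fun h => ht ⟨h.1, h.2.le⟩
  have hgc : CC m g := by
    rw [hg]
    exact prodCC m _ (hi_cont η) (-η) (1 + η) fun t ht => hi_zero η t hη ht
  have hf0 : ∀ y, 0 ≤ f y := fun y => by
    rw [hf]
    exact Finset.prod_nonneg fun a _ => lo_nonneg _ _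
  have hg0 : ∀ y, 0 ≤ g y := fun y => by
    rw [hg]
    exact Finset.prod_nonneg fun a _ => hi_nonneg _ _
  have hf1 : ∀ y, f y ≤ 1 := fun y => by
    rw [hf]
    exact Finset.prod_le_one (fun a _ => lo_nonneg _ _) fun a _ => lo_le _ _
  have hfz : ∀ y, ¬ (∀ a, 0 ≤ y a ∧ y a < 1) → f y = 0 := fun y hy => by
    rw [not_forall] at hy
    obtain ⟨a, ha⟩ := hy
    rw [hf]
    exact Finset.prod_eq_zero (Finset.mem_univ a) (lo_zero η _ hη ha)
  have hg1 : ∀ y, (∀ a, 0 ≤ y a ∧ y a < 1) → g y = 1 := fun y hy => by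
    rw [hg]
    exact Finset.prod_eq_one fun a _ => hi_one η _ hη ⟨(hy a).1, (hy a).2.le⟩
  have hfi : ∫ y, f y = (∫ t, lo η t) ^ m := by
    rw [hf, integral_fintype_prod_volume_eq_prod (fun (_ : Fin m) => lo η), Finset.prod_const,
      Finset.card_univ, Fintype.card_fin]
  have hgi : ∫ y, g y = (∫ t, hi η t) ^ m := by
    rw [hg, integral_fintype_prod_volume_eq_prod (fun (_ : Fin m) => hi η), Finset.prod_const,
      Finset.card_univ, Fintype.card_fin]
  have hIf : Integrable f := hfc.1.integrable_of_hasCompactSupport hfc.2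
  have hIg : Integrable g := hgc.1.integrable_of_hasCompactSupport hgc.2
  have hrc := (hRc m).1
  have hIfr : Integrable fun y => f y * rho m y :=
    (hfc.1.mul hrc).integrable_of_hasCompactSupport hfc.2.mul_right
  have hIgr : Integrable fun y => g y * rho m y :=
    (hgc.1.mul hrc).integrable_of_hasCompactSupport hgc.2.mul_right
  have hIQ : Integrable (Q.indicator fun _ => (1 : ℝ)) := by
    rw [integrable_indicator_iff hms]
    exact integrableOn_const (by rw [hvol]; exact ENNReal.one_ne_top)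
  have hIQr : Integrable (Q.indicator fun y => rho m y) := by
    refine hIQ.mono' ?_ (Eventually.of_forall fun y => ?_)
    · exact (hrc.stronglyMeasurable.indicator hms).aestronglyMeasurable
    · by_cases hy : y ∈ Q
      · rw [Set.indicator_of_mem hy, Set.indicator_of_mem hy, Real.norm_eq_abs,
          abs_of_nonneg (hPs m y).1]
        exact (hPs m y).2
      · rw [Set.indicator_of_notMem hy, Set.indicator_of_notMem hy, norm_zero]
  have hQ1 : ∫ y, Q.indicator (fun _ => (1 : ℝ)) y = 1 := by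
    rw [integral_indicator hms, setIntegral_const, Measure.real, hvol, ENNReal.toReal_one, one_smul]
  have hQr : ∫ y, Q.indicator (fun y => rho m y) y = ∫ y in Q, rho m y := integral_indicator hms
  refine ⟨f, g, hfc, hgc, hf0, fun y hy => ⟨hf1 y, (hg1 y hy).ge⟩, hg0, hfz, ?_, ?_⟩
  · rw [hfac, ← hQr]
    have h3 : ∫ y, (Q.indicator (fun y => rho m y) y - f y * rho m y) ≤
        ∫ y, (Q.indicator (fun _ => (1 : ℝ)) y - f y) := by
      refine integral_mono (hIQr.sub hIfr) (hIQ.sub hIf) fun y => ?_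
      show Q.indicator (fun y => rho m y) y - f y * rho m y ≤ Q.indicator (fun _ => (1 : ℝ)) y - f y
      by_cases hy : y ∈ Q
      · rw [Set.indicator_of_mem hy, Set.indicator_of_mem hy]
        have h4 := hf1 y
        have h5 := (hPs m y).2
        nlinarith
      · rw [Set.indicator_of_notMem hy, Set.indicator_of_notMem hy]
        have h4 : f y = 0 := hfz y fun h => hy (by rw [hQ]; exact h)
        rw [h4]
        simp
    rw [integral_sub hIQr hIfr, integral_sub hIQ hIf, hQ1, hfi] at h3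
    have h4 : (1 - 2 * η) ^ m ≤ (∫ t, lo η t) ^ m :=
      pow_le_pow_left₀ (by linarith) (lo_int η hη hη2) m
    linarith
  · rw [hfac, ← hQr]
    have h3 : ∫ y, (g y * rho m y - Q.indicator (fun y => rho m y) y) ≤
        ∫ y, (g y - Q.indicator (fun _ => (1 : ℝ)) y) := by
      refine integral_mono (hIgr.sub hIQr) (hIg.sub hIQ) fun y => ?_
      show g y * rho m y - Q.indicator (fun y => rho m y) y ≤ g y - Q.indicator (fun _ => (1 : ℝ)) y
      by_cases hy : y ∈ Q
      · rw [Set.indicator_of_mem hy, Set.indicator_of_mem hy]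
        have h4 : g y = 1 := hg1 y (by rw [hQ] at hy; exact hy)
        rw [h4]
        linarith
      · rw [Set.indicator_of_notMem hy, Set.indicator_of_notMem hy]
        have h4 := hg0 y
        have h5 := (hPs m y).2
        nlinarith
    rw [integral_sub hIgr hIQr, integral_sub hIg hIQ, hQ1, hgi] at h3
    have h4 : (∫ t, hi η t) ^ m ≤ (1 + 2 * η) ^ m :=
      pow_le_pow_left₀ (integral_nonneg fun t => hi_nonneg η t) (hi_int η hη) m
    linarith

open Classical in
theorem prF1 (hA7 : StA7) (hA8 : StA8) (hCc : StCc) (hF0 : StF0) : StF1 := by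
  intro ι x hx hS m
  have hS' : ∀ f, CC m f → Tendsto (fun M : ℕ => (M : ℝ)⁻¹ * ∑ j ∈ range M, W x m f (j : ℝ)) atTop
      (𝓝 (∫ y : Fin m → ℝ, f y * rho m y)) := by
    intro f hf
    have h1 := hS m f hf
    simpa only [zero_add, one_mul] using h1
  have hSi : ∀ R : ℝ, 1 ≤ R →
      Sp m (fun y : Fin m → ℝ => if ∀ a, 0 ≤ y a ∧ y a < 1 then (1 : ℝ) else 0) R := by
    intro R hR y hy a
    have h1 : ∀ a, 0 ≤ y a ∧ y a < 1 := by
      by_contra h
      exact hy (if_neg h)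
    rw [abs_of_nonneg (h1 a).1]
    exact (h1 a).2.le.trans hR
  have key : Tendsto (fun M : ℕ => (M : ℝ)⁻¹ * ∑ j ∈ range M,
      ({i | (j : ℝ) ≤ x i ∧ x i < j + 1}.ncard.descFactorial m : ℝ)) atTop
      (𝓝 ((m.factorial : ℝ) * dm m)) := by
    refine tendsto_order.2 ⟨fun a ha => ?_, fun a ha => ?_⟩
    · obtain ⟨f, g, hf, hg, f0, fg, g0, fz, h1, h2⟩ :=
        hF0 m (((m.factorial : ℝ) * dm m - a) / 2) (by linarith)
      obtain ⟨R, B, hR, -, hSf, -⟩ := (hCc m f).1 hf
      have h3 : a < ∫ y, f y * rho m y := by linarith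
      filter_upwards [(hS' f hf).eventually (lt_mem_nhds h3)] with M hM
      refine hM.trans_le ?_
      refine mul_le_mul_of_nonneg_left (Finset.sum_le_sum fun j _ => ?_) (by positivity)
      rw [← hA8 x hx m (j : ℝ)]
      refine (hA7 x hx m f _ (max R 1) (j : ℝ) (fun y hy a => (hSf y hy a).trans (le_max_left _ _))
        (hSi _ (le_max_right _ _))).2.2.1 fun y => ?_
      by_cases h4 : ∀ a, 0 ≤ y a ∧ y a < 1
      · rw [if_pos h4]
        exact (fg y h4).1
      · rw [if_neg h4]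
        exact (fz y h4).le
    · obtain ⟨f, g, hf, hg, f0, fg, g0, fz, h1, h2⟩ :=
        hF0 m ((a - (m.factorial : ℝ) * dm m) / 2) (by linarith)
      obtain ⟨R, B, hR, -, hSg, -⟩ := (hCc m g).1 hg
      have h3 : ∫ y, g y * rho m y < a := by linarith
      filter_upwards [(hS' g hg).eventually (gt_mem_nhds h3)] with M hM
      refine lt_of_le_of_lt ?_ hM
      refine mul_le_mul_of_nonneg_left (Finset.sum_le_sum fun j _ => ?_) (by positivity)
      rw [← hA8 x hx m (j : ℝ)]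
      refine (hA7 x hx m _ g (max R 1) (j : ℝ) (hSi _ (le_max_right _ _))
        (fun y hy a => (hSg y hy a).trans (le_max_left _ _))).2.2.1 fun y => ?_
      by_cases h4 : ∀ a, 0 ≤ y a ∧ y a < 1
      · rw [if_pos h4]
        exact (fg y h4).2
      · rw [if_neg h4]
        exact g0 y
  have h1 := key.const_mul ((m.factorial : ℝ)⁻¹)
  rw [← mul_assoc, inv_mul_cancel₀ (by positivity), one_mul] at h1
  refine h1.congr fun M => ?_
  rw [← mul_assoc, mul_comm ((m.factorial : ℝ)⁻¹), mul_assoc, Finset.mul_sum]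
  congr 1
  refine Finset.sum_congr rfl fun j _ => ?_
  rw [Nat.descFactorial_eq_factorial_mul_choose, Nat.cast_mul, ← mul_assoc,
    inv_mul_cancel₀ (by positivity), one_mul]

end Pool.Agent.Work.MP_7eec5e_nt.GG
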