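import Pool.Agent.Work.MP_7eec5e_nt.GG.Stmts

/-!
# MP_7eec5e_nt, block GG, item F3: proportions from factorial moments
-/

set_option autoImplicit false

namespace Pool.Agent.Work.MP_7eec5e_nt.GG

open MeasureTheory Filter Topology Finset

namespace IF3

/-- the terms of the series -/
noncomputable def c (k r : ℕ) : ℝ := (-1 : ℝ) ^ r * ((k + r).choose k : ℝ)

theorem abs_c (k r : ℕ) : |c k r| = ((k + r).choose k : ℝ) := by
  rw [c, abs_mul, abs_pow, abs_neg, abs_one, one_pow, one_mul, Nat.abs_cast]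

theorem le_fact (hF2 : StF2) (k r : ℕ) :
    ((k + r).choose k : ℝ) * dm (k + r) ≤ 1 ^ r / (r.factorial : ℝ) := by
  have h1 : (k + r).choose k * k.factorial * r.factorial = (k + r).factorial := by
    have := Nat.choose_mul_factorial_mul_factorial (Nat.le_add_right k r)
    rwa [Nat.add_sub_cancel_left] at this
  have h2 : ((k + r).choose k : ℝ) * (k.factorial : ℝ) * (r.factorial : ℝ) =
      ((k + r).factorial : ℝ) := by exact_mod_cast h1
  have hk : (1 : ℝ) ≤ (k.factorial : ℝ) := by exact_mod_cast Nat.factorial_pos k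
  have hr : (0 : ℝ) < (r.factorial : ℝ) := by exact_mod_cast Nat.factorial_pos r
  have hkr : (0 : ℝ) < ((k + r).factorial : ℝ) := by exact_mod_cast Nat.factorial_pos (k + r)
  have hc : (0 : ℝ) ≤ ((k + r).choose k : ℝ) := Nat.cast_nonneg _
  refine (mul_le_mul_of_nonneg_left (hF2 (k + r)).2 hc).trans ?_
  rw [one_pow, ← div_eq_mul_inv, div_le_div_iff₀ hkr hr, one_mul, ← h2]
  nlinarith [mul_nonneg hc hr.le]

theorem summ (hF2 : StF2) (k : ℕ) : Summable fun r : ℕ => c k r * dm (k + r) := by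
  refine Summable.of_norm_bounded (Real.summable_pow_div_factorial 1) fun r => ?_
  rw [Real.norm_eq_abs, abs_mul, abs_c, abs_of_nonneg (hF2 (k + r)).1]
  exact le_fact hF2 k r

theorem key (hBf : StBf) (N : ℕ → ℕ) (k L M : ℕ) :
    |(M : ℝ)⁻¹ * (((range M).filter fun j => N j = k).card : ℝ) -
      ∑ r ∈ range (L + 1), c k r * ((M : ℝ)⁻¹ * ∑ j ∈ range M, ((N j).choose (k + r) : ℝ))| ≤
    ((k + (L + 1)).choose k : ℝ) *
      ((M : ℝ)⁻¹ * ∑ j ∈ range M, ((N j).choose (k + (L + 1)) : ℝ)) := by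
  have hM : (0 : ℝ) ≤ (M : ℝ)⁻¹ := by positivity
  have h1 : (((range M).filter fun j => N j = k).card : ℝ) =
      ∑ j ∈ range M, if N j = k then (1 : ℝ) else 0 := by
    rw [Finset.card_filter]
    push_cast
    rfl
  have h2 : ∑ r ∈ range (L + 1), c k r *
      ((M : ℝ)⁻¹ * ∑ j ∈ range M, ((N j).choose (k + r) : ℝ)) =
      (M : ℝ)⁻¹ * ∑ j ∈ range M, ∑ r ∈ range (L + 1), c k r * ((N j).choose (k + r) : ℝ) := by
    rw [Finset.sum_comm, Finset.mul_sum]
    refine Finset.sum_congr rfl fun r _ => ?_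
    rw [← Finset.mul_sum]
    ring
  rw [h1, h2, ← mul_sub, ← Finset.sum_sub_distrib, abs_mul, abs_of_nonneg hM]
  have h3 : |∑ j ∈ range M, ((if N j = k then (1 : ℝ) else 0) -
      ∑ r ∈ range (L + 1), c k r * ((N j).choose (k + r) : ℝ))| ≤
      ∑ j ∈ range M, ((k + (L + 1)).choose k : ℝ) * ((N j).choose (k + (L + 1)) : ℝ) := by
    refine (Finset.abs_sum_le_sum_abs _ _).trans (Finset.sum_le_sum fun j _ => ?_)
    exact hBf (N j) k L
  rw [← Finset.mul_sum] at h3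
  calc (M : ℝ)⁻¹ * _ ≤ (M : ℝ)⁻¹ * (((k + (L + 1)).choose k : ℝ) *
        ∑ j ∈ range M, ((N j).choose (k + (L + 1)) : ℝ)) := mul_le_mul_of_nonneg_left h3 hM
    _ = _ := by ring

end IF3

open IF3 in
theorem prF3 (hBf : StBf) (hF2 : StF2) : StF3 := by
  intro N hN k
  have hs := summ hF2 k
  have hek : ek k = ∑' r : ℕ, c k r * dm (k + r) := rfl
  have t1 : Tendsto (fun L => ∑ r ∈ range (L + 1), c k r * dm (k + r)) atTop (𝓝 (ek k)) := by
    rw [hek]
    exact hs.hasSum.tendsto_sum_nat.comp (tendsto_add_atTop_nat 1)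
  have t2 : Tendsto (fun L => ((k + (L + 1)).choose k : ℝ) * dm (k + (L + 1))) atTop (𝓝 0) := by
    have h := (hs.norm.tendsto_atTop_zero).comp (tendsto_add_atTop_nat 1)
    refine h.congr fun L => ?_
    show ‖c k (L + 1) * dm (k + (L + 1))‖ = _
    rw [Real.norm_eq_abs, abs_mul, abs_c, abs_of_nonneg (hF2 _).1]
  rw [Metric.tendsto_atTop]
  intro ε hε
  have e1 := t1.eventually (Metric.ball_mem_nhds _ (by positivity : 0 < ε / 4))
  have e2 := t2.eventually (gt_mem_nhds (by positivity : (0 : ℝ) < ε / 4))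
  obtain ⟨L, g1, g2⟩ := (e1.and e2).exists
  have t3 : Tendsto (fun M : ℕ => ∑ r ∈ range (L + 1),
      c k r * ((M : ℝ)⁻¹ * ∑ j ∈ range M, ((N j).choose (k + r) : ℝ))) atTop
      (𝓝 (∑ r ∈ range (L + 1), c k r * dm (k + r))) :=
    tendsto_finsetSum _ fun r _ => (hN (k + r)).const_mul _
  have t4 : Tendsto (fun M : ℕ => ((k + (L + 1)).choose k : ℝ) *
      ((M : ℝ)⁻¹ * ∑ j ∈ range M, ((N j).choose (k + (L + 1)) : ℝ))) atTop
      (𝓝 (((k + (L + 1)).choose k : ℝ) * dm (k + (L + 1)))) := (hN _).const_mul _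
  have e3 := t3.eventually (Metric.ball_mem_nhds _ (by positivity : 0 < ε / 4))
  have e4 := t4.eventually (gt_mem_nhds g2)
  obtain ⟨M₀, h0⟩ := eventually_atTop.1 (e3.and e4)
  refine ⟨M₀, fun M hM => ?_⟩
  obtain ⟨g3, g4⟩ := h0 M hM
  have g5 := key hBf N k L M
  rw [Real.dist_eq] at g1 g3
  rw [Real.dist_eq]
  rw [abs_lt] at g1 g3 ⊢
  rw [abs_le] at g5
  constructor <;> linarith [g1.1, g1.2, g3.1, g3.2, g5.1, g5.2]

end Pool.Agent.Work.MP_7eec5e_nt.GG
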