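import Pool.Agent.Work.MP_7eec5e_nt.GG.Stmts

/-!
# MP_7eec5e_nt, block GG, item Fb: integration along the diagonal
-/

set_option autoImplicit false

namespace Pool.Agent.Work.MP_7eec5e_nt.GG

open MeasureTheory Filter Topology Finset

namespace IFb

/-- the coordinates `(t, y) ↦ (t, y)` of `ℝ^(n+1)` -/
theorem esymm (n : ℕ) (p : ℝ × (Fin n → ℝ)) :
    (MeasurableEquiv.piFinSuccAbove (fun _ : Fin (n + 1) => ℝ) 0).symm p =
      (Fin.cons p.1 p.2 : Fin (n + 1) → ℝ) := by
  show (Fin.insertNth 0 p.1 p.2 : Fin (n + 1) → ℝ) = _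
  exact Fin.insertNth_zero' _ _

/-- a bound for the support -/
theorem supp (n : ℕ) (f : (Fin (n + 1) → ℝ) → ℝ) (hs : HasCompactSupport f) :
    ∃ R : ℝ, ∀ y, (∃ a, R < |y a|) → f y = 0 := by
  obtain ⟨R, hR⟩ := hs.isCompact.isBounded.exists_norm_le
  refine ⟨R, fun y ⟨a, ha⟩ => ?_⟩
  by_contra h
  have h1 := hR y (subset_tsupport f h)
  have h2 : |y a| ≤ ‖y‖ := norm_le_pi_norm y a
  linarith

theorem cont_cons (n : ℕ) :
    Continuous fun p : ℝ × (Fin n → ℝ) =>
      (Fin.cons p.1 fun a => p.2 a + p.1 : Fin (n + 1) → ℝ) := by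
  refine continuous_pi fun i => ?_
  refine Fin.cases ?_ (fun a => ?_) i
  · exact continuous_fst
  · exact ((continuous_apply a).comp continuous_snd).add continuous_fst

theorem cont_cons0 (n : ℕ) :
    Continuous fun p : ℝ × (Fin n → ℝ) => (Fin.cons 0 p.2 : Fin (n + 1) → ℝ) := by
  refine continuous_pi fun i => ?_
  refine Fin.cases ?_ (fun a => ?_) i
  · exact continuous_const
  · exact (continuous_apply a).comp continuous_snd

end IFb

open IFb in
theorem prFb (hRc : StRc) : StFb := by
  intro n f hf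
  obtain ⟨hc, hs⟩ := hf
  have hrho := (hRc (n + 1)).1
  have hrc := (hRc n).2.2
  obtain ⟨F, hF⟩ : ∃ F : (Fin (n + 1) → ℝ) → ℝ, F = fun y => f y * rho (n + 1) y := ⟨_, rfl⟩
  have hFc : Continuous F := by
    rw [hF]
    exact hc.mul hrho
  have hFs : HasCompactSupport F := by
    rw [hF]
    exact hs.mul_right
  have hFi : Integrable F := hFc.integrable_of_hasCompactSupport hFs
  have he := (volume_preserving_piFinSuccAbove (fun _ : Fin (n + 1) => ℝ) 0).symm
  have h1 : ∫ y, F y = ∫ p : ℝ × (Fin n → ℝ), F (Fin.cons p.1 p.2) := by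
    rw [← he.integral_comp' F]
    refine integral_congr_ae (ae_of_all _ fun p => ?_)
    show F _ = F _
    rw [esymm]
  have hei : Integrable (fun p : ℝ × (Fin n → ℝ) => F (Fin.cons p.1 p.2))
      (volume.prod volume) := by
    have h2 := he.integrable_comp_of_integrable hFi
    refine h2.congr (ae_of_all _ fun p => ?_)
    show F _ = F _
    rw [esymm]
  have h3 : ∀ t : ℝ, ∫ y : Fin n → ℝ, F (Fin.cons t y) =
      ∫ y : Fin n → ℝ, f (Fin.cons t fun a => y a + t) * rho (n + 1) (Fin.cons 0 y) := by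
    intro t
    rw [← integral_add_right_eq_self (fun y : Fin n → ℝ => F (Fin.cons t y)) (fun _ => t)]
    refine integral_congr_ae (ae_of_all _ fun y => ?_)
    show F (Fin.cons t fun a => y a + t) = _
    rw [hF]
    show f _ * rho (n + 1) (Fin.cons t fun a => y a + t) = _
    rw [hrc]
  have hG : Integrable (Function.uncurry fun (t : ℝ) (y : Fin n → ℝ) =>
      f (Fin.cons t fun a => y a + t) * rho (n + 1) (Fin.cons 0 y)) (volume.prod volume) := by
    refine Continuous.integrable_of_hasCompactSupport ?_ ?_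
    · exact (hc.comp (cont_cons n)).mul (hrho.comp (cont_cons0 n))
    · obtain ⟨R, hR⟩ := supp n f hs
      refine HasCompactSupport.intro (isCompact_closedBall (0 : ℝ × (Fin n → ℝ)) (2 * |R|))
        fun p hp => ?_
      show f (Fin.cons p.1 fun a => p.2 a + p.1) * rho (n + 1) (Fin.cons 0 p.2) = 0
      rw [hR, zero_mul]
      by_contra hcon
      push Not at hcon
      apply hp
      rw [mem_closedBall_zero_iff]
      have h4 : |p.1| ≤ |R| := (hcon 0).trans (le_abs_self R)
      have h5 : ‖p.2‖ ≤ 2 * |R| := by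
        rw [pi_norm_le_iff_of_nonneg (by positivity)]
        intro a
        have h6 : |p.2 a + p.1| ≤ |R| := (hcon a.succ).trans (le_abs_self R)
        rw [Real.norm_eq_abs]
        have h7 : |p.2 a| ≤ |p.2 a + p.1| + |p.1| := by
          have h8 := abs_sub (p.2 a + p.1) p.1
          rwa [add_sub_cancel_right] at h8
        linarith
      rw [Prod.norm_def, max_le_iff]
      exact ⟨by rw [Real.norm_eq_abs]; linarith [abs_nonneg R], h5⟩
  have h2 : ∫ y : Fin (n + 1) → ℝ, f y * rho (n + 1) y = ∫ y, F y := by rw [hF]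
  rw [h2, h1, Measure.volume_eq_prod, integral_prod _ hei]
  rw [integral_congr_ae (ae_of_all _ h3), integral_integral_swap hG]
  refine integral_congr_ae (ae_of_all _ fun y => ?_)
  show ∫ t : ℝ, f (Fin.cons t fun a => y a + t) * rho (n + 1) (Fin.cons 0 y) = _
  rw [integral_mul_const]
  rfl

end Pool.Agent.Work.MP_7eec5e_nt.GG
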