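import Pool.Agent.Work.MP_7eec5e_nt.GG.Stmts2

/-!
# MP_7eec5e_nt, block GG, item Ie (helper73): inclusion and exclusion
-/

set_option autoImplicit false

namespace Pool.Agent.Work.MP_7eec5e_nt.GG

open MeasureTheory Filter Topology Finset

namespace IIe

/-- the box with sides `J` for the indices in `T` and `F` for the others -/
def Bx (N : ℕ) (J F : Set ℝ) (T : Finset (Fin N)) : Set (Fin N → ℝ) :=
  {θ | ∀ i, θ i ∈ (if i ∈ T then J else F)}

variable {N : ℕ}

theorem Bx_meas {J F : Set ℝ} (hJ : MeasurableSet J) (hF : MeasurableSet F) (T : Finset (Fin N)) :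
    MeasurableSet (Bx N J F T) := by
  have h : Bx N J F T = Set.pi Set.univ (fun i => if i ∈ T then J else F) := by
    ext θ
    simp [Bx, Set.mem_pi]
  rw [h]
  apply MeasurableSet.univ_pi
  intro i
  split_ifs
  · exact hJ
  · exact hF

theorem ind_Bx (J F : Set ℝ) (T : Finset (Fin N)) (θ : Fin N → ℝ) :
    (Bx N J F T).indicator (fun _ => (1 : ℝ)) θ =
      (∏ i ∈ T, J.indicator (fun _ => (1 : ℝ)) (θ i)) *
        ∏ i ∈ Tᶜ, F.indicator (fun _ => (1 : ℝ)) (θ i) := by
  classical
  by_cases h : θ ∈ Bx N J F T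
  · rw [Set.indicator_of_mem h]
    have h1 : ∏ i ∈ T, J.indicator (fun _ => (1 : ℝ)) (θ i) = 1 := by
      apply Finset.prod_eq_one
      intro i hi
      have := h i
      rw [if_pos hi] at this
      rw [Set.indicator_of_mem this]
    have h2 : ∏ i ∈ Tᶜ, F.indicator (fun _ => (1 : ℝ)) (θ i) = 1 := by
      apply Finset.prod_eq_one
      intro i hi
      have := h i
      rw [if_neg (Finset.mem_compl.mp hi)] at this
      rw [Set.indicator_of_mem this]
    rw [h1, h2, mul_one]
  · rw [Set.indicator_of_notMem h]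
    unfold Bx at h
    simp only [Set.mem_setOf_eq, not_forall] at h
    obtain ⟨i, hi⟩ := h
    by_cases hT : i ∈ T
    · rw [if_pos hT] at hi
      rw [Finset.prod_eq_zero hT (Set.indicator_of_notMem hi _), zero_mul]
    · rw [if_neg hT] at hi
      rw [Finset.prod_eq_zero (Finset.mem_compl.mpr hT) (Set.indicator_of_notMem hi _), mul_zero]

theorem ind_diff {J F : Set ℝ} (hJF : J ⊆ F) (K : Finset (Fin N)) (θ : Fin N → ℝ) :
    (Bx N J (F \ J) K).indicator (fun _ => (1 : ℝ)) θ =
      ∑ S ∈ Kᶜ.powerset, (-1 : ℝ) ^ S.card *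
        (Bx N J F (K ∪ S)).indicator (fun _ => (1 : ℝ)) θ := by
  classical
  rw [ind_Bx]
  have h1 : ∀ t : ℝ, (F \ J).indicator (fun _ => (1 : ℝ)) t =
      -J.indicator (fun _ => (1 : ℝ)) t + F.indicator (fun _ => (1 : ℝ)) t := by
    intro t
    by_cases hJ : t ∈ J
    · have hF := hJF hJ
      rw [Set.indicator_of_notMem (fun h => h.2 hJ), Set.indicator_of_mem hJ,
        Set.indicator_of_mem hF]
      ring
    · by_cases hF : t ∈ F
      · rw [Set.indicator_of_mem (show t ∈ F \ J from ⟨hF, hJ⟩), Set.indicator_of_notMem hJ,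
          Set.indicator_of_mem hF]
        ring
      · rw [Set.indicator_of_notMem (fun h => hF h.1), Set.indicator_of_notMem hJ,
          Set.indicator_of_notMem hF]
        ring
  simp only [h1]
  rw [Finset.prod_add, Finset.mul_sum]
  apply Finset.sum_congr rfl
  intro S hS
  have hSK : S ⊆ Kᶜ := Finset.mem_powerset.mp hS
  have hd : Disjoint K S := by
    rw [Finset.disjoint_left]
    intro i hi hi'
    exact Finset.mem_compl.mp (hSK hi') hi
  rw [ind_Bx, Finset.prod_union hd, Finset.prod_neg]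
  have h2 : (K ∪ S)ᶜ = Kᶜ \ S := by
    ext i
    simp [Finset.mem_union, Finset.mem_compl, Finset.mem_sdiff]
  rw [h2]
  ring

theorem pN_cont (N : ℕ) : Continuous (pN N) := by
  unfold pN
  apply Continuous.div_const
  apply continuous_finset_prod
  intro j _
  apply continuous_finset_prod
  intro l _
  fun_prop

theorem pN_int {J F : Set ℝ} (hJ : MeasurableSet J) (hF : MeasurableSet F)
    (hJF : J ⊆ F) (hFb : F ⊆ Set.Icc (-Real.pi) Real.pi) (T : Finset (Fin N)) :
    IntegrableOn (pN N) (Bx N J F T) volume := by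
  have h1 : IntegrableOn (pN N) (Set.pi Set.univ fun _ : Fin N => Set.Icc (-Real.pi) Real.pi)
      volume :=
    (pN_cont N).continuousOn.integrableOn_compact (isCompact_univ_pi fun _ => isCompact_Icc)
  apply h1.mono_set
  intro θ hθ i _
  have := hθ i
  split_ifs at this
  · exact hFb (hJF this)
  · exact hFb this

theorem pN_perm (hVd : StVd) (σ : Equiv.Perm (Fin N)) (θ : Fin N → ℝ) :
    pN N (fun i => θ (σ i)) = pN N θ := by
  have h1 : dN N N (fun i => θ (σ i)) = dN N N θ := by
    unfold dN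
    exact Matrix.det_submatrix_equiv_self σ (Matrix.of fun i j : Fin N => KN N (θ i - θ j))
  rw [hVd, hVd] at h1
  have h2 : (N.factorial : ℝ) * pN N (fun i => θ (σ i)) = N.factorial * pN N θ := by
    exact_mod_cast h1
  have h3 : (N.factorial : ℝ) ≠ 0 := by exact_mod_cast N.factorial_ne_zero
  exact mul_left_cancel₀ h3 h2

theorem exists_perm (T T' : Finset (Fin N)) (h : T.card = T'.card) :
    ∃ σ : Equiv.Perm (Fin N), ∀ i, σ i ∈ T' ↔ i ∈ T := by
  classical
  have e : {x // x ∈ T} ≃ {x // x ∈ T'} := Fintype.equivOfCardEq (by simp [h])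
  refine ⟨e.extendSubtype, fun i => ⟨?_, e.extendSubtype_mem i⟩⟩
  intro hi
  by_contra hT
  exact e.extendSubtype_not_mem i hT hi

theorem int_card (hVd : StVd) (J F : Set ℝ) (T T' : Finset (Fin N)) (h : T.card = T'.card) :
    ∫ θ in Bx N J F T, pN N θ = ∫ θ in Bx N J F T', pN N θ := by
  obtain ⟨σ, hσ⟩ := exists_perm T T' h
  have h1 := (volume_measurePreserving_piCongrLeft (fun _ : Fin N => ℝ) σ).setIntegral_preimage_emb
    (MeasurableEquiv.piCongrLeft (fun _ : Fin N => ℝ) σ).measurableEmbedding (pN N)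
    (Bx N J F T')
  have hf : ∀ (θ : Fin N → ℝ) (i : Fin N),
      (MeasurableEquiv.piCongrLeft (fun _ : Fin N => ℝ) σ) θ (σ i) = θ i := by
    intro θ i
    rw [MeasurableEquiv.coe_piCongrLeft]
    exact Equiv.piCongrLeft_apply_apply (fun _ : Fin N => ℝ) σ θ i
  have h2 : ∀ θ : Fin N → ℝ, pN N ((MeasurableEquiv.piCongrLeft (fun _ : Fin N => ℝ) σ) θ) =
      pN N θ := by
    intro θ
    rw [← pN_perm hVd σ ((MeasurableEquiv.piCongrLeft (fun _ : Fin N => ℝ) σ) θ)]
    congr 1
    funext i
    exact hf θ i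
  have h3 : (MeasurableEquiv.piCongrLeft (fun _ : Fin N => ℝ) σ) ⁻¹' Bx N J F T' =
      Bx N J F T := by
    ext θ
    constructor
    · intro hθ i
      have := hθ (σ i)
      rw [hf] at this
      by_cases hi : i ∈ T
      · rw [if_pos hi]
        rwa [if_pos ((hσ i).mpr hi)] at this
      · rw [if_neg hi]
        rwa [if_neg (fun h' => hi ((hσ i).mp h'))] at this
    · intro hθ i'
      obtain ⟨i, rfl⟩ := σ.surjective i'
      rw [hf]
      have := hθ i
      by_cases hi : i ∈ T
      · rw [if_pos ((hσ i).mpr hi)]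
        rwa [if_pos hi] at this
      · rw [if_neg (fun h' => hi ((hσ i).mp h'))]
        rwa [if_neg hi] at this
  rw [h3] at h1
  simp only [h2] at h1
  exact h1

theorem fact_id {N k r : ℕ} (hk : k ≤ N) (hr : r ≤ N - k) (x y : ℝ) :
    (N.choose k : ℝ) * (((N - k).choose r : ℝ) * (x *
      (((N - (k + r)).factorial : ℝ) / N.factorial * (((k + r).factorial : ℝ) * y)))) =
      x * ((k + r).choose k : ℝ) * y := by
  have hkr : k + r ≤ N := by omega
  rw [Nat.cast_choose ℝ hk, Nat.cast_choose ℝ hr, Nat.cast_choose ℝ (Nat.le_add_right k r),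
    Nat.add_sub_cancel_left, Nat.sub_sub]
  have h1 : (N.factorial : ℝ) ≠ 0 := by exact_mod_cast N.factorial_ne_zero
  have h2 : (k.factorial : ℝ) ≠ 0 := by exact_mod_cast k.factorial_ne_zero
  have h3 : (r.factorial : ℝ) ≠ 0 := by exact_mod_cast r.factorial_ne_zero
  have h4 : ((N - k).factorial : ℝ) ≠ 0 := by exact_mod_cast (N - k).factorial_ne_zero
  have h5 : ((N - (k + r)).factorial : ℝ) ≠ 0 := by
    exact_mod_cast (N - (k + r)).factorial_ne_zero
  field_simp

end IIe

open IIe

/-- Item Ie. -/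
theorem prIe (hVd : StVd) (hMm : StMm) : StIe := by
  classical
  intro N k b hN hk hb hb'
  set J : Set ℝ := Set.Ico b (b + 2 * Real.pi / N) with hJdef
  set F : Set ℝ := Set.Ico (-Real.pi) Real.pi with hFdef
  have hJ : MeasurableSet J := measurableSet_Ico
  have hF : MeasurableSet F := measurableSet_Ico
  have hJF : J ⊆ F := Set.Ico_subset_Ico hb hb'
  have hFb : F ⊆ Set.Icc (-Real.pi) Real.pi := Set.Ico_subset_Icc_self
  set K : Finset (Fin N) := Finset.univ.filter (fun i : Fin N => (i : ℕ) < k) with hK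
  have hKc : K.card = k := by
    rw [hK, Fin.card_filter_val_lt]
    exact min_eq_right hk
  have hKcc : Kᶜ.card = N - k := by
    rw [Finset.card_compl, Fintype.card_fin, hKc]
  have hE : {θ : Fin N → ℝ | ∀ i : Fin N, θ i ∈ (if (i : ℕ) < k then
      Set.Ico b (b + 2 * Real.pi / N) else
        Set.Ico (-Real.pi) Real.pi \ Set.Ico b (b + 2 * Real.pi / N))} = Bx N J (F \ J) K := by
    ext θ
    simp [Bx, hK, hJdef, hFdef]
  -- the integrals of the boxes
  have hbox : ∀ S ∈ Kᶜ.powerset, ∫ θ in Bx N J F (K ∪ S), pN N θ =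
      ((N - (k + S.card)).factorial : ℝ) / N.factorial *
        (((k + S.card).factorial : ℝ) * mN N (k + S.card) b) := by
    intro S hS
    have hSK : S ⊆ Kᶜ := Finset.mem_powerset.mp hS
    have hd : Disjoint K S := by
      rw [Finset.disjoint_left]
      intro i hi hi'
      exact Finset.mem_compl.mp (hSK hi') hi
    have hSc : S.card ≤ N - k := by rw [← hKcc]; exact Finset.card_le_card hSK
    have hm : k + S.card ≤ N := by omega
    have hc : (K ∪ S).card =
        (Finset.univ.filter (fun i : Fin N => (i : ℕ) < k + S.card)).card := by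
      rw [Finset.card_union_of_disjoint hd, hKc, Fin.card_filter_val_lt]
      exact (min_eq_right hm).symm
    rw [int_card hVd J F _ _ hc]
    have h1 : Bx N J F (Finset.univ.filter (fun i : Fin N => (i : ℕ) < k + S.card)) =
        {θ : Fin N → ℝ | ∀ i : Fin N, θ i ∈ (if (i : ℕ) < k + S.card then
          Set.Ico b (b + 2 * Real.pi / N) else Set.Ico (-Real.pi) Real.pi)} := by
      ext θ
      simp [Bx, hJdef, hFdef]
    rw [h1, hMm N (k + S.card) b (b + 2 * Real.pi / N) hm hb hb']
    unfold mN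
    have h2 : ((k + S.card).factorial : ℝ) ≠ 0 := by
      exact_mod_cast (k + S.card).factorial_ne_zero
    rw [mul_inv_cancel_left₀ h2]
  -- expansion
  have hint : ∫ θ in Bx N J (F \ J) K, pN N θ =
      ∑ S ∈ Kᶜ.powerset, (-1 : ℝ) ^ S.card * ∫ θ in Bx N J F (K ∪ S), pN N θ := by
    rw [← integral_indicator (Bx_meas hJ (hF.diff hJ) K)]
    have h1 : ∀ θ, (Bx N J (F \ J) K).indicator (pN N) θ =
        ∑ S ∈ Kᶜ.powerset, (-1 : ℝ) ^ S.card * (Bx N J F (K ∪ S)).indicator (pN N) θ := by
      intro θ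
      have h2 : ∀ A : Set (Fin N → ℝ), A.indicator (pN N) θ =
          A.indicator (fun _ => (1 : ℝ)) θ * pN N θ := by
        intro A
        by_cases hA : θ ∈ A
        · rw [Set.indicator_of_mem hA, Set.indicator_of_mem hA, one_mul]
        · rw [Set.indicator_of_notMem hA, Set.indicator_of_notMem hA, zero_mul]
      rw [h2, ind_diff hJF, Finset.sum_mul]
      apply Finset.sum_congr rfl
      intro S _
      rw [h2, mul_assoc]
    simp only [h1]
    rw [integral_finset_sum]
    · apply Finset.sum_congr rfl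
      intro S _
      rw [integral_const_mul, integral_indicator (Bx_meas hJ hF _)]
    · intro S _
      apply Integrable.const_mul
      rw [integrable_indicator_iff (Bx_meas hJ hF _)]
      exact pN_int hJ hF hJF hFb _
  unfold EU
  rw [hE, hint]
  have h3 : ∑ S ∈ Kᶜ.powerset, (-1 : ℝ) ^ S.card * ∫ θ in Bx N J F (K ∪ S), pN N θ =
      ∑ r ∈ range (Kᶜ.card + 1), (Kᶜ.card).choose r • ((-1 : ℝ) ^ r *
        (((N - (k + r)).factorial : ℝ) / N.factorial *
          (((k + r).factorial : ℝ) * mN N (k + r) b))) := by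
    rw [← Finset.sum_powerset_apply_card (fun r : ℕ => (-1 : ℝ) ^ r *
        (((N - (k + r)).factorial : ℝ) / N.factorial *
          (((k + r).factorial : ℝ) * mN N (k + r) b)))]
    apply Finset.sum_congr rfl
    intro S hS
    rw [hbox S hS]
  rw [h3, hKcc, Finset.mul_sum]
  apply Finset.sum_congr rfl
  intro r hr
  rw [nsmul_eq_mul]
  exact fact_id hk (by have := Finset.mem_range.mp hr; omega) _ _

end Pool.Agent.Work.MP_7eec5e_nt.GG
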