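import Pool.Agent.Work.MP_7eec5e_nt.GG.Stmts2

/-!
# MP_7eec5e_nt, block GG, item Io (helper73): integration of the last variable
-/

set_option autoImplicit false

namespace Pool.Agent.Work.MP_7eec5e_nt.GG

open MeasureTheory Filter Topology Finset

namespace IIo

theorem KN_cont (N : ℕ) : Continuous (KN N) := by
  unfold KN
  fun_prop

theorem KN_zero (N : ℕ) : KN N 0 = (N : ℂ) / (2 * Real.pi) := by
  unfold KN
  simp
  rw [div_eq_mul_inv, mul_inv]
  ring

theorem two_pi_ne : (2 * Real.pi : ℂ) ≠ 0 := by
  have h : (Real.pi : ℂ) ≠ 0 := Complex.ofReal_ne_zero.mpr Real.pi_ne_zero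
  exact mul_ne_zero two_ne_zero h

theorem int_exp (a b : ℕ) :
    ∫ φ : ℝ in (-Real.pi)..Real.pi, Complex.exp (((b : ℂ) - a) * φ * Complex.I) =
      if a = b then (2 * Real.pi : ℂ) else 0 := by
  by_cases h : a = b
  · subst h
    simp
    ring
  · rw [if_neg h]
    have hc : ((b : ℂ) - a) * Complex.I ≠ 0 := by
      apply mul_ne_zero _ Complex.I_ne_zero
      rw [sub_ne_zero]
      intro h'
      exact h (by exact_mod_cast h'.symm)
    have e1 : ∀ φ : ℝ, Complex.exp (((b : ℂ) - a) * φ * Complex.I) =
        Complex.exp ((((b : ℂ) - a) * Complex.I) * φ) := by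
      intro φ; congr 1; ring
    simp only [e1]
    rw [integral_exp_mul_complex hc]
    have e2 : Complex.exp ((((b : ℂ) - a) * Complex.I) * (Real.pi : ℝ)) =
        Complex.exp ((((b : ℂ) - a) * Complex.I) * ((-Real.pi : ℝ) : ℂ)) := by
      rw [Complex.exp_eq_exp_iff_exists_int]
      refine ⟨(b : ℤ) - a, ?_⟩
      push_cast
      ring
    rw [e2, sub_self, zero_div]

theorem int_KN (N : ℕ) (s t : ℝ) :
    ∫ φ : ℝ in (-Real.pi)..Real.pi, KN N (s - φ) * KN N (φ - t) = KN N (s - t) := by
  have e1 : ∀ φ : ℝ, KN N (s - φ) * KN N (φ - t) =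
      ∑ a ∈ range N, ∑ b ∈ range N, ((2 * Real.pi : ℂ)⁻¹ * (2 * Real.pi : ℂ)⁻¹ *
        Complex.exp (((a : ℂ) * s - b * t) * Complex.I)) *
          Complex.exp (((b : ℂ) - a) * φ * Complex.I) := by
    intro φ
    unfold KN
    rw [mul_mul_mul_comm, Finset.sum_mul_sum, Finset.mul_sum]
    apply Finset.sum_congr rfl
    intro a _
    rw [Finset.mul_sum]
    apply Finset.sum_congr rfl
    intro b _
    rw [mul_assoc ((2 * Real.pi : ℂ)⁻¹ * (2 * Real.pi : ℂ)⁻¹), ← Complex.exp_add,
      ← Complex.exp_add]
    congr 2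
    push_cast
    ring
  simp only [e1]
  rw [intervalIntegral.integral_finset_sum]
  · have e2 : ∀ a ∈ range N, ∫ φ : ℝ in (-Real.pi)..Real.pi, ∑ b ∈ range N,
        ((2 * Real.pi : ℂ)⁻¹ * (2 * Real.pi : ℂ)⁻¹ *
        Complex.exp (((a : ℂ) * s - b * t) * Complex.I)) *
          Complex.exp (((b : ℂ) - a) * φ * Complex.I) =
        (2 * Real.pi : ℂ)⁻¹ * Complex.exp (a * ((s - t : ℝ) : ℂ) * Complex.I) := by
      intro a ha
      rw [intervalIntegral.integral_finset_sum]
      · simp only [intervalIntegral.integral_const_mul, int_exp]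
        rw [Finset.sum_eq_single a]
        · rw [if_pos rfl]
          have h := two_pi_ne
          have e3 : ((a : ℂ) * s - a * t) = a * ((s - t : ℝ) : ℂ) := by push_cast; ring
          rw [e3]
          field_simp
        · intro b _ hb
          rw [if_neg (Ne.symm hb), mul_zero]
        · intro h
          exact absurd ha h
      · intro b _
        apply Continuous.intervalIntegrable
        fun_prop
    rw [Finset.sum_congr rfl e2, ← Finset.mul_sum]
    rfl
  · intro a _
    apply Continuous.intervalIntegrable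
    fun_prop

/-- the equivalence used for the block decomposition -/
def eqv (m : ℕ) : Fin m ⊕ Unit ≃ Fin (m + 1) :=
  (Equiv.sumCongr (Equiv.refl (Fin m)) (Equiv.equivPUnit (Fin 1)).symm).trans finSumFinEquiv

theorem eqv_inl (m : ℕ) (i : Fin m) : eqv m (Sum.inl i) = Fin.castSucc i := rfl

theorem eqv_inr (m : ℕ) (i : Unit) : eqv m (Sum.inr i) = Fin.last m := by
  apply Fin.ext
  simp [eqv]

theorem dN_snoc (hBd : StBd) (N m : ℕ) (θ : Fin m → ℝ) (φ : ℝ) :
    dN N (m + 1) (Fin.snoc θ φ) = KN N 0 * dN N m θ -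
      ∑ i, ∑ j, KN N (φ - θ i) *
        (Matrix.of fun i j : Fin m => KN N (θ i - θ j)).adjugate i j * KN N (θ j - φ) := by
  have h := hBd m (Matrix.of fun i j : Fin m => KN N (θ i - θ j)) (fun j => KN N (θ j - φ))
    (fun i => KN N (φ - θ i)) (KN N 0)
  have h2 : (Matrix.fromBlocks (Matrix.of fun i j : Fin m => KN N (θ i - θ j))
      (Matrix.of fun i (_ : Unit) => KN N (θ i - φ)) (Matrix.of fun (_ : Unit) j => KN N (φ - θ j))
      (Matrix.of fun (_ _ : Unit) => KN N 0)) =
      (Matrix.of fun i j : Fin (m + 1) =>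
        KN N ((Fin.snoc θ φ : Fin (m + 1) → ℝ) i -
          (Fin.snoc θ φ : Fin (m + 1) → ℝ) j)).submatrix (eqv m) (eqv m) := by
    ext i j
    rcases i with i | i <;> rcases j with j | j
    · simp only [Matrix.fromBlocks_apply₁₁, Matrix.submatrix_apply, Matrix.of_apply, eqv_inl,
        Fin.snoc_castSucc]
    · simp only [Matrix.fromBlocks_apply₁₂, Matrix.submatrix_apply, Matrix.of_apply, eqv_inl,
        eqv_inr, Fin.snoc_castSucc, Fin.snoc_last]
    · simp only [Matrix.fromBlocks_apply₂₁, Matrix.submatrix_apply, Matrix.of_apply, eqv_inl,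
        eqv_inr, Fin.snoc_castSucc, Fin.snoc_last]
    · simp only [Matrix.fromBlocks_apply₂₂, Matrix.submatrix_apply, Matrix.of_apply,
        eqv_inr, Fin.snoc_last, sub_self]
  rw [h2, Matrix.det_submatrix_equiv_self] at h
  unfold dN
  exact h

end IIo

open IIo

/-- Item Io. -/
theorem prIo (hBd : StBd) : StIo := by
  intro N m θ
  have hpi : -Real.pi ≤ Real.pi := by linarith [Real.pi_pos]
  rw [MeasureTheory.integral_Ico_eq_integral_Ioc, ← intervalIntegral.integral_of_le hpi]
  simp only [dN_snoc hBd]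
  set A : Matrix (Fin m) (Fin m) ℂ := Matrix.of fun i j : Fin m => KN N (θ i - θ j) with hA
  have hc := KN_cont N
  have hc1 : ∀ i, Continuous fun φ : ℝ => KN N (φ - θ i) := fun i => hc.comp (by fun_prop)
  have hc2 : ∀ j, Continuous fun φ : ℝ => KN N (θ j - φ) := fun j => hc.comp (by fun_prop)
  have hcc : ∀ i j, Continuous fun φ : ℝ => KN N (φ - θ i) * A.adjugate i j * KN N (θ j - φ) :=
    fun i j => ((hc1 i).mul continuous_const).mul (hc2 j)
  rw [intervalIntegral.integral_sub]
  · rw [intervalIntegral.integral_finset_sum]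
    · have e1 : ∀ i ∈ (Finset.univ : Finset (Fin m)),
          ∫ φ : ℝ in (-Real.pi)..Real.pi, ∑ j, KN N (φ - θ i) * A.adjugate i j * KN N (θ j - φ) =
          ∑ j, A.adjugate i j * A j i := by
        intro i _
        rw [intervalIntegral.integral_finset_sum]
        · apply Finset.sum_congr rfl
          intro j _
          have e2 : ∀ φ : ℝ, KN N (φ - θ i) * A.adjugate i j * KN N (θ j - φ) =
              A.adjugate i j * (KN N (θ j - φ) * KN N (φ - θ i)) := by
            intro φ; ring
          simp only [e2]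
          rw [intervalIntegral.integral_const_mul, int_KN]
          rfl
        · intro j _
          exact (hcc i j).intervalIntegrable _ _
      rw [Finset.sum_congr rfl e1, intervalIntegral.integral_const]
      have e3 : ∑ i, ∑ j, A.adjugate i j * A j i = (m : ℂ) * A.det := by
        have h1 := congrArg Matrix.trace (Matrix.adjugate_mul A)
        rw [Matrix.trace_smul, Matrix.trace_one, Fintype.card_fin, smul_eq_mul] at h1
        rw [mul_comm, ← h1, Matrix.trace]
        apply Finset.sum_congr rfl
        intro i _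
        rw [Matrix.diag_apply, Matrix.mul_apply]
      have hd : dN N m θ = A.det := rfl
      rw [e3, hd, KN_zero]
      have h := two_pi_ne
      rw [sub_neg_eq_add, ← two_mul, Complex.real_smul]
      push_cast
      field_simp
    · intro i _
      exact (continuous_finset_sum _ (fun j _ => hcc i j)).intervalIntegrable _ _
  · exact continuous_const.intervalIntegrable _ _
  · exact (continuous_finset_sum _ (fun i _ =>
      continuous_finset_sum _ (fun j _ => hcc i j))).intervalIntegrable _ _

end Pool.Agent.Work.MP_7eec5e_nt.GG
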