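import Pool.Agent.Work.MP_7eec5e_nt.GG.Stmts2

/-!
# MP_7eec5e_nt, block GG, item Kp: the determinants of the eigenvalue process
-/

set_option autoImplicit false

namespace Pool.Agent.Work.MP_7eec5e_nt.GG

open MeasureTheory Filter Topology Finset
open scoped ComplexOrder

namespace IKp

theorem amgm (n : ℕ) (hn : 0 < n) (z : Fin n → ℝ) (hz : ∀ i, 0 ≤ z i) :
    ∏ i, z i ≤ ((∑ i, z i) / n) ^ n := by
  have hn0 : (0 : ℝ) < n := by exact_mod_cast hn
  have h1 := Real.geom_mean_le_arith_mean (Finset.univ : Finset (Fin n)) (fun _ => (1 : ℝ)) z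
    (fun _ _ => zero_le_one) (by simpa using hn) (fun i _ => hz i)
  simp only [Real.rpow_one, one_mul, Finset.sum_const, Finset.card_univ, Fintype.card_fin,
    nsmul_eq_mul, mul_one] at h1
  have hp : 0 ≤ ∏ i, z i := Finset.prod_nonneg fun i _ => hz i
  calc ∏ i, z i = ((∏ i, z i) ^ ((n : ℝ)⁻¹)) ^ n := by
        rw [← Real.rpow_natCast, ← Real.rpow_mul hp, inv_mul_cancel₀ hn0.ne', Real.rpow_one]
    _ ≤ _ := pow_le_pow_left₀ (Real.rpow_nonneg hp _) h1 n

theorem det_bd (n : ℕ) (M : Matrix (Fin n) (Fin n) ℂ) (hM : M.PosSemidef) (T : ℝ)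
    (ht : M.trace = ((n * T : ℝ) : ℂ)) : M.det.im = 0 ∧ 0 ≤ M.det.re ∧ M.det.re ≤ T ^ n := by
  have h3 : M.det = ((∏ i, hM.1.eigenvalues i : ℝ) : ℂ) := by
    have := hM.1.det_eq_prod_eigenvalues
    rw [this]
    push_cast
    rfl
  have hp : 0 ≤ ∏ i, hM.1.eigenvalues i := Finset.prod_nonneg fun i _ => hM.eigenvalues_nonneg i
  rw [h3]
  refine ⟨Complex.ofReal_im _, by rw [Complex.ofReal_re]; exact hp, ?_⟩
  rw [Complex.ofReal_re]
  rcases Nat.eq_zero_or_pos n with h0 | h0
  · subst h0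
    simp
  · have hn0 : (n : ℝ) ≠ 0 := by exact_mod_cast h0.ne'
    have h1 := amgm n h0 hM.1.eigenvalues hM.eigenvalues_nonneg
    have h2 : ∑ i, hM.1.eigenvalues i = n * T := by
      have h4 := hM.1.trace_eq_sum_eigenvalues
      rw [ht] at h4
      have h5 := congrArg Complex.re h4
      rw [Complex.ofReal_re, Complex.re_sum] at h5
      rw [h5]
      rfl
    refine h1.trans (le_of_eq ?_)
    rw [h2, mul_div_assoc, mul_div_cancel₀ _ hn0]

/-- the rectangular Vandermonde matrix -/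
noncomputable def V (N m : ℕ) (θ : Fin m → ℝ) : Matrix (Fin m) (Fin N) ℂ :=
  Matrix.of fun j a => Complex.exp ((a : ℕ) * θ j * Complex.I)

theorem mat_eq (N m : ℕ) (θ : Fin m → ℝ) :
    (Matrix.of fun i j : Fin m => KN N (θ i - θ j)) =
      (((2 * Real.pi)⁻¹ : ℝ) : ℂ) • (V N m θ * (V N m θ).conjTranspose) := by
  ext i j
  rw [Matrix.smul_apply, Matrix.mul_apply, Matrix.of_apply]
  unfold KN V
  rw [smul_eq_mul]
  push_cast
  congr 1
  rw [← Fin.sum_univ_eq_sum_range (fun a : ℕ => Complex.exp (a * ((θ i : ℂ) - θ j) * Complex.I)) N]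
  refine Finset.sum_congr rfl fun a _ => ?_
  rw [Matrix.conjTranspose_apply, Matrix.of_apply, Matrix.of_apply]
  have h1 : star (Complex.exp (((a : ℕ) : ℂ) * θ j * Complex.I)) =
      Complex.exp (-(((a : ℕ) : ℂ) * θ j * Complex.I)) := by
    have : star (Complex.exp (((a : ℕ) : ℂ) * θ j * Complex.I)) =
      (starRingEnd ℂ) (Complex.exp (((a : ℕ) : ℂ) * θ j * Complex.I)) := rfl
    rw [this, ← Complex.exp_conj]
    congr 1
    simp
  rw [h1, ← Complex.exp_add]
  congr 1
  ring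

end IKp

open IKp in
theorem prKp : StKp := by
  intro N m θ
  unfold dN
  refine det_bd m _ ?_ ((N : ℝ) / (2 * Real.pi)) ?_
  · rw [mat_eq]
    refine Matrix.PosSemidef.smul (Matrix.posSemidef_self_mul_conjTranspose _) ?_
    have : (0 : ℝ) ≤ (2 * Real.pi)⁻¹ := by positivity
    exact_mod_cast this
  · simp only [Matrix.trace, Matrix.diag_apply, Matrix.of_apply, sub_self]
    rw [Finset.sum_const, Finset.card_univ, Fintype.card_fin, nsmul_eq_mul]
    have h1 : KN N 0 = (N : ℂ) / (2 * Real.pi) := by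
      unfold KN
      simp only [Complex.ofReal_zero, mul_zero, zero_mul, Complex.exp_zero, Finset.sum_const,
        Finset.card_range, nsmul_eq_mul, mul_one]
      rw [div_eq_inv_mul]
    rw [h1]
    push_cast
    rfl

end Pool.Agent.Work.MP_7eec5e_nt.GG
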