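import Pool.Agent.Work.MP_7eec5e_nt.GG.Stmts2

set_option autoImplicit false

namespace Pool.Agent.Work.MP_7eec5e_nt.GG

open MeasureTheory Filter Topology Finset

namespace ILf

/-- finitely many zeros up to height `T` -/
lemma fin_CZ (hZf : StZf) (T : ℝ) : {z : CZ | (z.1 : ℝ) ≤ T}.Finite := by
  have h1 : {t : {t : ℝ // 0 < t} | (t : ℝ) ≤ T ∧ mult (t : ℝ) ≠ 0}.Finite := by
    have := (hZf T).preimage (f := fun t : {t : ℝ // 0 < t} => (t : ℝ))
      (Subtype.val_injective.injOn)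
    apply this.subset
    intro t ht
    exact ⟨t.2, ht.1, ht.2⟩
  have h2 : {z : CZ | (z.1 : ℝ) ≤ T} ⊆
      ⋃ t ∈ {t : {t : ℝ // 0 < t} | (t : ℝ) ≤ T ∧ mult (t : ℝ) ≠ 0},
        Set.range (fun i : Fin (mult (t : ℝ)) => (⟨t, i⟩ : CZ)) := by
    rintro ⟨t, i⟩ hz
    simp only [Set.mem_iUnion]
    refine ⟨t, ⟨hz, ?_⟩, ⟨i, rfl⟩⟩
    intro h0
    have := i.2
    omega
  apply Set.Finite.subset _ h2
  apply h1.biUnion
  intro t _
  exact Set.finite_range _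

end ILf

open ILf in
theorem prLf (hGm : StGm) (hZf : StZf) : StLf := by
  intro ϑ g hϑ hg R
  obtain ⟨n, hn⟩ := exists_nat_gt (R + 1)
  apply (fin_CZ hZf (g n)).subset
  intro z hz
  have hz' : |ϑ (z.1 : ℝ) / Real.pi| ≤ R := hz
  show (z.1 : ℝ) ≤ g n
  by_contra hlt
  push Not at hlt
  have h1 := (hGm ϑ g hϑ hg).2.1 n _ hlt
  have hpi := Real.pi_pos
  have h2 : (n : ℝ) < ϑ (z.1 : ℝ) / Real.pi := by
    rw [lt_div_iff₀ hpi]
    exact h1
  have h3 := (abs_le.1 hz').2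
  linarith

end Pool.Agent.Work.MP_7eec5e_nt.GG
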