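import Pool.Agent.Work.MP_7eec5e_nt.GG.Stmts2

/-!
# MP_7eec5e_nt, block GG, item Lm: the limit of the factorial moments
-/

set_option autoImplicit false

namespace Pool.Agent.Work.MP_7eec5e_nt.GG

open MeasureTheory Filter Topology Finset

namespace ILm

/-- the difference quotient of the exponential function along the sequence `w / N` -/
theorem slope_lim (w : ℂ) (hw : w ≠ 0) :
    Tendsto (fun N : ℕ => (w * (N : ℂ)⁻¹)⁻¹ * (Complex.exp (w * (N : ℂ)⁻¹) - 1)) atTop (𝓝 1) := by
  have h1 := (hasDerivAt_iff_tendsto_slope_zero).1 (Complex.hasDerivAt_exp 0)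
  rw [Complex.exp_zero] at h1
  have h2 : Tendsto (fun N : ℕ => w * (N : ℂ)⁻¹) atTop (𝓝[≠] 0) := by
    rw [tendsto_nhdsWithin_iff]
    constructor
    · have h3 := (tendsto_inv_atTop_nhds_zero_nat (𝕜 := ℂ)).const_mul w
      rwa [mul_zero] at h3
    · filter_upwards [eventually_ge_atTop 1] with N hN
      have h3 : (N : ℂ) ≠ 0 := Nat.cast_ne_zero.2 (by omega)
      exact mul_ne_zero hw (inv_ne_zero h3)
  have h3 := h1.comp h2
  refine h3.congr fun N => ?_
  simp only [Function.comp_apply, zero_add, smul_eq_mul]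

/-- Riemann sums of the exponential function -/
theorem geom_lim (w : ℂ) (hw : w ≠ 0) :
    Tendsto (fun N : ℕ => (N : ℂ)⁻¹ * ∑ a ∈ range N, Complex.exp (w * (N : ℂ)⁻¹) ^ a) atTop
      (𝓝 ((Complex.exp w - 1) / w)) := by
  have h1 := slope_lim w hw
  have h2 : Tendsto (fun N : ℕ => (Complex.exp w - 1) / w *
      ((w * (N : ℂ)⁻¹)⁻¹ * (Complex.exp (w * (N : ℂ)⁻¹) - 1))⁻¹) atTop
      (𝓝 ((Complex.exp w - 1) / w * (1 : ℂ)⁻¹)) := (h1.inv₀ one_ne_zero).const_mul _
  rw [inv_one, mul_one] at h2
  refine h2.congr' ?_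
  filter_upwards [h1.eventually_ne one_ne_zero, eventually_ge_atTop 1] with N hN hN1
  have h3 : (N : ℂ) ≠ 0 := Nat.cast_ne_zero.2 (by omega)
  have h4 : Complex.exp (w * (N : ℂ)⁻¹) - 1 ≠ 0 := right_ne_zero_of_mul hN
  have h5 : Complex.exp (w * (N : ℂ)⁻¹) ≠ 1 := sub_ne_zero.1 h4
  rw [geom_sum_eq h5, ← Complex.exp_nat_mul]
  have h6 : (N : ℂ) * (w * (N : ℂ)⁻¹) = w := by field_simp
  rw [h6]
  field_simp

/-- the scaled kernel -/
noncomputable def kk (N : ℕ) (t : ℝ) : ℂ :=
  ((2 * Real.pi / N : ℝ) : ℂ) * KN N (2 * Real.pi / N * t)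

theorem kk_eq (N : ℕ) (t : ℝ) : kk N t = (N : ℂ)⁻¹ *
    ∑ a ∈ range N, Complex.exp (2 * Real.pi * t * Complex.I * (N : ℂ)⁻¹) ^ a := by
  have hpi : (Real.pi : ℂ) ≠ 0 := by exact_mod_cast Real.pi_ne_zero
  unfold kk KN
  rw [← mul_assoc]
  congr 1
  · push_cast
    field_simp
  · refine Finset.sum_congr rfl fun a _ => ?_
    rw [← Complex.exp_nat_mul]
    congr 1
    push_cast
    ring

theorem kk_lim (t : ℝ) : Tendsto (fun N : ℕ => kk N t) atTop
    (𝓝 (Complex.exp (Real.pi * t * Complex.I) * (sk t : ℂ))) := by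
  have hpi : (Real.pi : ℂ) ≠ 0 := by exact_mod_cast Real.pi_ne_zero
  simp only [kk_eq]
  rcases eq_or_ne t 0 with rfl | ht
  · have h1 : Complex.exp (Real.pi * ((0 : ℝ) : ℂ) * Complex.I) * (sk 0 : ℂ) = 1 := by
      simp [sk, Real.sinc_zero]
    rw [h1]
    refine tendsto_const_nhds.congr' ?_
    filter_upwards [eventually_ge_atTop 1] with N hN
    have h3 : (N : ℂ) ≠ 0 := Nat.cast_ne_zero.2 (by omega)
    simp [h3]
  · have htc : (t : ℂ) ≠ 0 := by exact_mod_cast ht
    have hw : (2 * Real.pi * t * Complex.I : ℂ) ≠ 0 :=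
      mul_ne_zero (mul_ne_zero (mul_ne_zero two_ne_zero hpi) htc) Complex.I_ne_zero
    have h1 := geom_lim _ hw
    have h2 : (Complex.exp (2 * Real.pi * t * Complex.I) - 1) / (2 * Real.pi * t * Complex.I) =
        Complex.exp (Real.pi * t * Complex.I) * (sk t : ℂ) := by
      have h3 : sk t = Real.sin (Real.pi * t) / (Real.pi * t) := by
        rw [sk, Real.sinc_of_ne_zero (mul_ne_zero Real.pi_ne_zero ht)]
      rw [h3]
      push_cast
      have h4 : Complex.exp (2 * Real.pi * t * Complex.I) =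
          Complex.exp (Real.pi * t * Complex.I) * Complex.exp (Real.pi * t * Complex.I) := by
        rw [← Complex.exp_add]
        congr 1
        ring
      have h5 : Complex.exp (Real.pi * t * Complex.I) * Complex.exp (-(Real.pi * t * Complex.I)) =
          1 := by
        rw [← Complex.exp_add, add_neg_cancel, Complex.exp_zero]
      have h6 : Complex.sin (Real.pi * t) = (Complex.exp (-(Real.pi * t * Complex.I)) -
          Complex.exp (Real.pi * t * Complex.I)) * Complex.I / 2 := by
        rw [Complex.sin, neg_mul]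
      rw [h4, h6, div_eq_iff hw]
      field_simp
      rw [Complex.I_sq]
      linear_combination h5
    rw [h2] at h1
    exact h1

/-- the limit of the determinants -/
theorem det_lim (m : ℕ) (y : Fin m → ℝ) :
    Tendsto (fun N : ℕ => Matrix.det (Matrix.of fun i j : Fin m => kk N (y i - y j))) atTop
      (𝓝 (rho m y : ℂ)) := by
  have h1 : (rho m y : ℂ) = Matrix.det (Matrix.of fun i j : Fin m =>
      Complex.exp (Real.pi * ((y i - y j : ℝ) : ℂ) * Complex.I) * (sk (y i - y j) : ℂ)) := by
    have h2 : (Matrix.of fun i j : Fin m =>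
        Complex.exp (Real.pi * ((y i - y j : ℝ) : ℂ) * Complex.I) * (sk (y i - y j) : ℂ)) =
        Matrix.of fun i j : Fin m => Complex.exp (Real.pi * (y i : ℂ) * Complex.I) *
          (Matrix.of fun i j : Fin m => Complex.exp (-(Real.pi * (y j : ℂ) * Complex.I)) *
            (Matrix.of fun i j : Fin m => (sk (y i - y j) : ℂ)) i j) i j := by
      ext i j
      simp only [Matrix.of_apply]
      rw [← mul_assoc, ← Complex.exp_add]
      congr 2
      push_cast
      ring
    rw [h2, Matrix.det_mul_column, Matrix.det_mul_row, ← mul_assoc, ← Finset.prod_mul_distrib]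
    have h3 : ∀ i, Complex.exp (Real.pi * (y i : ℂ) * Complex.I) *
        Complex.exp (-(Real.pi * (y i : ℂ) * Complex.I)) = 1 := by
      intro i
      rw [← Complex.exp_add, add_neg_cancel, Complex.exp_zero]
    simp only [h3, Finset.prod_const_one, one_mul]
    rw [rho]
    exact RingHom.map_det Complex.ofRealHom _
  rw [h1]
  have h2 : Continuous fun M : Matrix (Fin m) (Fin m) ℂ => M.det :=
    Continuous.matrix_det continuous_id
  have h3 : Tendsto (fun N : ℕ => (Matrix.of fun i j : Fin m => kk N (y i - y j) :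
      Matrix (Fin m) (Fin m) ℂ)) atTop (𝓝 (Matrix.of fun i j : Fin m =>
      Complex.exp (Real.pi * ((y i - y j : ℝ) : ℂ) * Complex.I) * (sk (y i - y j) : ℂ))) := by
    refine tendsto_pi_nhds.2 fun i => tendsto_pi_nhds.2 fun j => ?_
    exact kk_lim (y i - y j)
  exact (h2.tendsto _).comp h3

/-- substitution -/
theorem subst (m : ℕ) (b c : ℝ) (hc : 0 < c) (g : (Fin m → ℝ) → ℝ) :
    ∫ θ in {θ : Fin m → ℝ | ∀ a, θ a ∈ Set.Ico b (b + c)}, g θ =
      c ^ m * ∫ y in {y : Fin m → ℝ | ∀ a, 0 ≤ y a ∧ y a < 1}, g (fun a => b + c * y a) := by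
  have hA : MeasurableSet {θ : Fin m → ℝ | ∀ a, θ a ∈ Set.Ico b (b + c)} := by
    have h : {θ : Fin m → ℝ | ∀ a, θ a ∈ Set.Ico b (b + c)} =
        Set.pi Set.univ fun _ => Set.Ico b (b + c) := by
      ext θ
      simp
    rw [h]
    exact MeasurableSet.univ_pi fun _ => measurableSet_Ico
  have hC : MeasurableSet {y : Fin m → ℝ | ∀ a, 0 ≤ y a ∧ y a < 1} := by
    have h : {y : Fin m → ℝ | ∀ a, 0 ≤ y a ∧ y a < 1} =
        Set.pi Set.univ fun _ => Set.Ico (0 : ℝ) 1 := by
      ext θ
      simp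
    rw [h]
    exact MeasurableSet.univ_pi fun _ => measurableSet_Ico
  rw [← integral_indicator hA, ← integral_indicator hC]
  set G := Set.indicator {θ : Fin m → ℝ | ∀ a, θ a ∈ Set.Ico b (b + c)} g with hG
  have h1 := Measure.integral_comp_smul (volume : Measure (Fin m → ℝ))
    (fun x => G ((fun _ => b) + x)) c
  rw [Module.finrank_fin_fun, integral_add_left_eq_self, abs_of_pos (inv_pos.2 (pow_pos hc m)),
    smul_eq_mul] at h1
  have h2 : ∀ y : Fin m → ℝ, G ((fun _ => b) + c • y) =
      Set.indicator {y : Fin m → ℝ | ∀ a, 0 ≤ y a ∧ y a < 1}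
        (fun y => g (fun a => b + c * y a)) y := by
    intro y
    rw [hG]
    have h3 : ((fun _ => b) + c • y : Fin m → ℝ) = fun a => b + c * y a := by
      ext a
      simp
    by_cases hy : ∀ a, 0 ≤ y a ∧ y a < 1
    · rw [Set.indicator_of_mem (show y ∈ {y : Fin m → ℝ | ∀ a, 0 ≤ y a ∧ y a < 1} from hy),
        Set.indicator_of_mem, h3]
      intro a
      rw [h3]
      have h4 := hy a
      constructor
      · have := mul_nonneg hc.le h4.1
        change b ≤ b + c * y a
        linarith
      · have := mul_lt_mul_of_pos_left h4.2 hc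
        change b + c * y a < b + c
        linarith
    · rw [Set.indicator_of_notMem (show y ∉ {y : Fin m → ℝ | ∀ a, 0 ≤ y a ∧ y a < 1} from hy),
        Set.indicator_of_notMem]
      intro h4
      apply hy
      intro a
      have h5 := h4 a
      rw [h3] at h5
      obtain ⟨h6, h7⟩ := h5
      change b ≤ b + c * y a at h6
      change b + c * y a < b + c at h7
      constructor
      · by_contra h8
        have := mul_neg_of_pos_of_neg hc (not_le.1 h8)
        linarith
      · by_contra h8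
        have := mul_le_mul_of_nonneg_left (not_lt.1 h8) hc.le
        linarith
  simp only [h2] at h1
  rw [h1, ← mul_assoc, mul_inv_cancel₀ (pow_pos hc m).ne', one_mul]

/-- the scaled determinant -/
theorem det_scale (N m : ℕ) (b : ℝ) (y : Fin m → ℝ) :
    ((2 * Real.pi / N : ℝ) : ℂ) ^ m * dN N m (fun a => b + 2 * Real.pi / N * y a) =
      Matrix.det (Matrix.of fun i j : Fin m => kk N (y i - y j)) := by
  have h1 : (Matrix.of fun i j : Fin m => kk N (y i - y j)) =
      ((2 * Real.pi / N : ℝ) : ℂ) • Matrix.of fun i j : Fin m =>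
        KN N ((b + 2 * Real.pi / N * y i) - (b + 2 * Real.pi / N * y j)) := by
    ext i j
    rw [Matrix.smul_apply, Matrix.of_apply, Matrix.of_apply, smul_eq_mul, kk]
    congr 2
    ring
  rw [h1, Matrix.det_smul, Fintype.card_fin]
  rfl

end ILm

open ILm in
theorem prLm (hKp : StKp) : StLm := by
  intro m b
  have hC : MeasurableSet {y : Fin m → ℝ | ∀ a, 0 ≤ y a ∧ y a < 1} := by
    have h : {y : Fin m → ℝ | ∀ a, 0 ≤ y a ∧ y a < 1} =
        Set.pi Set.univ fun _ => Set.Ico (0 : ℝ) 1 := by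
      ext θ
      simp
    rw [h]
    exact MeasurableSet.univ_pi fun _ => measurableSet_Ico
  have hvol : volume {y : Fin m → ℝ | ∀ a, 0 ≤ y a ∧ y a < 1} ≠ ⊤ := by
    have h : {y : Fin m → ℝ | ∀ a, 0 ≤ y a ∧ y a < 1} =
        Set.pi Set.univ fun _ => Set.Ico (0 : ℝ) 1 := by
      ext θ
      simp
    rw [h, volume_pi_pi]
    simp
  have hfin : IsFiniteMeasure
      (volume.restrict {y : Fin m → ℝ | ∀ a, 0 ≤ y a ∧ y a < 1}) :=
    ⟨by rw [Measure.restrict_apply_univ]; exact lt_top_iff_ne_top.2 hvol⟩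
  refine Tendsto.const_mul _ ?_
  -- the integrand after the substitution
  have key : Tendsto (fun N : ℕ => ∫ y in {y : Fin m → ℝ | ∀ a, 0 ≤ y a ∧ y a < 1},
      (2 * Real.pi / N) ^ m * (dN N m (fun a => b N + 2 * Real.pi / N * y a)).re) atTop
      (𝓝 (∫ y in {y : Fin m → ℝ | ∀ a, 0 ≤ y a ∧ y a < 1}, rho m y)) := by
    refine tendsto_integral_of_dominated_convergence (fun _ => (1 : ℝ)) (fun N => ?_) ?_ ?_ ?_
    · refine Continuous.aestronglyMeasurable ?_
      refine continuous_const.mul (Complex.continuous_re.comp ?_)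
      unfold dN KN
      refine Continuous.matrix_det ?_
      refine continuous_matrix fun i j => ?_
      simp only [Matrix.of_apply]
      fun_prop
    · exact integrable_const 1
    · intro N
      refine Eventually.of_forall fun y => ?_
      obtain ⟨-, h1, h2⟩ := hKp N m (fun a => b N + 2 * Real.pi / N * y a)
      have hpi := Real.pi_pos
      rcases Nat.eq_zero_or_pos N with rfl | hN
      · rcases Nat.eq_zero_or_pos m with rfl | hm
        · rw [pow_zero] at h2 ⊢
          rw [one_mul, Real.norm_eq_abs, abs_of_nonneg h1]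
          exact h2
        · simp [hm.ne']
      · have hN' : (0 : ℝ) < N := Nat.cast_pos.2 hN
        have h3 : (0 : ℝ) < (2 * Real.pi / N) ^ m := by positivity
        rw [Real.norm_eq_abs, abs_of_nonneg (mul_nonneg h3.le h1)]
        refine (mul_le_mul_of_nonneg_left h2 h3.le).trans (le_of_eq ?_)
        rw [← mul_pow]
        have h4 : 2 * Real.pi / (N : ℝ) * ((N : ℝ) / (2 * Real.pi)) = 1 := by field_simp
        rw [h4, one_pow]
    · refine Eventually.of_forall fun y => ?_
      have h1 := (Complex.continuous_re.tendsto _).comp (det_lim m y)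
      rw [Complex.ofReal_re] at h1
      refine h1.congr fun N => ?_
      rw [Function.comp_apply, ← det_scale N m (b N) y, ← Complex.ofReal_pow,
        Complex.re_ofReal_mul]
  refine key.congr' ?_
  filter_upwards [eventually_ge_atTop 1] with N hN
  have hN' : (0 : ℝ) < N := Nat.cast_pos.2 (by omega)
  have hc : 0 < 2 * Real.pi / N := by have := Real.pi_pos; positivity
  rw [subst m (b N) _ hc, integral_const_mul]

end Pool.Agent.Work.MP_7eec5e_nt.GG
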