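import Pool.Agent.Work.MP_7eec5e_nt.GG.Stmts2

/-!
# Item Mm: marginals of the eigenvalue density
-/

set_option autoImplicit false

namespace Pool.Agent.Work.MP_7eec5e_nt.GG

open MeasureTheory Filter Topology Finset

namespace IMm

lemma cont_KN (N : ℕ) : Continuous (KN N) := by
  unfold KN
  fun_prop

lemma cont_dN (N m : ℕ) : Continuous (dN N m) := by
  unfold dN
  apply Continuous.matrix_det
  apply continuous_matrix
  intro i j
  exact (cont_KN N).comp ((continuous_apply i).sub (continuous_apply j))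

/-- the sets -/
def SS (m : ℕ) (b c : ℝ) (k : ℕ) : Set (Fin k → ℝ) :=
  {θ | ∀ i : Fin k, θ i ∈ (if (i : ℕ) < m then Set.Ico b c
      else Set.Ico (-Real.pi) Real.pi)}

lemma SS_eq (m : ℕ) (b c : ℝ) (k : ℕ) : SS m b c k =
    Set.univ.pi fun i : Fin k => (if (i : ℕ) < m then Set.Ico b c
      else Set.Ico (-Real.pi) Real.pi) := by
  ext θ
  simp only [SS, Set.mem_ofPred_eq, Set.mem_pi, Set.mem_univ, true_implies]

lemma meas_SS (m : ℕ) (b c : ℝ) (k : ℕ) : MeasurableSet (SS m b c k) := by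
  rw [SS_eq]
  refine MeasurableSet.univ_pi fun i => ?_
  split_ifs
  · exact measurableSet_Ico
  · exact measurableSet_Ico

lemma SS_sub (m : ℕ) (b c : ℝ) (k : ℕ) : SS m b c k ⊆
    Set.univ.pi fun _ : Fin k => Set.Icc (min b (-Real.pi)) (max c Real.pi) := by
  rw [SS_eq]
  refine Set.pi_mono fun i _ => ?_
  split_ifs
  · intro x hx
    exact ⟨(min_le_left _ _).trans hx.1, hx.2.le.trans (le_max_left _ _)⟩
  · intro x hx
    exact ⟨(min_le_right _ _).trans hx.1, hx.2.le.trans (le_max_right _ _)⟩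

lemma cont_snoc (k : ℕ) : Continuous fun z : ℝ × (Fin k → ℝ) =>
    (Fin.snoc (α := fun _ => ℝ) z.2 z.1 : Fin (k + 1) → ℝ) := by
  refine continuous_pi fun i => ?_
  refine Fin.lastCases ?_ (fun j => ?_) i
  · simp only [Fin.snoc_last]
    exact continuous_fst
  · simp only [Fin.snoc_castSucc]
    exact (continuous_apply j).comp continuous_snd

lemma reS_eq (m k : ℕ) (b c : ℝ) (hmk : m ≤ k) : SS m b c (k + 1) =
      (MeasurableEquiv.piFinSuccAbove (fun _ : Fin (k + 1) => ℝ) (Fin.last k)) ⁻¹'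
        (Set.Ico (-Real.pi) Real.pi ×ˢ SS m b c k) := by
  ext θ
  simp only [SS, Set.mem_ofPred_eq, Set.mem_preimage, Set.mem_prod]
  rw [MeasurableEquiv.piFinSuccAbove_apply]
  constructor
  · intro h
    refine ⟨?_, fun i => ?_⟩
    · have h1 := h (Fin.last k)
      rw [if_neg (by rw [Fin.val_last]; omega)] at h1
      exact h1
    · have h1 := h i.castSucc
      rw [Fin.val_castSucc] at h1
      show (Fin.last k).removeNth θ i ∈ _
      rw [Fin.removeNth_apply, Fin.succAbove_last]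
      exact h1
  · rintro ⟨h1, h2⟩ i
    refine Fin.lastCases ?_ (fun j => ?_) i
    · rw [if_neg (by rw [Fin.val_last]; omega)]
      exact h1
    · have h3 := h2 j
      rw [Fin.val_castSucc]
      have h4 : (Fin.last k).removeNth θ j = θ j.castSucc := by
        rw [Fin.removeNth_apply, Fin.succAbove_last]
      rw [← h4]
      exact h3

lemma snoc_eq (k : ℕ) (θ : Fin (k + 1) → ℝ) :
    (Fin.snoc (α := fun _ => ℝ)
      (MeasurableEquiv.piFinSuccAbove (fun _ : Fin (k + 1) => ℝ) (Fin.last k) θ).2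
      (MeasurableEquiv.piFinSuccAbove (fun _ : Fin (k + 1) => ℝ) (Fin.last k) θ).1) = θ := by
  rw [MeasurableEquiv.piFinSuccAbove_apply]
  funext i
  refine Fin.lastCases ?_ (fun j => ?_) i
  · rw [Fin.snoc_last]
    rfl
  · rw [Fin.snoc_castSucc]
    show (Fin.last k).removeNth θ j = _
    rw [Fin.removeNth_apply, Fin.succAbove_last]

lemma stepF (F : ((k : ℕ) → (Fin k → ℝ) → ℂ)) (m k : ℕ) (b c : ℝ) (hmk : m ≤ k)
    (hF : Continuous (F (k + 1))) :
    ∫ θ in SS m b c (k + 1), (F (k + 1) θ).re =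
      ∫ θ in SS m b c k, (∫ φ in Set.Ico (-Real.pi) Real.pi,
        F (k + 1) (Fin.snoc (α := fun _ => ℝ) θ φ)).re := by
  have hmp := volume_preserving_piFinSuccAbove (fun _ : Fin (k + 1) => ℝ) (Fin.last k)
  have hfun : ∀ θ : Fin (k + 1) → ℝ, (F (k + 1) θ).re =
      (fun z : ℝ × (Fin k → ℝ) => (F (k + 1) (Fin.snoc (α := fun _ => ℝ) z.2 z.1)).re)
        (MeasurableEquiv.piFinSuccAbove (fun _ : Fin (k + 1) => ℝ) (Fin.last k) θ) := by
    intro θ
    show (F (k + 1) θ).re = (F (k + 1) (Fin.snoc (α := fun _ => ℝ) _ _)).re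
    rw [snoc_eq]
  have hcont : Continuous fun z : ℝ × (Fin k → ℝ) =>
      (F (k + 1) (Fin.snoc (α := fun _ => ℝ) z.2 z.1)) :=
    hF.comp (cont_snoc k)
  have hint : IntegrableOn (fun z : ℝ × (Fin k → ℝ) =>
      (F (k + 1) (Fin.snoc (α := fun _ => ℝ) z.2 z.1)).re)
      (Set.Ico (-Real.pi) Real.pi ×ˢ SS m b c k) (volume : Measure (ℝ × (Fin k → ℝ))) := by
    have h1 : IsCompact (Set.Icc (-Real.pi) Real.pi ×ˢ
        (Set.univ.pi fun _ : Fin k => Set.Icc (min b (-Real.pi)) (max c Real.pi))) :=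
      isCompact_Icc.prod (isCompact_univ_pi fun _ => isCompact_Icc)
    refine ((Complex.continuous_re.comp hcont).continuousOn.integrableOn_compact h1).mono_set ?_
    exact Set.prod_mono Set.Ico_subset_Icc_self (SS_sub m b c k)
  rw [reS_eq m k b c hmk]
  have h2 : ∫ θ in (MeasurableEquiv.piFinSuccAbove (fun _ : Fin (k + 1) => ℝ) (Fin.last k)) ⁻¹'
        (Set.Ico (-Real.pi) Real.pi ×ˢ SS m b c k), (F (k + 1) θ).re =
      ∫ z in (Set.Ico (-Real.pi) Real.pi ×ˢ SS m b c k),
        (F (k + 1) (Fin.snoc (α := fun _ => ℝ) z.2 z.1)).re := by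
    rw [← hmp.setIntegral_preimage_emb (MeasurableEquiv.measurableEmbedding _)]
    refine setIntegral_congr_fun ?_ fun θ _ => hfun θ
    exact (MeasurableEquiv.measurable _) (measurableSet_Ico.prod (meas_SS m b c k))
  rw [h2]
  have h3 : (volume : Measure (ℝ × (Fin k → ℝ))).restrict
      (Set.Ico (-Real.pi) Real.pi ×ˢ SS m b c k) =
      ((volume : Measure ℝ).restrict (Set.Ico (-Real.pi) Real.pi)).prod
        ((volume : Measure (Fin k → ℝ)).restrict (SS m b c k)) := by
    rw [Measure.prod_restrict]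
    rfl
  unfold IntegrableOn at hint
  rw [h3] at hint ⊢
  rw [integral_prod_symm _ hint]
  refine setIntegral_congr_fun (meas_SS m b c k) fun θ _ => ?_
  have h5 : Integrable (fun φ : ℝ => F (k + 1) (Fin.snoc (α := fun _ => ℝ) θ φ))
      ((volume : Measure ℝ).restrict (Set.Ico (-Real.pi) Real.pi)) := by
    have h6 : Continuous fun φ : ℝ => F (k + 1) (Fin.snoc (α := fun _ => ℝ) θ φ) :=
      hcont.comp (by fun_prop : Continuous fun φ : ℝ => (φ, θ))
    have h7 : IntegrableOn (fun φ : ℝ => F (k + 1) (Fin.snoc (α := fun _ => ℝ) θ φ))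
        (Set.Icc (-Real.pi) Real.pi) volume :=
      h6.continuousOn.integrableOn_compact isCompact_Icc
    exact h7.mono_set Set.Ico_subset_Icc_self
  exact integral_re h5

lemma step (hIo : StIo) (N m k : ℕ) (b c : ℝ) (hmk : m ≤ k) :
    ∫ θ in SS m b c (k + 1), (dN N (k + 1) θ).re =
      ((N : ℝ) - k) * ∫ θ in SS m b c k, (dN N k θ).re := by
  rw [stepF (dN N) m k b c hmk (cont_dN N (k + 1)), ← integral_const_mul]
  refine setIntegral_congr_fun (meas_SS m b c k) fun θ _ => ?_
  have h4 := hIo N k θ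
  have h8 : ((N : ℂ) - k) = (((N : ℝ) - k : ℝ) : ℂ) := by push_cast; rfl
  show (∫ φ in Set.Ico (-Real.pi) Real.pi,
        dN N (k + 1) (Fin.snoc (α := fun _ => ℝ) θ φ)).re = ((N : ℝ) - k) * (dN N k θ).re
  rw [h4, h8, Complex.re_ofReal_mul]

end IMm

theorem prMm (hVd : StVd) (hIo : StIo) : StMm := by
  intro N m b c hm _ _
  have main : ∀ k, m ≤ k → k ≤ N → ∫ θ in IMm.SS m b c k, (dN N k θ).re =
      ((N - m).factorial : ℝ) / (N - k).factorial * ∫ θ in IMm.SS m b c m, (dN N m θ).re := by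
    intro k hk
    induction k, hk using Nat.le_induction with
    | base =>
      intro _
      rw [div_self (by positivity), one_mul]
    | succ k hk ih =>
      intro hkN
      rw [IMm.step hIo N m k b c hk, ih (by omega)]
      have e1 : (N - k).factorial = (N - k) * (N - (k + 1)).factorial := by
        obtain ⟨d, hd⟩ : ∃ d, N - k = d + 1 := ⟨N - k - 1, by omega⟩
        have hd' : N - (k + 1) = d := by omega
        rw [hd, hd', Nat.factorial_succ]
      have e2 : ((N - k : ℕ) : ℝ) = (N : ℝ) - k := by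
        rw [Nat.cast_sub (by omega)]
      have e3 : ((N : ℝ) - k) ≠ 0 := by
        rw [← e2]
        have : 0 < N - k := by omega
        positivity
      have e4 : (((N - (k + 1)).factorial : ℕ) : ℝ) ≠ 0 := by positivity
      rw [e1, Nat.cast_mul, e2]
      field_simp
  have h1 := main N hm le_rfl
  rw [Nat.sub_self, Nat.factorial_zero, Nat.cast_one, div_one] at h1
  have h2 : ∀ θ : Fin N → ℝ, pN N θ = (N.factorial : ℝ)⁻¹ * (dN N N θ).re := by
    intro θ
    rw [hVd N θ, Complex.ofReal_re, ← mul_assoc, inv_mul_cancel₀ (by positivity), one_mul]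
  have h3 : IMm.SS m b c m = {θ : Fin m → ℝ | ∀ a, θ a ∈ Set.Ico b c} := by
    ext θ
    simp only [IMm.SS, Set.mem_ofPred_eq]
    refine forall_congr' fun a => ?_
    rw [if_pos a.2]
  show ∫ θ in IMm.SS m b c N, pN N θ = _
  have h4 : ∫ θ in IMm.SS m b c N, pN N θ =
      ∫ θ in IMm.SS m b c N, (N.factorial : ℝ)⁻¹ * (dN N N θ).re :=
    setIntegral_congr_fun (IMm.meas_SS m b c N) fun θ _ => h2 θ
  rw [h4, integral_const_mul, h1, h3]
  ring

end Pool.Agent.Work.MP_7eec5e_nt.GG
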