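import Pool.Agent.Work.MP_7eec5e_nt.GG.Stmts

/-!
# MP_7eec5e_nt, block GG, item Mx: clustering of the correlation functions
-/

set_option autoImplicit false

namespace Pool.Agent.Work.MP_7eec5e_nt.GG

open MeasureTheory Filter Topology Finset

namespace IMx

/-- two copies of `Fin n → ℝ` and `Fin (n + n) → ℝ` -/
noncomputable def ee (n : ℕ) : (Fin n → ℝ) × (Fin n → ℝ) ≃ᵐ (Fin (n + n) → ℝ) :=
  (MeasurableEquiv.sumPiEquivProdPi (fun _ : Fin n ⊕ Fin n => ℝ)).symm.trans
    (MeasurableEquiv.piCongrLeft (fun _ : Fin (n + n) => ℝ) finSumFinEquiv)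

theorem ee_mp (n : ℕ) : MeasurePreserving (ee n) volume volume :=
  (volume_measurePreserving_piCongrLeft (fun _ : Fin (n + n) => ℝ) finSumFinEquiv).comp
    (volume_measurePreserving_sumPiEquivProdPi_symm (fun _ : Fin n ⊕ Fin n => ℝ))

theorem ee_l (n : ℕ) (p : (Fin n → ℝ) × (Fin n → ℝ)) (a : Fin n) :
    ee n p (Fin.castAdd n a) = p.1 a := by
  have h := MeasurableEquiv.piCongrLeft_apply_apply (finSumFinEquiv : Fin n ⊕ Fin n ≃ Fin (n + n))
    (β := fun _ => ℝ)
    ((MeasurableEquiv.sumPiEquivProdPi (fun _ : Fin n ⊕ Fin n => ℝ)).symm p) (Sum.inl a)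
  rw [finSumFinEquiv_apply_left] at h
  exact h

theorem ee_r (n : ℕ) (p : (Fin n → ℝ) × (Fin n → ℝ)) (a : Fin n) :
    ee n p (Fin.natAdd n a) = p.2 a := by
  have h := MeasurableEquiv.piCongrLeft_apply_apply (finSumFinEquiv : Fin n ⊕ Fin n ≃ Fin (n + n))
    (β := fun _ => ℝ)
    ((MeasurableEquiv.sumPiEquivProdPi (fun _ : Fin n ⊕ Fin n => ℝ)).symm p) (Sum.inr a)
  rw [finSumFinEquiv_apply_right] at h
  exact h

theorem ee_cont (n : ℕ) : Continuous (ee n) := by
  refine continuous_pi fun i => ?_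
  refine Fin.addCases (fun a => ?_) (fun a => ?_) i
  · simp only [ee_l]
    exact (continuous_apply a).comp continuous_fst
  · simp only [ee_r]
    exact (continuous_apply a).comp continuous_snd

theorem rho_blocks (n : ℕ) (w : Fin (n + n) → ℝ) :
    rho (n + n) w = (Matrix.fromBlocks
      (Matrix.of fun i j : Fin n => sk (w (Fin.castAdd n i) - w (Fin.castAdd n j)))
      (Matrix.of fun i j : Fin n => sk (w (Fin.castAdd n i) - w (Fin.natAdd n j)))
      (Matrix.of fun i j : Fin n => sk (w (Fin.natAdd n i) - w (Fin.castAdd n j)))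
      (Matrix.of fun i j : Fin n => sk (w (Fin.natAdd n i) - w (Fin.natAdd n j)))).det := by
  unfold rho
  rw [← Matrix.det_submatrix_equiv_self (finSumFinEquiv : Fin n ⊕ Fin n ≃ Fin (n + n))]
  congr 1
  ext i j
  rcases i with i | i <;> rcases j with j | j <;> simp

theorem sk_abs (t : ℝ) (ht : t ≠ 0) : |sk t| ≤ (Real.pi * |t|)⁻¹ := by
  have hp := Real.pi_pos
  have h0 : Real.pi * t ≠ 0 := mul_ne_zero hp.ne' ht
  unfold sk
  rw [Real.sinc_of_ne_zero h0, abs_div, abs_mul, abs_of_pos hp, div_eq_mul_inv]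
  have h1 : (0 : ℝ) ≤ (Real.pi * |t|)⁻¹ := by positivity
  calc |Real.sin (Real.pi * t)| * (Real.pi * |t|)⁻¹ ≤ 1 * (Real.pi * |t|)⁻¹ :=
        mul_le_mul_of_nonneg_right (Real.abs_sin_le_one _) h1
    _ = _ := one_mul _

theorem sk_lim (c : ℝ) : Tendsto (fun h : ℝ => sk (c + h)) atTop (𝓝 0) := by
  have h1 : Tendsto (fun h : ℝ => (Real.pi * |c + h|)⁻¹) atTop (𝓝 0) := by
    refine tendsto_inv_atTop_zero.comp ?_
    refine Tendsto.const_mul_atTop Real.pi_pos ?_
    exact tendsto_abs_atTop_atTop.comp (tendsto_atTop_add_const_left _ c tendsto_id)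
  refine squeeze_zero_norm' ?_ h1
  filter_upwards [eventually_gt_atTop (-c)] with h hh
  exact sk_abs _ (by linarith [hh] |> fun h' : 0 < c + h => h'.ne')

theorem sk_even (t : ℝ) : sk (-t) = sk t := by
  unfold sk
  rw [mul_neg, Real.sinc_neg]

theorem rho_lim (n : ℕ) (p : (Fin n → ℝ) × (Fin n → ℝ)) :
    Tendsto (fun h : ℝ => rho (n + n) (ee n (p + (0, fun _ => h)))) atTop
      (𝓝 (rho n p.1 * rho n p.2)) := by
  have e1 : rho n p.1 * rho n p.2 = (Matrix.fromBlocks
      (Matrix.of fun i j : Fin n => sk (p.1 i - p.1 j)) (0 : Matrix (Fin n) (Fin n) ℝ)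
      (0 : Matrix (Fin n) (Fin n) ℝ)
      (Matrix.of fun i j : Fin n => sk (p.2 i - p.2 j))).det := by
    rw [Matrix.det_fromBlocks_zero₂₁]
    rfl
  have e2 : ∀ h : ℝ, rho (n + n) (ee n (p + (0, fun _ => h))) = (Matrix.fromBlocks
      (Matrix.of fun i j : Fin n => sk (p.1 i - p.1 j))
      (Matrix.of fun i j : Fin n => sk (-(p.1 i - p.2 j) + h))
      (Matrix.of fun i j : Fin n => sk (p.2 i - p.1 j + h))
      (Matrix.of fun i j : Fin n => sk (p.2 i - p.2 j))).det := by
    intro h
    rw [rho_blocks]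
    congr 1
    congr 1
    · ext i j
      simp only [ee_l, Matrix.of_apply, Prod.fst_add, Pi.add_apply, Pi.zero_apply, add_zero]
    · ext i j
      simp only [ee_l, ee_r, Matrix.of_apply, Prod.fst_add, Prod.snd_add, Pi.add_apply,
        Pi.zero_apply, add_zero]
      rw [← sk_even]
      congr 1
      ring
    · ext i j
      simp only [ee_l, ee_r, Matrix.of_apply, Prod.fst_add, Prod.snd_add, Pi.add_apply,
        Pi.zero_apply, add_zero]
      congr 1
      ring
    · ext i j
      simp only [ee_r, Matrix.of_apply, Prod.snd_add, Pi.add_apply]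
      congr 1
      ring
  rw [e1]
  simp only [e2]
  have hc : Continuous fun M : Matrix (Fin n ⊕ Fin n) (Fin n ⊕ Fin n) ℝ => M.det :=
    Continuous.matrix_det continuous_id
  refine (hc.tendsto _).comp ?_
  refine tendsto_pi_nhds.2 fun i => tendsto_pi_nhds.2 fun j => ?_
  rcases i with i | i <;> rcases j with j | j
  · simp
  · simpa using sk_lim (-(p.1 i - p.2 j))
  · simpa using sk_lim (p.2 i - p.1 j)
  · simp

theorem pr_ee (n : ℕ) (f : (Fin n → ℝ) → ℝ) (h : ℝ) (p : (Fin n → ℝ) × (Fin n → ℝ)) :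
    pr n f h (ee n (p + (0, fun _ => h))) = f p.1 * f p.2 := by
  unfold pr
  simp only [ee_l, ee_r, Prod.fst_add, Prod.snd_add, Pi.add_apply, Pi.zero_apply, add_zero,
    add_sub_cancel_right]

theorem pr_CC (hCc : StCc) (n : ℕ) (f : (Fin n → ℝ) → ℝ) (hf : CC n f) (h : ℝ) :
    CC (n + n) (pr n f h) := by
  obtain ⟨R, B, hR, _, hsp, _⟩ := (hCc n f).1 hf
  refine (hCc (n + n) (pr n f h)).2 (R + |h|) ?_ ?_
  · unfold pr
    refine (hf.1.comp (continuous_pi fun a => continuous_apply _)).mul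
      (hf.1.comp (continuous_pi fun a => (continuous_apply _).sub continuous_const))
  · intro y hy i
    unfold pr at hy
    have h1 := left_ne_zero_of_mul hy
    have h2 := right_ne_zero_of_mul hy
    refine Fin.addCases (fun a => ?_) (fun a => ?_) i
    · have := hsp _ h1 a
      have h3 := abs_nonneg h
      linarith
    · have h3 := hsp _ h2 a
      have h4 : |y (Fin.natAdd n a)| ≤ |y (Fin.natAdd n a) - h| + |h| := by
        have := abs_add_le (y (Fin.natAdd n a) - h) h
        simpa using this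
      linarith

end IMx

open IMx in
theorem prMx (hCc : StCc) (hRc : StRc) (hPs : StPs) : StMx := by
  intro n f hf
  refine ⟨fun h => pr_CC hCc n f hf h, ?_⟩
  have e1 : ∀ h : ℝ, ∫ y : Fin (n + n) → ℝ, pr n f h y * rho (n + n) y =
      ∫ p : (Fin n → ℝ) × (Fin n → ℝ), f p.1 * f p.2 *
        rho (n + n) (ee n (p + (0, fun _ => h))) := by
    intro h
    rw [← (ee_mp n).integral_comp' (fun y => pr n f h y * rho (n + n) y)]
    have h1 := integral_add_left_eq_self
      (μ := ((volume : Measure (Fin n → ℝ)).prod (volume : Measure (Fin n → ℝ))))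
      (fun p => pr n f h (ee n p) * rho (n + n) (ee n p)) (0, fun _ => h)
    rw [Measure.volume_eq_prod, ← h1]
    refine integral_congr_ae (Filter.Eventually.of_forall fun p => ?_)
    show pr n f h (ee n ((0, fun _ => h) + p)) * rho (n + n) (ee n ((0, fun _ => h) + p)) = _
    rw [add_comm _ p, pr_ee]
  have hfi : Integrable f := hf.1.integrable_of_hasCompactSupport hf.2
  have e2 : (∫ y : Fin n → ℝ, f y * rho n y) ^ 2 =
      ∫ p : (Fin n → ℝ) × (Fin n → ℝ), f p.1 * f p.2 * (rho n p.1 * rho n p.2) := by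
    rw [sq, ← integral_prod_mul (fun y => f y * rho n y) (fun y => f y * rho n y)]
    refine integral_congr_ae (Filter.Eventually.of_forall fun p => ?_)
    show f p.1 * rho n p.1 * (f p.2 * rho n p.2) = f p.1 * f p.2 * (rho n p.1 * rho n p.2)
    ring
  rw [e2]
  simp only [e1]
  refine tendsto_integral_filter_of_dominated_convergence (fun p => |f p.1| * |f p.2|) ?_ ?_ ?_ ?_
  · refine Filter.Eventually.of_forall fun h => Continuous.aestronglyMeasurable ?_
    refine ((hf.1.comp continuous_fst).mul (hf.1.comp continuous_snd)).mul ?_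
    exact (hRc (n + n)).1.comp ((ee_cont n).comp (continuous_id.add continuous_const))
  · refine Filter.Eventually.of_forall fun h => Filter.Eventually.of_forall fun p => ?_
    obtain ⟨h0, h1⟩ := hPs (n + n) (ee n (p + (0, fun _ => h)))
    rw [norm_mul, norm_mul, Real.norm_eq_abs, Real.norm_eq_abs, Real.norm_eq_abs, abs_of_nonneg h0]
    exact mul_le_of_le_one_right (by positivity) h1
  · exact Integrable.mul_prod hfi.abs hfi.abs
  · exact Filter.Eventually.of_forall fun p => (rho_lim n p).const_mul _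

end Pool.Agent.Work.MP_7eec5e_nt.GG
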