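import Pool.Agent.Work.MP_7eec5e_nt.GG.Stmts

/-!
# MP_7eec5e_nt, block GG, item Ps: the correlation functions are between `0` and `1`
-/

set_option autoImplicit false

namespace Pool.Agent.Work.MP_7eec5e_nt.GG

open MeasureTheory Filter Topology Finset

namespace IPs

theorem amgm (n : ℕ) (hn : 0 < n) (z : Fin n → ℝ) (hz : ∀ i, 0 ≤ z i) :
    ∏ i, z i ≤ ((∑ i, z i) / n) ^ n := by
  have hn0 : (0 : ℝ) < n := by exact_mod_cast hn
  have h1 := Real.geom_mean_le_arith_mean (Finset.univ : Finset (Fin n)) (fun _ => (1 : ℝ)) z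
    (fun _ _ => zero_le_one) (by simpa using hn) (fun i _ => hz i)
  simp only [Real.rpow_one, one_mul, Finset.sum_const, Finset.card_univ, Fintype.card_fin,
    nsmul_eq_mul, mul_one] at h1
  have hp : 0 ≤ ∏ i, z i := Finset.prod_nonneg fun i _ => hz i
  calc ∏ i, z i = ((∏ i, z i) ^ ((n : ℝ)⁻¹)) ^ n := by
        rw [← Real.rpow_natCast, ← Real.rpow_mul hp, inv_mul_cancel₀ hn0.ne', Real.rpow_one]
    _ ≤ _ := pow_le_pow_left₀ (Real.rpow_nonneg hp _) h1 n

theorem det_bd (n : ℕ) (M : Matrix (Fin n) (Fin n) ℝ) (hM : M.PosSemidef)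
    (ht : M.trace = n) : 0 ≤ M.det ∧ M.det ≤ 1 := by
  refine ⟨hM.det_nonneg, ?_⟩
  rcases Nat.eq_zero_or_pos n with h0 | h0
  · subst h0
    simp
  · have hn0 : (n : ℝ) ≠ 0 := by exact_mod_cast h0.ne'
    have h1 := amgm n h0 hM.1.eigenvalues hM.eigenvalues_nonneg
    have h2 : ∑ i, hM.1.eigenvalues i = n := by
      have := hM.1.trace_eq_sum_eigenvalues
      rw [ht] at this
      exact_mod_cast this.symm
    have h3 : M.det = ∏ i, hM.1.eigenvalues i := by
      have := hM.1.det_eq_prod_eigenvalues
      exact_mod_cast this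
    rw [h3]
    refine h1.trans ?_
    rw [h2, div_self hn0, one_pow]

theorem sk_int (t : ℝ) : sk t = ∫ v in (-(1 / 2 : ℝ))..(1 / 2), Real.cos (2 * Real.pi * t * v) := by
  have hp := Real.pi_pos
  by_cases ht : t = 0
  · subst ht
    unfold sk
    simp
    norm_num
  · have h0 : 2 * Real.pi * t ≠ 0 := by positivity
    rw [intervalIntegral.integral_comp_mul_left (fun v => Real.cos v) h0, integral_cos]
    unfold sk
    rw [Real.sinc_of_ne_zero (mul_ne_zero hp.ne' ht)]
    have e1 : 2 * Real.pi * t * (1 / 2) = Real.pi * t := by ring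
    have e2 : 2 * Real.pi * t * (-(1 / 2)) = -(Real.pi * t) := by ring
    rw [e1, e2, Real.sin_neg, smul_eq_mul]
    field_simp
    ring

theorem psd (n : ℕ) (y : Fin n → ℝ) :
    (Matrix.of fun i j : Fin n => sk (y i - y j)).PosSemidef := by
  refine Matrix.PosSemidef.of_dotProduct_mulVec_nonneg ?_ fun c => ?_
  · ext i j
    rw [Matrix.conjTranspose_apply, Matrix.of_apply, Matrix.of_apply, star_trivial]
    unfold sk
    rw [← Real.sinc_neg]
    congr 1
    ring
  · have e1 : star c ⬝ᵥ (Matrix.of fun i j : Fin n => sk (y i - y j)).mulVec c =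
        ∫ v in (-(1 / 2 : ℝ))..(1 / 2), ((∑ j, c j * Real.cos (2 * Real.pi * y j * v)) ^ 2 +
          (∑ j, c j * Real.sin (2 * Real.pi * y j * v)) ^ 2) := by
      have e2 : ∀ v : ℝ, (∑ j, c j * Real.cos (2 * Real.pi * y j * v)) ^ 2 +
          (∑ j, c j * Real.sin (2 * Real.pi * y j * v)) ^ 2 =
          ∑ i, ∑ j, c i * c j * Real.cos (2 * Real.pi * (y i - y j) * v) := by
        intro v
        rw [sq, sq, Finset.sum_mul_sum, Finset.sum_mul_sum, ← Finset.sum_add_distrib]
        refine Finset.sum_congr rfl fun i _ => ?_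
        rw [← Finset.sum_add_distrib]
        refine Finset.sum_congr rfl fun j _ => ?_
        have : 2 * Real.pi * (y i - y j) * v = 2 * Real.pi * y i * v - 2 * Real.pi * y j * v := by
          ring
        rw [this, Real.cos_sub]
        ring
      have hc : ∀ i j : Fin n, Continuous fun v : ℝ =>
          c i * c j * Real.cos (2 * Real.pi * (y i - y j) * v) := fun i j =>
        continuous_const.mul (Real.continuous_cos.comp (continuous_const.mul continuous_id))
      simp only [e2]
      rw [intervalIntegral.integral_finsetSum fun i _ => Continuous.intervalIntegrable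
        (continuous_finsetSum _ fun j _ => hc i j) _ _]
      rw [dotProduct]
      refine Finset.sum_congr rfl fun i _ => ?_
      rw [intervalIntegral.integral_finsetSum fun j _ => (hc i j).intervalIntegrable _ _]
      rw [Matrix.mulVec, dotProduct, Finset.mul_sum]
      refine Finset.sum_congr rfl fun j _ => ?_
      rw [intervalIntegral.integral_const_mul, ← sk_int]
      simp only [Matrix.of_apply, star_trivial]
      ring
    rw [e1]
    refine intervalIntegral.integral_nonneg (by norm_num) fun v _ => ?_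
    positivity

end IPs

open IPs in
theorem prPs : StPs := by
  intro n y
  refine det_bd n _ (psd n y) ?_
  simp [Matrix.trace, sk]

end Pool.Agent.Work.MP_7eec5e_nt.GG
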