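import Pool.Agent.Work.MP_7eec5e_nt.GG.Stmts2

/-!
# MP_7eec5e_nt, block GG, item Q1: from the families to the Gram intervals
-/

set_option autoImplicit false

namespace Pool.Agent.Work.MP_7eec5e_nt.GG

open MeasureTheory Filter Topology Finset

namespace IQ1

/-- two properties which agree from `j₁` on have the same density -/
theorem card_close (p q : ℕ → Prop) [DecidablePred p] [DecidablePred q] (j₁ : ℕ)
    (h : ∀ j, j₁ ≤ j → (p j ↔ q j)) (M : ℕ) :
    |(((range M).filter p).card : ℝ) - (((range M).filter q).card : ℝ)| ≤ j₁ := by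
  have key : ∀ (p q : ℕ → Prop) [DecidablePred p] [DecidablePred q],
      (∀ j, j₁ ≤ j → (p j ↔ q j)) →
      ((range M).filter p).card ≤ ((range M).filter q).card + j₁ := by
    intro p q _ _ h
    have hsub : (range M).filter p ⊆ (range M).filter q ∪ range j₁ := by
      intro j hj
      rw [mem_filter] at hj
      rw [mem_union, mem_filter]
      by_cases hj1 : j < j₁
      · exact Or.inr (mem_range.2 hj1)
      · exact Or.inl ⟨hj.1, (h j (not_lt.1 hj1)).1 hj.2⟩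
    calc ((range M).filter p).card ≤ ((range M).filter q ∪ range j₁).card := card_le_card hsub
      _ ≤ ((range M).filter q).card + (range j₁).card := card_union_le _ _
      _ = ((range M).filter q).card + j₁ := by rw [card_range]
  have h1 := key p q h
  have h2 := key q p fun j hj => (h j hj).symm
  have h1' : (((range M).filter p).card : ℝ) ≤ ((range M).filter q).card + j₁ := by
    exact_mod_cast h1
  have h2' : (((range M).filter q).card : ℝ) ≤ ((range M).filter p).card + j₁ := by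
    exact_mod_cast h2
  rw [abs_le]
  constructor <;> linarith

end IQ1

open IQ1 in
theorem prQ1 (hGm : StGm) (hLf : StLf) (hF1 : StF1) (hF3 : StF3) (hD3 : StD3) : StQ1 := by
  classical
  intro ϑ g hϑ hg hU k
  have hx : LF (xz ϑ) := hLf ϑ g hϑ hg
  have hS : Smp (xz ϑ) 0 1 := hD3 (xz ϑ) hx hU 0 1 le_rfl one_pos
  obtain ⟨-, -, j₁, hj₁⟩ := hGm ϑ g hϑ hg
  obtain ⟨N, hN⟩ : ∃ N : ℕ → ℕ, N = fun j : ℕ =>
      {i | (j : ℝ) ≤ xz ϑ i ∧ xz ϑ i < j + 1}.ncard := ⟨_, rfl⟩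
  have h3 := hF3 N (by rw [hN]; exact hF1 (xz ϑ) hx hS) k
  have hfin : ∀ j : ℕ, {z : CZ | (j : ℝ) ≤ xz ϑ z ∧ xz ϑ z < j + 1}.Finite := by
    intro j
    refine (hx (j + 1)).subset fun z hz => ?_
    have h0 : (0 : ℝ) ≤ j := Nat.cast_nonneg j
    show |xz ϑ z| ≤ j + 1
    rw [abs_le]
    constructor <;> linarith [hz.1, hz.2]
  have hiff : ∀ j : ℕ, j₁ ≤ j →
      ({z : CZ | g j ≤ (z.1 : ℝ) ∧ (z.1 : ℝ) < g (j + 1)}.encard = (k : ℕ∞) ↔ N j = k) := by
    intro j hj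
    have hset : {z : CZ | g j ≤ (z.1 : ℝ) ∧ (z.1 : ℝ) < g (j + 1)} =
        {z : CZ | (j : ℝ) ≤ xz ϑ z ∧ xz ϑ z < j + 1} := by
      ext z
      exact hj₁ j hj (z.1 : ℝ) z.1.2
    rw [hset, ← (hfin j).cast_ncard_eq, hN]
    exact Nat.cast_inj
  have h4 : Tendsto (fun M : ℕ => (j₁ : ℝ) * (M : ℝ)⁻¹) atTop (𝓝 0) := by
    have := (tendsto_inv_atTop_nhds_zero_nat (𝕜 := ℝ)).const_mul (j₁ : ℝ)
    rwa [mul_zero] at this
  have h5 : Tendsto (fun M : ℕ => Gp g M k - (M : ℝ)⁻¹ *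
      (((range M).filter fun j : ℕ => N j = k).card : ℝ)) atTop (𝓝 0) := by
    refine squeeze_zero_norm (fun M => ?_) h4
    rw [Real.norm_eq_abs]
    have h6 := card_close (fun j : ℕ => {z : CZ | g j ≤ (z.1 : ℝ) ∧ (z.1 : ℝ) < g (j + 1)}.encard =
        (k : ℕ∞)) (fun j : ℕ => N j = k) j₁ hiff M
    have h7 : Gp g M k - (M : ℝ)⁻¹ * (((range M).filter fun j : ℕ => N j = k).card : ℝ) =
        (M : ℝ)⁻¹ * ((((range M).filter fun j : ℕ =>
          {z : CZ | g j ≤ (z.1 : ℝ) ∧ (z.1 : ℝ) < g (j + 1)}.encard = (k : ℕ∞)).card : ℝ) -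
        (((range M).filter fun j : ℕ => N j = k).card : ℝ)) := by
      unfold Gp
      rw [mul_sub]
    rw [h7, abs_mul, abs_of_nonneg (inv_nonneg.2 (Nat.cast_nonneg M)), mul_comm (j₁ : ℝ)]
    exact mul_le_mul_of_nonneg_left h6 (inv_nonneg.2 (Nat.cast_nonneg M))
  have h8 := h5.add h3
  rw [zero_add] at h8
  refine h8.congr fun M => ?_
  rw [sub_add_cancel]

end Pool.Agent.Work.MP_7eec5e_nt.GG
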