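import Pool.Agent.Work.MP_7eec5e_nt.GG.Stmts

/-!
# Item Rc of block GG (MP_7eec5e_nt)

The sine kernel determinant is continuous and depends only on differences.
-/

set_option autoImplicit false

namespace Pool.Agent.Work.MP_7eec5e_nt.GG

namespace IRc

lemma continuous_sk : Continuous sk := by
  unfold sk
  exact Real.continuous_sinc.comp (continuous_const.mul continuous_id)

lemma continuous_rho (n : ℕ) : Continuous (rho n) := by
  unfold rho
  refine Continuous.matrix_det ?_
  refine continuous_matrix fun i j => ?_
  simp only [Matrix.of_apply]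
  exact continuous_sk.comp ((continuous_apply i).sub (continuous_apply j))

lemma rho_add (n : ℕ) (y : Fin n → ℝ) (t : ℝ) : rho n (fun a => y a + t) = rho n y := by
  unfold rho
  congr 1
  ext i j
  simp only [Matrix.of_apply, add_sub_add_right_eq_sub]

end IRc

theorem prRc : StRc := by
  intro n
  refine ⟨IRc.continuous_rho n, fun y t => IRc.rho_add n y t, fun y t => ?_⟩
  rw [← IRc.rho_add (n + 1) (Fin.cons 0 y) t]
  congr 1
  funext a
  refine Fin.cases ?_ (fun a => ?_) a
  · simp
  · simp

end Pool.Agent.Work.MP_7eec5e_nt.GG
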