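import Pool.Agent.Work.MP_7eec5e_nt.GG.Stmts

/-! Block GG, item Tf. -/

set_option autoImplicit false

namespace Pool.Agent.Work.MP_7eec5e_nt.GG

open MeasureTheory Filter Topology Finset

namespace ITf

lemma tent_cont : Continuous tent := by
  unfold tent
  fun_prop

lemma tent_nonneg (t : ℝ) : 0 ≤ tent t := le_max_left _ _

lemma tent_zero {t : ℝ} (h : tent t ≠ 0) : |t| ≤ 1 := by
  by_contra hc
  push Not at hc
  apply h
  unfold tent
  exact max_eq_left (by linarith)

lemma tent_integral : ∫ t : ℝ, tent t = 1 := by
  have h1 : ∫ t : ℝ, tent t = ∫ t in (-1 : ℝ)..1, tent t := by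
    rw [intervalIntegral.integral_of_le (by norm_num)]
    symm
    apply setIntegral_eq_integral_of_forall_compl_eq_zero
    intro t ht
    by_contra hne
    have h2 := tent_zero hne
    rw [abs_le] at h2
    by_cases h3 : t = -1
    · apply hne
      rw [h3]
      unfold tent
      norm_num
    · exact ht ⟨lt_of_le_of_ne h2.1 (Ne.symm h3), h2.2⟩
  rw [h1]
  have h2 : ∫ t in (-1 : ℝ)..1, tent t = (∫ t in (-1 : ℝ)..0, tent t) + ∫ t in (0 : ℝ)..1, tent t :=
    (intervalIntegral.integral_add_adjacent_intervals (tent_cont.intervalIntegrable _ _)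
      (tent_cont.intervalIntegrable _ _)).symm
  have h3 : ∫ t in (-1 : ℝ)..0, tent t = ∫ t in (-1 : ℝ)..0, (1 + t) := by
    apply intervalIntegral.integral_congr
    intro t ht
    rw [Set.uIcc_of_le (by norm_num)] at ht
    show tent t = 1 + t
    unfold tent
    rw [abs_of_nonpos ht.2, max_eq_right (by linarith [ht.1])]
    ring
  have h4 : ∫ t in (0 : ℝ)..1, tent t = ∫ t in (0 : ℝ)..1, (1 - t) := by
    apply intervalIntegral.integral_congr
    intro t ht
    rw [Set.uIcc_of_le (by norm_num)] at ht
    show tent t = 1 - t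
    unfold tent
    rw [abs_of_nonneg ht.1, max_eq_right (by linarith [ht.2])]
  rw [h2, h3, h4, intervalIntegral.integral_add intervalIntegrable_const
    intervalIntegral.intervalIntegrable_id, intervalIntegral.integral_sub intervalIntegrable_const
    intervalIntegral.intervalIntegrable_id]
  simp only [intervalIntegral.integral_const, integral_id]
  norm_num

end ITf

theorem prTf : StTf := by
  intro n f R hf hS hR
  refine ⟨?_, ?_, ?_, ?_⟩
  · unfold tf
    refine (ITf.tent_cont.comp (continuous_apply 0)).mul (hf.comp ?_)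
    fun_prop
  · intro y hy
    have h1 : tent (y 0) ≠ 0 := left_ne_zero_of_mul hy
    have h2 : f (fun a => y a.succ - y 0) ≠ 0 := right_ne_zero_of_mul hy
    have h3 := ITf.tent_zero h1
    intro a
    refine Fin.cases ?_ (fun b => ?_) a
    · linarith
    · have h4 : |y b.succ - y 0| ≤ R := hS _ h2 b
      have h5 : y b.succ = (y b.succ - y 0) + y 0 := by ring
      rw [h5]
      exact (abs_add_le _ _).trans (by linarith)
  · funext y
    show ∫ t : ℝ, tf n f (Fin.cons t fun a => y a + t) = f y
    have h1 : (fun t : ℝ => tf n f (Fin.cons t fun a => y a + t)) = fun t => tent t * f y := by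
      funext t
      unfold tf
      rw [Fin.cons_zero]
      congr 1
      congr 1
      funext a
      rw [Fin.cons_succ]
      ring
    rw [h1, integral_mul_const, ITf.tent_integral, one_mul]
  · intro h y
    exact mul_nonneg (ITf.tent_nonneg _) (h _)

end Pool.Agent.Work.MP_7eec5e_nt.GG
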