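import Pool.Agent.Work.MP_7eec5e_nt.GG.Stmts2

/-!
# MP_7eec5e_nt, block GG (captain helper89), item Vd (helper59): the density is a determinant
-/

set_option autoImplicit false

namespace Pool.Agent.Work.MP_7eec5e_nt.GG

open MeasureTheory Filter Topology Finset

theorem prVd : StVd := by
  intro N θ
  set z : Fin N → ℂ := fun i => Complex.exp (θ i * Complex.I) with hz
  have hM : (Matrix.of fun i j : Fin N => KN N (θ i - θ j)) =
      (2 * Real.pi : ℂ)⁻¹ • (Matrix.vandermonde z * (Matrix.vandermonde z).conjTranspose) := by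
    ext i j
    have key : ∀ a : ℕ, Complex.exp (a * ((θ i - θ j : ℝ) : ℂ) * Complex.I) =
        z i ^ a * (star (z j)) ^ a := by
      intro a
      have h1 : star (z j) = Complex.exp (-(θ j * Complex.I)) := by
        show (starRingEnd ℂ) (Complex.exp (θ j * Complex.I)) = _
        rw [← Complex.exp_conj]
        congr 1
        simp
      have h2 : z i = Complex.exp (θ i * Complex.I) := rfl
      rw [h1, h2, ← Complex.exp_nat_mul, ← Complex.exp_nat_mul, ← Complex.exp_add]
      congr 1
      push_cast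
      ring
    simp only [Matrix.of_apply, Matrix.smul_apply, Matrix.mul_apply, Matrix.conjTranspose_apply,
      Matrix.vandermonde_apply, smul_eq_mul, KN]
    rw [Finset.sum_range]
    congr 1
    refine Finset.sum_congr rfl fun a _ => ?_
    rw [star_pow]
    exact key a
  have h3 : ‖∏ i, ∏ j ∈ Finset.Ioi i, (z j - z i)‖ ^ 2 =
      ∏ j : Fin N, ∏ l ∈ Finset.Ioi j, ‖z j - z l‖ ^ 2 := by
    rw [norm_prod, ← Finset.prod_pow]
    refine Finset.prod_congr rfl fun i _ => ?_
    rw [norm_prod, ← Finset.prod_pow]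
    refine Finset.prod_congr rfl fun j _ => ?_
    rw [norm_sub_rev]
  have h4 : (N.factorial * pN N θ : ℝ) =
      ((2 * Real.pi) ^ N)⁻¹ * ∏ j : Fin N, ∏ l ∈ Finset.Ioi j, ‖z j - z l‖ ^ 2 := by
    have hf : (N.factorial : ℝ) ≠ 0 := by exact_mod_cast N.factorial_ne_zero
    have hp : ((2 * Real.pi) ^ N : ℝ) ≠ 0 := pow_ne_zero _ (by positivity)
    have h5 : pN N θ = (∏ j : Fin N, ∏ l ∈ Finset.Ioi j, ‖z j - z l‖ ^ 2) /
      ((2 * Real.pi) ^ N * N.factorial) := rfl
    rw [h5]
    field_simp
  rw [h4, ← h3]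
  unfold dN
  rw [hM, Matrix.det_smul, Matrix.det_mul, Matrix.det_conjTranspose, Fintype.card_fin,
    Matrix.det_vandermonde, Complex.star_def, Complex.mul_conj']
  push_cast
  rw [inv_pow]

end Pool.Agent.Work.MP_7eec5e_nt.GG
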