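import Pool.Agent.Work.MP_7eec5e_nt.GG.Stmts2

set_option autoImplicit false

namespace Pool.Agent.Work.MP_7eec5e_nt.GG

open MeasureTheory Filter Topology Finset

namespace IZf

lemma ana : AnalyticOnNhd ℂ riemannZeta {1}ᶜ := by
  apply DifferentiableOn.analyticOnNhd
  · intro s hs
    exact (differentiableAt_riemannZeta hs).differentiableWithinAt
  · exact isOpen_compl_singleton

lemma pt_ne (t : ℝ) : (1 / 2 + t * Complex.I : ℂ) ≠ 1 := by
  intro h
  have := congrArg Complex.re h
  simp at this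

lemma zero_of_mult (t : ℝ) (h : mult t ≠ 0) : riemannZeta (1 / 2 + t * Complex.I) = 0 := by
  by_contra hz
  apply h
  have hA : AnalyticAt ℂ riemannZeta (1 / 2 + t * Complex.I) := ana _ (pt_ne t)
  have h0 : analyticOrderAt riemannZeta (1 / 2 + t * Complex.I) = 0 :=
    hA.analyticOrderAt_eq_zero.2 hz
  unfold mult analyticOrderNatAt
  rw [h0]
  rfl

lemma conn : IsPreconnected ({1}ᶜ : Set ℂ) := by
  apply IsConnected.isPreconnected
  apply isConnected_compl_singleton_of_one_lt_rank
  rw [Complex.rank_real_complex]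
  exact_mod_cast Nat.one_lt_ofNat

end IZf

open IZf in
theorem prZf : StZf := by
  intro T
  by_contra hinf
  have hinf' : {t : ℝ | 0 < t ∧ t ≤ T ∧ mult t ≠ 0}.Infinite := hinf
  obtain ⟨a, ha, hacc⟩ := hinf'.exists_accPt_of_subset_isCompact (isCompact_Icc (a := (0:ℝ)) (b := T))
    (fun t ht => ⟨ht.1.le, ht.2.1⟩)
  rw [accPt_iff_frequently_nhdsNE] at hacc
  have hmap : Tendsto (fun t : ℝ => (1 / 2 + t * Complex.I : ℂ)) (𝓝[≠] a)
      (𝓝[≠] (1 / 2 + a * Complex.I : ℂ)) := by
    apply tendsto_nhdsWithin_of_tendsto_nhds_of_eventually_within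
    · have hc : Continuous (fun t : ℝ => (1 / 2 + t * Complex.I : ℂ)) := by fun_prop
      exact (hc.tendsto a).mono_left nhdsWithin_le_nhds
    · filter_upwards [self_mem_nhdsWithin] with t ht
      intro h
      apply ht
      have := congrArg Complex.im h
      simpa using this
  have hfr : ∃ᶠ z in 𝓝[≠] (1 / 2 + a * Complex.I : ℂ), riemannZeta z = (0 : ℂ → ℂ) z := by
    apply hmap.frequently
    apply hacc.mono
    intro t ht
    exact zero_of_mult t ht.2.2
  have hEq := ana.eqOn_of_preconnected_of_frequently_eq (analyticOnNhd_const (v := (0:ℂ)))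
    conn (pt_ne a) hfr
  have h2 : riemannZeta 2 = 0 := by
    have : (2 : ℂ) ∈ ({1}ᶜ : Set ℂ) := by
      simp
    exact hEq this
  exact riemannZeta_ne_zero_of_one_le_re (s := 2) (by norm_num) h2

end Pool.Agent.Work.MP_7eec5e_nt.GG
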