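import Pool.Agent.Work.MP_7eec5e_nt.GG.Main
import Pool.Agent.Work.MP_7eec5e_nt.GG.I_A1
import Pool.Agent.Work.MP_7eec5e_nt.GG.I_A2
import Pool.Agent.Work.MP_7eec5e_nt.GG.I_A3
import Pool.Agent.Work.MP_7eec5e_nt.GG.I_A4
import Pool.Agent.Work.MP_7eec5e_nt.GG.I_A5
import Pool.Agent.Work.MP_7eec5e_nt.GG.I_A7
import Pool.Agent.Work.MP_7eec5e_nt.GG.I_B0
import Pool.Agent.Work.MP_7eec5e_nt.GG.I_B1
import Pool.Agent.Work.MP_7eec5e_nt.GG.I_B4
import Pool.Agent.Work.MP_7eec5e_nt.GG.I_Bd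
import Pool.Agent.Work.MP_7eec5e_nt.GG.I_Bf
import Pool.Agent.Work.MP_7eec5e_nt.GG.I_C1
import Pool.Agent.Work.MP_7eec5e_nt.GG.I_C5
import Pool.Agent.Work.MP_7eec5e_nt.GG.I_D1
import Pool.Agent.Work.MP_7eec5e_nt.GG.I_D2
import Pool.Agent.Work.MP_7eec5e_nt.GG.I_D3
import Pool.Agent.Work.MP_7eec5e_nt.GG.I_E1
import Pool.Agent.Work.MP_7eec5e_nt.GG.I_F0
import Pool.Agent.Work.MP_7eec5e_nt.GG.I_F3
import Pool.Agent.Work.MP_7eec5e_nt.GG.I_Fb
import Pool.Agent.Work.MP_7eec5e_nt.GG.I_Gm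
import Pool.Agent.Work.MP_7eec5e_nt.GG.I_Ie
import Pool.Agent.Work.MP_7eec5e_nt.GG.I_Io
import Pool.Agent.Work.MP_7eec5e_nt.GG.I_Kp
import Pool.Agent.Work.MP_7eec5e_nt.GG.I_Lf
import Pool.Agent.Work.MP_7eec5e_nt.GG.I_Lm
import Pool.Agent.Work.MP_7eec5e_nt.GG.I_Mm
import Pool.Agent.Work.MP_7eec5e_nt.GG.I_Mx
import Pool.Agent.Work.MP_7eec5e_nt.GG.I_Ps
import Pool.Agent.Work.MP_7eec5e_nt.GG.I_Q1
import Pool.Agent.Work.MP_7eec5e_nt.GG.I_Rc
import Pool.Agent.Work.MP_7eec5e_nt.GG.I_Sh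
import Pool.Agent.Work.MP_7eec5e_nt.GG.I_Tf
import Pool.Agent.Work.MP_7eec5e_nt.GG.I_Vd
import Pool.Agent.Work.MP_7eec5e_nt.GG.I_Zf

/-!
# MP_7eec5e_nt, block GG: the theorem, all items put together
-/

set_option autoImplicit false

namespace Pool.Agent.Work.MP_7eec5e_nt.GG

open MeasureTheory Filter Topology Finset

theorem alA1 : StA1 := prA1
theorem alA2 : StA2 := prA2
theorem alA3 : StA3 := prA3
theorem alA4 : StA4 := prA4
theorem alA5 : StA5 := prA5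
theorem alA7 : StA7 := prA7
theorem alA8 : StA8 := prA8
theorem alA9 : StA9 := prA9 alA1 alA7
theorem alB0 : StB0 := prB0
theorem alB4 : StB4 := prB4
theorem alBd : StBd := prBd
theorem alBf : StBf := prBf
theorem alBr : StBr := prBr
theorem alCb : StCb := prCb
theorem alCc : StCc := prCc
theorem alC1 : StC1 := prC1 alA2 alA3 alA5 alA7 alCc alCb
theorem alD2 : StD2 := prD2
theorem alGm : StGm := prGm
theorem alIo : StIo := prIo alBd
theorem alKp : StKp := prKp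
theorem alKb : StKb := prKb alKp
theorem alLm : StLm := prLm alKp
theorem alPs : StPs := prPs
theorem alF2 : StF2 := prF2 alPs
theorem alF3 : StF3 := prF3 alBf alF2
theorem alRc : StRc := prRc
theorem alE1 : StE1 := prE1 alA5 alA7 alCc alCb alRc
theorem alF0 : StF0 := prF0 alRc alPs
theorem alF1 : StF1 := prF1 alA7 alA8 alCc alF0
theorem alFb : StFb := prFb alRc
theorem alB1 : StB1 := prB1 alCc alCb alBr alFb alB0
theorem alMx : StMx := prMx alCc alRc alPs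
theorem alSh : StSh := prSh
theorem alC5 : StC5 := prC5 alSh
theorem alD1 : StD1 := prD1 alSh alD2
theorem alD3 : StD3 := prD3 alA1 alA4 alA5 alA9 alCc alMx alC1 alC5 alD1
theorem alTf : StTf := prTf
theorem alB2 : StB2 := prB2 alCc alCb alTf alFb alB0 alB4
theorem alVd : StVd := prVd
theorem alMm : StMm := prMm alVd alIo
theorem alIe : StIe := prIe alVd alMm
theorem alEl : StEl := prEl alIe alKb alLm
theorem alZf : StZf := prZf
theorem alLf : StLf := prLf alGm alZf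
theorem alQ1 : StQ1 := prQ1 alGm alLf alF1 alF3 alD3

theorem all :
    (∀ (ι : Type) (x : ι → ℝ), LF x → ∀ a h : ℝ, 0 ≤ a → 0 < h → (Gue x ↔ Smp x a h)) ∧
    ∀ (ϑ : ℝ → ℝ) (g : ℕ → ℝ), IsTheta ϑ → IsGram ϑ g →
      (Gue (xz ϑ) ↔ Smp (xz ϑ) 0 1) ∧
      (Gue (xz ϑ) → ∀ k : ℕ, ∃ e : ℝ,
        (∀ b : ℕ → ℝ, (∀ᶠ N : ℕ in atTop, -Real.pi ≤ b N ∧ b N + 2 * Real.pi / N ≤ Real.pi) →
          Tendsto (fun N : ℕ => EU N k (b N)) atTop (𝓝 e)) ∧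
        Tendsto (fun M : ℕ => Gp g M k) atTop (𝓝 e)) :=
  main alB1 alB2 alD3 alE1 alLf alQ1 alEl

end Pool.Agent.Work.MP_7eec5e_nt.GG
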