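import Mathlib

/-!
# MP_7eec5e_nt, block GG: Fujii's conjecture and the correlations of zeros. Definitions

`x : ι → ℝ` is a family of real numbers (a multiset), for zeta the numbers `ϑ(γ)/π`, `γ` the ordinates of
the zeros on the critical line with multiplicity. `rho n` are the correlation functions of the sine
process. `W x n f u` is the sum of `f (x_{s 0} - u, ..., x_{s (n-1)} - u)` over all `n`-tuples `s` of
different indices.
-/

set_option autoImplicit false

namespace Pool.Agent.Work.MP_7eec5e_nt.GG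

open MeasureTheory Filter Topology Finset

/-- the sine kernel `sin (π t) / (π t)` -/
noncomputable def sk (t : ℝ) : ℝ := Real.sinc (Real.pi * t)

/-- the correlation functions of the sine process -/
noncomputable def rho (n : ℕ) (y : Fin n → ℝ) : ℝ :=
  Matrix.det (Matrix.of fun i j : Fin n => sk (y i - y j))

/-- continuous functions with compact support -/
def CC (n : ℕ) (f : (Fin n → ℝ) → ℝ) : Prop := Continuous f ∧ HasCompactSupport f

/-- locally finite families -/
def LF {ι : Type} (x : ι → ℝ) : Prop := ∀ R : ℝ, {i | |x i| ≤ R}.Finite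

/-- sum over `n`-tuples of different members of the family, seen from `u` -/
noncomputable def W {ι : Type} (x : ι → ℝ) (n : ℕ) (f : (Fin n → ℝ) → ℝ) (u : ℝ) : ℝ :=
  ∑' s : Fin n ↪ ι, f fun a => x (s a) - u

/-- sum over `n + 1`-tuples of different members, the first one in `[0, U)`, of a function of the
differences to the first one -/
noncomputable def Dd {ι : Type} (x : ι → ℝ) (n : ℕ) (f : (Fin n → ℝ) → ℝ) (U : ℝ) : ℝ := by
  classical
  exact ∑' s : Fin (n + 1) ↪ ι,
    if 0 ≤ x (s 0) ∧ x (s 0) < U then f fun a => x (s a.succ) - x (s 0) else 0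

/-- the number of members at distance at most `R` from `u` -/
noncomputable def cn {ι : Type} (x : ι → ℝ) (R u : ℝ) : ℕ := {i | |x i - u| ≤ R}.ncard

/-- all correlations (of the differences) are those of the sine process: the GUE hypothesis -/
def Gue {ι : Type} (x : ι → ℝ) : Prop := ∀ (n : ℕ) (f : (Fin n → ℝ) → ℝ), CC n f →
  Tendsto (fun U : ℝ => U⁻¹ * Dd x n f U) atTop
    (𝓝 (∫ y : Fin n → ℝ, f y * rho (n + 1) (Fin.cons 0 y)))

/-- correlations sampled at uniformly distributed points -/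
def Uni {ι : Type} (x : ι → ℝ) : Prop := ∀ (n : ℕ) (f : (Fin n → ℝ) → ℝ), CC n f →
  Tendsto (fun U : ℝ => U⁻¹ * ∫ u in (0 : ℝ)..U, W x n f u) atTop
    (𝓝 (∫ y : Fin n → ℝ, f y * rho n y))

/-- correlations sampled at the points `a + h j` -/
def Smp {ι : Type} (x : ι → ℝ) (a h : ℝ) : Prop := ∀ (n : ℕ) (f : (Fin n → ℝ) → ℝ), CC n f →
  Tendsto (fun M : ℕ => (M : ℝ)⁻¹ * ∑ j ∈ range M, W x n f (a + h * j)) atTop
    (𝓝 (∫ y : Fin n → ℝ, f y * rho n y))

/-- integral along the diagonal -/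
noncomputable def bar (n : ℕ) (f : (Fin (n + 1) → ℝ) → ℝ) (y : Fin n → ℝ) : ℝ :=
  ∫ t : ℝ, f (Fin.cons t fun a => y a + t)

/-- the tent function -/
def tent (t : ℝ) : ℝ := max 0 (1 - |t|)

/-- `tent (y 0) * f (y 1 - y 0, ..., y n - y 0)` -/
def tf (n : ℕ) (f : (Fin n → ℝ) → ℝ) (y : Fin (n + 1) → ℝ) : ℝ :=
  tent (y 0) * f fun a => y a.succ - y 0

/-- a continuous function with compact support which is `1` on the cube of half side `R` -/
def cube (n : ℕ) (R : ℝ) (y : Fin n → ℝ) : ℝ := ∏ a, max 0 (min 1 (R + 1 - |y a|))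

/-- product of two functions of different variables, the second one shifted -/
def pr (n : ℕ) (f : (Fin n → ℝ) → ℝ) (h : ℝ) (y : Fin (n + n) → ℝ) : ℝ :=
  (f fun a => y (Fin.castAdd n a)) * f fun a => y (Fin.natAdd n a) - h

/-- limit of the factorial moments divided by `m!` -/
noncomputable def dm (m : ℕ) : ℝ :=
  (m.factorial : ℝ)⁻¹ * ∫ y in {y : Fin m → ℝ | ∀ a, 0 ≤ y a ∧ y a < 1}, rho m y

/-- the numbers `e_k` -/
noncomputable def ek (k : ℕ) : ℝ := ∑' r : ℕ, (-1 : ℝ) ^ r * ((k + r).choose k : ℝ) * dm (k + r)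

/-! ## The unitary group -/

/-- the density of the eigenvalue angles of a Haar distributed unitary matrix -/
noncomputable def pN (N : ℕ) (θ : Fin N → ℝ) : ℝ :=
  (∏ j : Fin N, ∏ l ∈ Finset.Ioi j,
    ‖Complex.exp (θ j * Complex.I) - Complex.exp (θ l * Complex.I)‖ ^ 2) /
      ((2 * Real.pi) ^ N * N.factorial)

/-- the probability that exactly `k` angles are in `J = [b, b + 2 π / N)` -/
noncomputable def EU (N k : ℕ) (b : ℝ) : ℝ :=
  (N.choose k : ℝ) * ∫ θ in {θ : Fin N → ℝ | ∀ i : Fin N,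
    θ i ∈ (if (i : ℕ) < k then Set.Ico b (b + 2 * Real.pi / N)
      else Set.Ico (-Real.pi) Real.pi \ Set.Ico b (b + 2 * Real.pi / N))}, pN N θ

/-- the kernel of the eigenvalue process, complex form -/
noncomputable def KN (N : ℕ) (t : ℝ) : ℂ :=
  (2 * Real.pi : ℂ)⁻¹ * ∑ a ∈ range N, Complex.exp (a * t * Complex.I)

/-- its determinants -/
noncomputable def dN (N m : ℕ) (θ : Fin m → ℝ) : ℂ :=
  Matrix.det (Matrix.of fun i j : Fin m => KN N (θ i - θ j))

/-- factorial moments divided by `m!` of the number of angles in `J` -/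
noncomputable def mN (N m : ℕ) (b : ℝ) : ℝ :=
  (m.factorial : ℝ)⁻¹ *
    ∫ θ in {θ : Fin m → ℝ | ∀ a, θ a ∈ Set.Ico b (b + 2 * Real.pi / N)}, (dN N m θ).re

/-! ## The zeta function -/

/-- the Riemann-Siegel theta function: the continuous branch of
`arg Γ(1/4 + i t/2) - (t/2) log π` with the value `0` at `0` -/
structure IsTheta (ϑ : ℝ → ℝ) : Prop where
  cont : Continuous ϑ
  zero : ϑ 0 = 0
  arg : ∀ t : ℝ, Complex.Gamma (1 / 4 + t / 2 * Complex.I) =
    ‖Complex.Gamma (1 / 4 + t / 2 * Complex.I)‖ *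
      Complex.exp ((ϑ t + t / 2 * Real.log Real.pi : ℝ) * Complex.I)

/-- the Gram points: `g n` is the unique `t > 7` with `ϑ t = n π` -/
def IsGram (ϑ : ℝ → ℝ) (g : ℕ → ℝ) : Prop :=
  ∀ n : ℕ, 7 < g n ∧ ϑ (g n) = n * Real.pi ∧ ∀ t : ℝ, 7 < t → ϑ t = n * Real.pi → t = g n

/-- the order of vanishing of zeta at `1/2 + i t` -/
noncomputable def mult (t : ℝ) : ℕ := analyticOrderNatAt riemannZeta (1 / 2 + t * Complex.I)

/-- the zeros `1/2 + i γ`, `γ > 0`, of zeta, with multiplicity -/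
abbrev CZ : Type := Σ t : {t : ℝ // 0 < t}, Fin (mult (t : ℝ))

/-- the unfolded zeros -/
noncomputable def xz (ϑ : ℝ → ℝ) (z : CZ) : ℝ := ϑ (z.1 : ℝ) / Real.pi

/-- the proportion of the first `M` Gram intervals which contain exactly `k` zeros -/
noncomputable def Gp (g : ℕ → ℝ) (M k : ℕ) : ℝ := by
  classical
  exact (M : ℝ)⁻¹ * (((range M).filter fun j =>
    {z : CZ | g j ≤ (z.1 : ℝ) ∧ (z.1 : ℝ) < g (j + 1)}.encard = (k : ℕ∞)).card : ℝ)

end Pool.Agent.Work.MP_7eec5e_nt.GG
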