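import Pool.Agent.Work.MP_7eec5e_nt.GG.Stmts2

/-!
# Block GG, item Bd (helper55): bordered determinants
-/

set_option autoImplicit false

namespace Pool.Agent.Work.MP_7eec5e_nt.GG

open MeasureTheory Filter Topology Finset

namespace IBd

lemma regular (m : ℕ) (A : Matrix (Fin m) (Fin m) ℂ) (b c : Fin m → ℂ) (d : ℂ)
    (hA : A.det ≠ 0) :
    (Matrix.fromBlocks A (Matrix.of fun i (_ : Unit) => b i)
      (Matrix.of fun (_ : Unit) j => c j) (Matrix.of fun (_ _ : Unit) => d)).det =
      d * A.det - ∑ i, ∑ j, c i * A.adjugate i j * b j := by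
  let _ := Matrix.invertibleOfIsUnitDet A (isUnit_iff_ne_zero.2 hA)
  have key : A.det * ∑ j, (∑ i, c i * (A.det⁻¹ * A.adjugate i j)) * b j =
      ∑ i, ∑ j, c i * A.adjugate i j * b j := by
    rw [Finset.sum_comm, mul_sum]
    refine sum_congr rfl fun j _ => ?_
    rw [sum_mul, mul_sum]
    refine sum_congr rfl fun i _ => ?_
    field_simp
  rw [Matrix.det_fromBlocks₁₁, Matrix.det_unique (n := Unit), Matrix.invOf_eq_nonsing_inv, Matrix.inv_def,
    Ring.inverse_eq_inv', ← key, Matrix.sub_apply, Matrix.mul_apply]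
  simp only [Matrix.mul_apply, Matrix.of_apply, Matrix.smul_apply, smul_eq_mul]
  ring

lemma dense_regular (m : ℕ) (A : Matrix (Fin m) (Fin m) ℂ) :
    Dense {t : ℂ | (A + t • (1 : Matrix (Fin m) (Fin m) ℂ)).det ≠ 0} := by
  have hp : (-A).charpoly ≠ 0 := (-A).charpoly_monic.ne_zero
  have hfin : {t : ℂ | (-A).charpoly.IsRoot t}.Finite := Polynomial.finite_setOfPred_isRoot hp
  have hd := (dense_univ (X := ℂ)).sdiff_finite hfin
  refine hd.mono ?_
  intro t ht h
  refine ht.2 ?_
  change (-A).charpoly.eval t = 0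
  rw [Matrix.eval_charpoly, ← h]
  congr 1
  rw [sub_neg_eq_add, add_comm, Matrix.scalar_apply, Matrix.smul_one_eq_diagonal]

end IBd

open IBd

theorem prBd : StBd := by
  intro m A b c d
  have hcA : Continuous fun t : ℂ => A + t • (1 : Matrix (Fin m) (Fin m) ℂ) :=
    continuous_const.add (continuous_id.smul continuous_const)
  have hL : Continuous fun t : ℂ => (Matrix.fromBlocks (A + t • (1 : Matrix (Fin m) (Fin m) ℂ))
      (Matrix.of fun i (_ : Unit) => b i) (Matrix.of fun (_ : Unit) j => c j)
      (Matrix.of fun (_ _ : Unit) => d)).det :=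
    (hcA.matrix_fromBlocks continuous_const continuous_const continuous_const).matrix_det
  have hR : Continuous fun t : ℂ => d * (A + t • (1 : Matrix (Fin m) (Fin m) ℂ)).det -
      ∑ i, ∑ j, c i * (A + t • (1 : Matrix (Fin m) (Fin m) ℂ)).adjugate i j * b j :=
    (continuous_const.mul hcA.matrix_det).sub (continuous_finsetSum _ fun i _ =>
      continuous_finsetSum _ fun j _ =>
        (continuous_const.mul (hcA.matrix_adjugate.matrix_elem i j)).mul continuous_const)
  have h := congr_fun (Continuous.ext_on (dense_regular m A) hL hR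
    fun t ht => regular m _ b c d ht) 0
  simpa using h

end Pool.Agent.Work.MP_7eec5e_nt.GG
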