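import Pool.Agent.Work.MP_7eec5e_nt.GG.Stmts2

/-!
# MP_7eec5e_nt, block GG, item Gm: the order of the Gram points
-/

set_option autoImplicit false

namespace Pool.Agent.Work.MP_7eec5e_nt.GG

open MeasureTheory Filter Topology Finset

namespace IGm

/-- no value `n π` in between means constant sign -/
theorem sign_const (ϑ : ℝ → ℝ) (hc : Continuous ϑ) (c : ℝ) (s t : ℝ) (hst : s ≤ t)
    (h : ∀ v, s ≤ v → v ≤ t → ϑ v ≠ c) : (ϑ s < c ↔ ϑ t < c) := by
  constructor
  · intro h1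
    by_contra h2
    push Not at h2
    obtain ⟨v, hv, hv2⟩ := intermediate_value_Icc hst hc.continuousOn ⟨h1.le, h2⟩
    exact h v hv.1 hv.2 hv2
  · intro h1
    by_contra h2
    push Not at h2
    obtain ⟨v, hv, hv2⟩ := intermediate_value_Icc' hst hc.continuousOn ⟨h1.le, h2⟩
    exact h v hv.1 hv.2 hv2

variable (ϑ : ℝ → ℝ) (g : ℕ → ℝ) (hϑ : IsTheta ϑ) (hg : IsGram ϑ g)

include hϑ hg

theorem above (n : ℕ) (t : ℝ) (ht : g n < t) : n * Real.pi < ϑ t := by
  obtain ⟨h7, hv, hu⟩ := hg n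
  have hne : ∀ v, g n < v → ϑ v ≠ n * Real.pi := fun v hv1 hv2 =>
    absurd (hu v (h7.trans hv1) hv2) hv1.ne'
  by_contra hcon
  push Not at hcon
  have hlt : ϑ t < n * Real.pi := lt_of_le_of_ne hcon (hne t ht)
  have hneg : ∀ v, g n < v → ϑ v < n * Real.pi := by
    intro v hv1
    rcases le_total t v with h | h
    · exact (sign_const ϑ hϑ.cont _ t v h fun w hw1 _ => hne w (ht.trans_le hw1)).1 hlt
    · exact (sign_const ϑ hϑ.cont _ v t h fun w hw1 _ => hne w (hv1.trans_le hw1)).2 hlt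
  obtain ⟨C, hC⟩ := (isCompact_Icc (a := (7 : ℝ)) (b := g n)).exists_bound_of_continuousOn
    hϑ.cont.continuousOn
  obtain ⟨m, hm⟩ := exists_nat_gt (max C n)
  have hmn : (n : ℝ) < m := (le_max_right _ _).trans_lt hm
  have hmC : C < m := (le_max_left _ _).trans_lt hm
  obtain ⟨h7m, hvm, -⟩ := hg m
  have hpi : (1 : ℝ) ≤ Real.pi := by linarith [Real.pi_gt_three]
  have hle : g m ≤ g n := by
    by_contra hc
    push Not at hc
    have := hneg (g m) hc
    rw [hvm] at this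
    have h3 : (n : ℝ) * Real.pi < m * Real.pi := mul_lt_mul_of_pos_right hmn Real.pi_pos
    linarith
  have h2 := hC (g m) ⟨h7m.le, hle⟩
  rw [hvm, Real.norm_eq_abs, abs_of_nonneg (by positivity)] at h2
  have h4 : (m : ℝ) ≤ m * Real.pi := le_mul_of_one_le_right (Nat.cast_nonneg m) hpi
  linarith

theorem mono : StrictMono g := by
  intro m n hmn
  obtain ⟨-, hvm, -⟩ := hg m
  obtain ⟨-, hvn, -⟩ := hg n
  have hlt : (m : ℝ) * Real.pi < n * Real.pi :=
    mul_lt_mul_of_pos_right (by exact_mod_cast hmn) Real.pi_pos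
  by_contra hcon
  push Not at hcon
  rcases hcon.lt_or_eq with h | h
  · have := above ϑ g hϑ hg n (g m) h
    rw [hvm] at this
    linarith
  · rw [h, hvm] at hvn
    linarith

theorem below (n : ℕ) (hn : 1 ≤ n) (t : ℝ) (h7t : 7 < t) (ht : t < g n) : ϑ t < n * Real.pi := by
  obtain ⟨h7, hv, hu⟩ := hg n
  obtain ⟨h70, hv0, -⟩ := hg 0
  have hne : ∀ v, 7 < v → v < g n → ϑ v ≠ n * Real.pi := fun v hv0 hv1 hv2 =>
    absurd (hu v hv0 hv2) hv1.ne
  have hg0 : g 0 < g n := mono ϑ g hϑ hg (by omega)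
  have h0 : ϑ (g 0) < n * Real.pi := by
    rw [hv0]
    have : (0 : ℝ) < n * Real.pi := mul_pos (by exact_mod_cast hn) Real.pi_pos
    simpa using this
  rcases le_total t (g 0) with h | h
  · exact (sign_const ϑ hϑ.cont _ t (g 0) h fun w hw1 hw2 =>
      hne w (h7t.trans_le hw1) (hw2.trans_lt hg0)).2 h0
  · exact (sign_const ϑ hϑ.cont _ (g 0) t h fun w hw1 hw2 =>
      hne w (h70.trans_le hw1) (hw2.trans_lt ht)).1 h0

end IGm

open IGm in
theorem prGm : StGm := by
  intro ϑ g hϑ hg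
  refine ⟨mono ϑ g hϑ hg, above ϑ g hϑ hg, ?_⟩
  obtain ⟨C, hC⟩ := (isCompact_Icc (a := (0 : ℝ)) (b := 7)).exists_bound_of_continuousOn
    hϑ.cont.continuousOn
  obtain ⟨m, hm⟩ := exists_nat_gt C
  have hpi : (1 : ℝ) ≤ Real.pi := by linarith [Real.pi_gt_three]
  refine ⟨m + 1, fun j hj t ht => ?_⟩
  have hj1 : 1 ≤ j := by omega
  have hjm : (m : ℝ) ≤ j := by exact_mod_cast (by omega : m ≤ j)
  rw [le_div_iff₀ Real.pi_pos, div_lt_iff₀ Real.pi_pos]
  obtain ⟨h7j, hvj, -⟩ := hg j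
  obtain ⟨h7j', hvj', -⟩ := hg (j + 1)
  push_cast at hvj'
  constructor
  · rintro ⟨h1, h2⟩
    refine ⟨?_, ?_⟩
    · rcases h1.lt_or_eq with h | h
      · exact (above ϑ g hϑ hg j t h).le
      · rw [← h, hvj]
    · have := below ϑ g hϑ hg (j + 1) (by omega) t (h7j.trans_le h1) h2
      push_cast at this
      exact this
  · rintro ⟨h1, h2⟩
    have h7t : 7 < t := by
      by_contra hc
      push Not at hc
      have h3 := hC t ⟨ht.le, hc⟩
      rw [Real.norm_eq_abs] at h3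
      have h4 : (j : ℝ) ≤ j * Real.pi := le_mul_of_one_le_right (Nat.cast_nonneg j) hpi
      have h5 := le_abs_self (ϑ t)
      linarith
    refine ⟨?_, ?_⟩
    · by_contra hc
      push Not at hc
      have := below ϑ g hϑ hg j hj1 t h7t hc
      linarith
    · by_contra hc
      push Not at hc
      rcases hc.lt_or_eq with h | h
      · have := above ϑ g hϑ hg (j + 1) t h
        push_cast at this
        linarith
      · rw [← h, hvj'] at h2
        linarith

end Pool.Agent.Work.MP_7eec5e_nt.GG
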