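import Pool.Agent.Work.MP_7eec5e_nt.GG.Stmts

/-!
# MP_7eec5e_nt, block GG, items Sh, Br, F1, F2
-/

set_option autoImplicit false

namespace Pool.Agent.Work.MP_7eec5e_nt.GG

open MeasureTheory Filter Topology Finset

namespace ISh

theorem shift (D : ℝ → ℝ) (L s : ℝ) (h : Tendsto (fun U : ℝ => U⁻¹ * D U) atTop (𝓝 L)) :
    Tendsto (fun U : ℝ => U⁻¹ * D (U + s)) atTop (𝓝 L) := by
  have h1 : Tendsto (fun U : ℝ => (U + s)⁻¹ * D (U + s)) atTop (𝓝 L) :=
    h.comp (tendsto_atTop_add_const_right atTop s tendsto_id)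
  have h2 : Tendsto (fun U : ℝ => 1 + s * U⁻¹) atTop (𝓝 (1 + s * 0)) :=
    (tendsto_inv_atTop_zero.const_mul s).const_add 1
  have h3 := h2.mul h1
  rw [mul_zero, add_zero, one_mul] at h3
  refine h3.congr' ?_
  filter_upwards [eventually_gt_atTop (0 : ℝ), eventually_gt_atTop (-s)] with U hU hUs
  have h4 : U + s ≠ 0 := by
    have : 0 < U + s := by linarith
    exact this.ne'
  have h5 : U ≠ 0 := hU.ne'
  field_simp

end ISh

open ISh in
theorem prSh : StSh := by
  intro G c s hG hs h
  have h1 := shift (fun U => ∫ u in (0 : ℝ)..U, G u) c s h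
  constructor
  · have h2 : Tendsto (fun U : ℝ => (∫ u in (0 : ℝ)..s, G u) * U⁻¹) atTop
        (𝓝 ((∫ u in (0 : ℝ)..s, G u) * 0)) := tendsto_inv_atTop_zero.const_mul _
    have h3 := h1.sub h2
    rw [mul_zero, sub_zero] at h3
    refine h3.congr fun U => ?_
    rw [intervalIntegral.integral_comp_add_right (fun u => G u) s, zero_add]
    have h4 := intervalIntegral.integral_add_adjacent_intervals
      (hG.intervalIntegrable (μ := volume) 0 s) (hG.intervalIntegrable (μ := volume) s (U + s))
    rw [← h4]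
    ring
  · have h3 := h1.sub h
    rw [sub_self] at h3
    refine h3.congr fun U => ?_
    have h4 := intervalIntegral.integral_add_adjacent_intervals
      (hG.intervalIntegrable (μ := volume) 0 U) (hG.intervalIntegrable (μ := volume) U (U + s))
    rw [← h4]
    ring

theorem prBr : StBr := by
  intro n f R B hR hf hS hB
  have key : ∀ (y : Fin n → ℝ) (t : ℝ), f (Fin.cons t fun a => y a + t) ≠ 0 →
      |t| ≤ R ∧ ∀ a, |y a + t| ≤ R := by
    intro y t h
    have h1 := hS _ h
    refine ⟨?_, fun a => ?_⟩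
    · simpa using h1 0
    · simpa using h1 a.succ
  have hint : ∀ y : Fin n → ℝ, bar n f y =
      ∫ t in (-R)..R, f (Fin.cons t fun a => y a + t) := by
    intro y
    unfold bar
    rw [intervalIntegral.integral_of_le (by linarith), ← integral_Icc_eq_integral_Ioc]
    refine (setIntegral_eq_integral_of_forall_compl_eq_zero fun t ht => ?_).symm
    by_contra h
    exact ht (abs_le.1 (key y t h).1)
  have hcont2 : Continuous fun p : (Fin n → ℝ) × ℝ => f (Fin.cons p.2 fun a => p.1 a + p.2) := by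
    refine hf.comp ?_
    refine continuous_pi fun i => ?_
    refine Fin.cases ?_ (fun j => ?_) i
    · simp only [Fin.cons_zero]
      exact continuous_snd
    · simp only [Fin.cons_succ]
      exact ((continuous_apply j).comp continuous_fst).add continuous_snd
  refine ⟨?_, ?_, ?_⟩
  · have h1 : bar n f = fun y => ∫ t in (-R)..R, f (Fin.cons t fun a => y a + t) :=
      funext hint
    rw [h1]
    exact intervalIntegral.continuous_parametric_intervalIntegral_of_continuous' hcont2 _ _
  · intro y hy a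
    by_contra h
    rw [not_le] at h
    apply hy
    unfold bar
    have h1 : ∀ t : ℝ, f (Fin.cons t fun a => y a + t) = 0 := by
      intro t
      by_contra h2
      obtain ⟨h3, h4⟩ := key y t h2
      have h5 := h4 a
      have h6 : |y a| ≤ |y a + t| + |t| := by
        have := abs_sub (y a + t) t
        rwa [add_sub_cancel_right] at this
      linarith
    simp only [h1, integral_zero]
  · intro y
    rw [hint y]
    have h1 := intervalIntegral.norm_integral_le_of_norm_le_const (a := -R) (b := R)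
      (f := fun t => f (Fin.cons t fun a => y a + t)) (C := B)
      fun t _ => by rw [Real.norm_eq_abs]; exact hB _
    rw [Real.norm_eq_abs] at h1
    refine h1.trans (le_of_eq ?_)
    rw [abs_of_nonneg (by linarith)]
    ring

theorem prF2 (hPs : StPs) : StF2 := by
  intro m
  have hset : {y : Fin m → ℝ | ∀ a, 0 ≤ y a ∧ y a < 1} =
      Set.pi Set.univ fun _ : Fin m => Set.Ico (0 : ℝ) 1 := by
    ext y
    simp [Set.mem_pi, Set.mem_Ico]
  have hvol : volume {y : Fin m → ℝ | ∀ a, 0 ≤ y a ∧ y a < 1} = 1 := by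
    rw [hset, volume_pi_pi]
    simp
  have hms : MeasurableSet {y : Fin m → ℝ | ∀ a, 0 ≤ y a ∧ y a < 1} := by
    rw [hset]
    exact MeasurableSet.univ_pi fun _ => measurableSet_Ico
  have h0 : 0 ≤ ∫ y in {y : Fin m → ℝ | ∀ a, 0 ≤ y a ∧ y a < 1}, rho m y :=
    integral_nonneg fun y => (hPs m y).1
  have h1 : ∫ y in {y : Fin m → ℝ | ∀ a, 0 ≤ y a ∧ y a < 1}, rho m y ≤ 1 := by
    have h2 : ‖∫ y in {y : Fin m → ℝ | ∀ a, 0 ≤ y a ∧ y a < 1}, rho m y‖ ≤
        1 * (volume : Measure (Fin m → ℝ)).real {y : Fin m → ℝ | ∀ a, 0 ≤ y a ∧ y a < 1} := by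
      refine norm_setIntegral_le_of_norm_le_const (by rw [hvol]; exact ENNReal.one_lt_top)
        fun y _ => ?_
      rw [Real.norm_eq_abs, abs_of_nonneg (hPs m y).1]
      exact (hPs m y).2
    rw [Measure.real, hvol, ENNReal.toReal_one, mul_one, Real.norm_eq_abs] at h2
    exact (le_abs_self _).trans h2
  have hf : (0 : ℝ) ≤ (m.factorial : ℝ)⁻¹ := by positivity
  unfold dm
  refine ⟨mul_nonneg hf h0, ?_⟩
  calc (m.factorial : ℝ)⁻¹ * ∫ y in {y : Fin m → ℝ | ∀ a, 0 ≤ y a ∧ y a < 1}, rho m y
      ≤ (m.factorial : ℝ)⁻¹ * 1 := mul_le_mul_of_nonneg_left h1 hf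
    _ = (m.factorial : ℝ)⁻¹ := mul_one _

end Pool.Agent.Work.MP_7eec5e_nt.GG
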