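import Pool.Agent.Work.MP_7eec5e_nt.GG.Stmts2

/-!
# MP_7eec5e_nt, block GG: the theorem from the items
-/

set_option autoImplicit false

namespace Pool.Agent.Work.MP_7eec5e_nt.GG

open MeasureTheory Filter Topology Finset

theorem main_equiv (hB1 : StB1) (hB2 : StB2) (hD3 : StD3) (hE1 : StE1) {ι : Type} (x : ι → ℝ)
    (hx : LF x) (a h : ℝ) (ha : 0 ≤ a) (hh : 0 < h) : Gue x ↔ Smp x a h :=
  ⟨fun H => hD3 x hx (hB1 x hx H) a h ha hh, fun H => hB2 x hx (hE1 x hx a h ha hh H)⟩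

theorem main_uni (hB1 : StB1) (hB2 : StB2) {ι : Type} (x : ι → ℝ) (hx : LF x) :
    Gue x ↔ Uni x := ⟨hB1 x hx, hB2 x hx⟩

/-- the theorem -/
theorem main (hB1 : StB1) (hB2 : StB2) (hD3 : StD3) (hE1 : StE1) (hLf : StLf) (hQ1 : StQ1)
    (hEl : StEl) :
    (∀ (ι : Type) (x : ι → ℝ), LF x → ∀ a h : ℝ, 0 ≤ a → 0 < h → (Gue x ↔ Smp x a h)) ∧
    ∀ (ϑ : ℝ → ℝ) (g : ℕ → ℝ), IsTheta ϑ → IsGram ϑ g →
      (Gue (xz ϑ) ↔ Smp (xz ϑ) 0 1) ∧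
      (Gue (xz ϑ) → ∀ k : ℕ, ∃ e : ℝ,
        (∀ b : ℕ → ℝ, (∀ᶠ N : ℕ in atTop, -Real.pi ≤ b N ∧ b N + 2 * Real.pi / N ≤ Real.pi) →
          Tendsto (fun N : ℕ => EU N k (b N)) atTop (𝓝 e)) ∧
        Tendsto (fun M : ℕ => Gp g M k) atTop (𝓝 e)) := by
  refine ⟨fun ι x hx a h ha hh => main_equiv hB1 hB2 hD3 hE1 x hx a h ha hh,
    fun ϑ g hϑ hg => ?_⟩
  have hx : LF (xz ϑ) := hLf ϑ g hϑ hg
  refine ⟨main_equiv hB1 hB2 hD3 hE1 (xz ϑ) hx 0 1 le_rfl one_pos, fun H k => ⟨ek k, ?_, ?_⟩⟩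
  · exact fun b hb => hEl k b hb
  · exact hQ1 ϑ g hϑ hg (hB1 (xz ϑ) hx H) k

end Pool.Agent.Work.MP_7eec5e_nt.GG
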