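import Pool.Agent.Work.MP_7eec5e_nt.GG.Defs

/-!
# MP_7eec5e_nt, block GG: statements, parts A to F (general families)

THEOREM GG: for every locally finite family `x` the hypotheses `Gue x`, `Uni x`, `Smp x a h`
(`a ≥ 0`, `h > 0`) are equivalent, and they imply that the proportion of the `j < M` for which
`[j, j + 1)` contains exactly `k` members tends to `ek k`.

Every docstring is a complete proof. Items used are hypotheses (`theorem prA9 (hA1 : StA1) ... : StA9`).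
Item `X`: statement `StX`, file `GG/I_X.lean`, theorem `prX`, auxiliary lemmas in the namespace `IX`.
-/

set_option autoImplicit false

namespace Pool.Agent.Work.MP_7eec5e_nt.GG

open MeasureTheory Filter Topology Finset

/-- the support of `f` is in the cube of half side `R` -/
def Sp (n : ℕ) (f : (Fin n → ℝ) → ℝ) (R : ℝ) : Prop := ∀ y, f y ≠ 0 → ∀ a, |y a| ≤ R

/-! ## Part A: sums over tuples -/

/-- A1 (EASY-MEDIUM). `T = {i | |x i - u| ≤ R}` is finite (`LF` with `R + |u|`). If the term of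
`s` is not `0` then all `s a` are in `T`; the embeddings `Fin n ↪ ι` with values in `T` inject into
the finite type `Fin n → T` of cardinality `(cn x R u) ^ n` (`Set.ncard`, `Nat.card_fun`/
`Fintype.card_fun`). So the support is finite with at most that many elements, and `tsum` is the sum over
it (`tsum_eq_sum`), each term at most `B`. -/
def StA1 : Prop := ∀ {ι : Type} (x : ι → ℝ), LF x → ∀ (n : ℕ) (f : (Fin n → ℝ) → ℝ) (R B u : ℝ),
  0 ≤ B → Sp n f R → (∀ y, |f y| ≤ B) →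
  (Function.support fun s : Fin n ↪ ι => f fun a => x (s a) - u).Finite ∧
    |W x n f u| ≤ B * (cn x R u : ℝ) ^ n

/-- A2 (EASY-MEDIUM). `T = {i | |x i - u| ≤ R}`. The embeddings `Fin n ↪ T` are
`(cn x R u).descFactorial n` in number (`Fintype.card_embedding_eq`); composed with the inclusion they
are different embeddings into `ι`, whose terms are `≥ 1`; all terms are `≥ 0` and only finitely many are
not `0` (A1 with the larger cube; `f` need not be bounded: the values on the finite support are, or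
repeat the argument of A1 for the support only). -/
def StA2 : Prop := ∀ {ι : Type} (x : ι → ℝ), LF x → ∀ (n : ℕ) (f : (Fin n → ℝ) → ℝ) (R R' u : ℝ),
  (∀ y, 0 ≤ f y) → (∀ y, (∀ a, |y a| ≤ R) → 1 ≤ f y) → Sp n f R' →
  ((cn x R u).descFactorial n : ℝ) ≤ W x n f u

/-- A3 (EASY). If `N < 2 p` then `N ^ p ≤ (2 p) ^ p`. Otherwise `N + 1 - p ≥ N / 2` and
`Nat.pow_sub_le_descFactorial`: `(N + 1 - p) ^ p ≤ N.descFactorial p`. -/
def StA3 : Prop := ∀ N p : ℕ, (N : ℝ) ^ p ≤ (2 * p) ^ p + 2 ^ p * (N.descFactorial p : ℝ)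

/-- A4 (MEDIUM). Both factors are sums with finite support (A1: take `B` = maximum of `|f|` on the finite
support, or prove finiteness directly). The product is the sum over the pairs `(s, s')` of
`f (x s - u) f (x s' - u - h)` (`Summable.tsum_mul_tsum_of_summable_norm` or finite sums). If `s a = s' b`
for some `a, b` and the term is not `0` then `|x (s a) - u| ≤ R` and `|x (s a) - u - h| ≤ R`, so
`|h| ≤ 2 R`: excluded. The pairs with disjoint ranges correspond to the embeddings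
`Fin (n + n) ↪ ι` (`Fin.append s s'`, inverse `(t ∘ castAdd, t ∘ natAdd)`). -/
def StA4 : Prop := ∀ {ι : Type} (x : ι → ℝ), LF x → ∀ (n : ℕ) (f : (Fin n → ℝ) → ℝ) (R u h : ℝ),
  Sp n f R → 2 * R < |h| → W x n f u * W x n f (u + h) = W x (n + n) (pr n f h) u

/-- A5 (EASY-MEDIUM). Near `u₀`, say for `|u - u₀| < 1`, only the embeddings with values in the finite set
`{i | |x i - u₀| ≤ R + 1}` can have a nonzero term; there are finitely many, so on this interval `W x n f`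
is a finite sum of continuous functions (`tsum_eq_sum` for a fixed finset). -/
def StA5 : Prop := ∀ {ι : Type} (x : ι → ℝ), LF x → ∀ (n : ℕ) (f : (Fin n → ℝ) → ℝ) (R : ℝ),
  Sp n f R → Continuous f → Continuous (W x n f)

/-- A7 (EASY). Finite supports (A1 or directly) make the sums summable. (1) linearity; (2)
`x - (u + s) = (x - u) - s`; (3) monotonicity (`Summable.tsum_le_tsum`); (4) positivity. -/
def StA7 : Prop := ∀ {ι : Type} (x : ι → ℝ), LF x → ∀ (n : ℕ) (f g : (Fin n → ℝ) → ℝ) (R u : ℝ),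
  Sp n f R → Sp n g R →
  (∀ c, W x n (fun y => f y + c * g y) u = W x n f u + c * W x n g u) ∧
  (∀ s, W x n f (u + s) = W x n (fun y => f fun a => y a - s) u) ∧
  ((∀ y, f y ≤ g y) → W x n f u ≤ W x n g u) ∧ ((∀ y, 0 ≤ f y) → 0 ≤ W x n f u)

open Classical in
/-- A8 (EASY-MEDIUM). The term of `s` is `1` if all `s a` are in the finite set
`T = {i | u ≤ x i < u + 1}`, and `0` otherwise; the embeddings with values in `T` are the embeddings
`Fin n ↪ T`, `(T.ncard).descFactorial n` in number (`Fintype.card_embedding_eq`). -/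
def StA8 : Prop := ∀ {ι : Type} (x : ι → ℝ), LF x → ∀ (n : ℕ) (u : ℝ),
  W x n (fun y => if ∀ a, 0 ≤ y a ∧ y a < 1 then 1 else 0) u =
    ({i | u ≤ x i ∧ x i < u + 1}.ncard.descFactorial n : ℝ)

/-- A9 (EASY-MEDIUM). `f` is uniformly continuous (compact support): there is `ε ≤ 1` with
`|f (y - s) - f y| ≤ δ` for `0 ≤ s ≤ ε` (shift of all coordinates). By A7
`W f (u + s) - W f u = W (f (· - s) - f) u`, and the function `f (· - s) - f` has its support in the cube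
`R + 1`; A1. -/
def StA9 : Prop := ∀ {ι : Type} (x : ι → ℝ), LF x → ∀ (n : ℕ) (f : (Fin n → ℝ) → ℝ) (R : ℝ),
  Sp n f R → CC n f → ∀ δ : ℝ, 0 < δ → ∃ ε : ℝ, 0 < ε ∧ ε ≤ 1 ∧ ∀ u s : ℝ, 0 ≤ s → s ≤ ε →
  |W x n f (u + s) - W x n f u| ≤ δ * (cn x (R + 1) u : ℝ) ^ n

/-- Cc (EASY). Compact sets are bounded, continuous functions with compact support are bounded; the cube
is compact. -/
def StCc : Prop := ∀ (n : ℕ) (f : (Fin n → ℝ) → ℝ),
  (CC n f → ∃ R B : ℝ, 0 ≤ R ∧ 0 ≤ B ∧ Sp n f R ∧ ∀ y, |f y| ≤ B) ∧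
  ∀ R, Continuous f → Sp n f R → CC n f

/-- Cb (EASY). Clear from the definition of `cube` (`Finset.prod_eq_zero`, `Finset.prod_le_one`). -/
def StCb : Prop := ∀ (n : ℕ) (R : ℝ), 0 ≤ R → Continuous (cube n R) ∧ Sp n (cube n R) (R + 1) ∧
  ∀ y, 0 ≤ cube n R y ∧ cube n R y ≤ 1 ∧ ((∀ a, |y a| ≤ R) → cube n R y = 1)

/-- Tf (EASY). `tent` is continuous, `≥ 0`, `0` outside `[-1, 1]`, with integral `1`. `tf n f y ≠ 0` implies
`|y 0| ≤ 1`, `|y a - y 0| ≤ R`. `bar n (tf n f) y = ∫ tent t * f y = f y` (`Fin.cons_zero`,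
`Fin.cons_succ`). -/
def StTf : Prop := ∀ (n : ℕ) (f : (Fin n → ℝ) → ℝ) (R : ℝ), Continuous f → Sp n f R → 0 ≤ R →
  Continuous (tf n f) ∧ Sp (n + 1) (tf n f) (R + 1) ∧ bar n (tf n f) = f ∧
    ((∀ y, 0 ≤ f y) → ∀ y, 0 ≤ tf n f y)

/-- Br (EASY-MEDIUM). In `bar n f y` the integrand is `0` for `|t| > R`, so it is the integral over
`[-R, R]` and continuous in `y` (`intervalIntegral.continuous_parametric_intervalIntegral_of_continuous'`),
at most `2 R B`; if it is not `0` then `|y a + t| ≤ R`, `|t| ≤ R` for some `t`. -/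
def StBr : Prop := ∀ (n : ℕ) (f : (Fin (n + 1) → ℝ) → ℝ) (R B : ℝ), 0 ≤ R → Continuous f →
  Sp (n + 1) f R → (∀ y, |f y| ≤ B) →
  Continuous (bar n f) ∧ Sp n (bar n f) (2 * R) ∧ ∀ y, |bar n f y| ≤ 2 * R * B

/-! ## Part R: the correlation functions -/

/-- Rc (EASY). `Continuous.matrix_det`, `Real.continuous_sinc`; `(y i + t) - (y j + t) = y i - y j`. -/
def StRc : Prop := ∀ n : ℕ, Continuous (rho n) ∧ (∀ y t, rho n (fun a => y a + t) = rho n y) ∧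
  ∀ (y : Fin n → ℝ) (t : ℝ), rho (n + 1) (Fin.cons t fun a => y a + t) = rho (n + 1) (Fin.cons 0 y)

/-- Ps (MEDIUM). `sk t = ∫_(-1/2)^(1/2) cos (2 π t v) dv`, so for real `c`
`∑_(i,j) c_i c_j sk (y_i - y_j) = ∫ ((∑ c_j cos (2 π y_j v))^2 + (∑ c_j sin (2 π y_j v))^2) dv ≥ 0`: the matrix
is positive semidefinite, its eigenvalues `l_i` are `≥ 0`, their sum is the trace `n`, so by the inequality
of the means `0 ≤ det = ∏ l_i ≤ (∑ l_i / n)^n = 1` (`Matrix.IsHermitian.det_eq_prod_eigenvalues`,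
`Real.inner_le_nnorm_mul_nnorm` is not needed: `Real.geom_mean_le_arith_mean` or
`inner_le..`; for `n = 0` the determinant is `1`). -/
def StPs : Prop := ∀ (n : ℕ) (y : Fin n → ℝ), 0 ≤ rho n y ∧ rho n y ≤ 1

/-- Fb (MEDIUM). `ℝ^(n+1) = ℝ × ℝ^n` (`MeasurableEquiv.piFinSuccAbove`, `volume_preserving_piFinSuccAbove`),
and the map `(t, y) ↦ (t, y + t)` preserves the measure (for fixed `t` it is a translation), so
`∫ f rho = ∫_t ∫_y f (cons t (y + t)) rho (cons t (y + t))`; by Rc the last factor is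
`rho (cons 0 y)`; exchange the integrals (`f` continuous with compact support). -/
def StFb : Prop := ∀ (n : ℕ) (f : (Fin (n + 1) → ℝ) → ℝ), CC (n + 1) f →
  ∫ y : Fin (n + 1) → ℝ, f y * rho (n + 1) y =
    ∫ y : Fin n → ℝ, bar n f y * rho (n + 1) (Fin.cons 0 y)

/-- Mx (MEDIUM). Clustering. Write `Fin (n + n) → ℝ` as the product of two copies of `Fin n → ℝ`
(`finSumFinEquiv`, `MeasurableEquiv.sumPiEquivProdPi`, `volume_measurePreserving_sumPiEquivProdPi`,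
`volume_measurePreserving_piCongrLeft`) and shift the second one by `h`: the integral is
`∫∫ f y f z rho (append y (z + h))`. For fixed `y, z` the matrix has the diagonal blocks
`(sk (y_i - y_j))`, `(sk (z_i - z_j))`, and the entries `sk (y_i - z_j - h)` of the other blocks tend to `0`
(`|sk t| ≤ 1/(π |t|)`), so `rho` tends to `rho y rho z` (continuity of the determinant,
`Matrix.det_fromBlocks_zero₂₁`, `Matrix.det_reindex_self`). Dominated convergence: `|rho| ≤ 1` (Ps), `f` has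
compact support. `pr n f h` is continuous with compact support. -/
def StMx : Prop := ∀ (n : ℕ) (f : (Fin n → ℝ) → ℝ), CC n f →
  (∀ h : ℝ, CC (n + n) (pr n f h)) ∧
  Tendsto (fun h : ℝ => ∫ y : Fin (n + n) → ℝ, pr n f h y * rho (n + n) y) atTop
    (𝓝 ((∫ y : Fin n → ℝ, f y * rho n y) ^ 2))

/-! ## Part B: correlations of the differences and uniform sampling -/

/-- B0 (MEDIUM). All sums have finite support (`LF`). `∫_0^U W (n+1) f u du = ∑_s ∫_0^U f (x_s - u) du` (only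
finitely many `s` have `|x_(s a) - u| ≤ R` for some `u ∈ [0, U]`; `integral_finset_sum`). If
`R ≤ x_(s 0) < U - R` the integral is `∫_ℝ f (x_s - u) du = bar n f (x_(s (a+1)) - x_(s 0))` (substitute
`t = x_(s 0) - u`; outside `[0, U]` the integrand vanishes). If `x_(s 0) < - R` or `x_(s 0) > U + R` it is `0`.
In the remaining cases `x_(s 0) ∈ [-R, R) ∪ [U - R, U + R]` the integral and the term of `Dd x n (bar n f) U`
are at most `2 R B`, and both vanish unless `|x_(s (a+1)) - x_(s 0)| ≤ 2 R` for all `a`. The tuples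
with this property and `x_(s 0) ∈ [-R, R)` are finite in number (`K₀`, independent of `U`); those with
`x_(s 0) ∈ [U - R, U + R]` are at most `Dd x n χ (U + R + 1) - Dd x n χ (U - R)` in number. -/
def StB0 : Prop := ∀ {ι : Type} (x : ι → ℝ), LF x → ∀ (n : ℕ) (f : (Fin (n + 1) → ℝ) → ℝ)
  (R B : ℝ) (χ : (Fin n → ℝ) → ℝ) (R' : ℝ), 0 ≤ R → Continuous f → Sp (n + 1) f R →
  (∀ y, |f y| ≤ B) → (∀ y, 0 ≤ χ y) → Sp n χ R' → (∀ y, (∀ a, |y a| ≤ 2 * R) → 1 ≤ χ y) →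
  ∃ K : ℝ, ∀ U : ℝ, 2 * R ≤ U →
    |(∫ u in (0 : ℝ)..U, W x (n + 1) f u) - Dd x n (bar n f) U| ≤
      K + 4 * R * B * (Dd x n χ (U + R + 1) - Dd x n χ (U - R))

/-- B4 (EASY-MEDIUM). As B0 for `f = tf n χ` (`tf n χ y = tent (y 0) χ (y (a+1) - y 0)`):
`∫_0^U W x (n + 1) (tf n χ) = ∑_s χ (x_(s (a+1)) - x_(s 0)) ∫_0^U tent (x_(s 0) - u) du`. The inner
integral is in `[0, 1]`, it is `1` if `1 ≤ x_(s 0) < U - 1` and `0` if `x_(s 0) < -1` or
`x_(s 0) > U + 1`. `K` is the (finite) sum of the `χ` over the tuples with `|x_(s 0)| ≤ 1`. -/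
def StB4 : Prop := ∀ {ι : Type} (x : ι → ℝ), LF x → ∀ (n : ℕ) (χ : (Fin n → ℝ) → ℝ) (R : ℝ),
  0 ≤ R → Continuous χ → (∀ y, 0 ≤ χ y) → Sp n χ R → ∃ K : ℝ, ∀ U : ℝ, 2 ≤ U →
    Dd x n χ (U - 1) - K ≤ ∫ u in (0 : ℝ)..U, W x (n + 1) (tf n χ) u ∧
    ∫ u in (0 : ℝ)..U, W x (n + 1) (tf n χ) u ≤ Dd x n χ (U + 2) + K

/-- B1 (EASY-MEDIUM, from Cc, Cb, Br, Fb, B0). `n = 0`: there is one embedding, `W x 0 f` is constant
`f` of the point, `rho 0 = 1`, the measure of the one point space is `1` (`integral_unique`), so both sides are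
`f` of the point. `n + 1`: B0 with `χ = cube n (2 R)`; `(1/U) Dd (bar f) U` tends to
`∫ bar f y rho (cons 0 y) = ∫ f rho` (`Gue`, Br, Cc, Fb); `(1/U) Dd χ (U + R + 1)` and `(1/U) Dd χ (U - R)` have the
same limit. -/
def StB1 : Prop := ∀ {ι : Type} (x : ι → ℝ), LF x → Gue x → Uni x

/-- B2 (EASY-MEDIUM, from Cc, Cb, Tf, Fb, B0, B4). Let `f` be continuous with support in the cube `R`. B0
for `tf n f` (support in the cube `R + 1`, `bar n (tf n f) = f`) with `χ = cube n (2 R + 2)`: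
`|∫_0^U W (tf f) - Dd f U| ≤ K + C (Dd χ (U + R + 2) - Dd χ (U - R - 1))`. By B4 the bracket is at most
`∫_0^(U + R + 3) W (tf χ) - ∫_0^(U - R - 3) W (tf χ) + 2 K'`, and divided by `U` it tends to `0` by `Uni`. So
`(1/U) Dd f U` has the limit `∫ tf f rho = ∫ f y rho (cons 0 y)` (Fb). -/
def StB2 : Prop := ∀ {ι : Type} (x : ι → ℝ), LF x → Uni x → Gue x

/-! ## Part C: variance of averages over blocks -/

/-- C1 (EASY-MEDIUM, from A2, A3, A5, A7, Cc, Cb). `Q u = (2 p)^p + 2^p W x p (cube p R) u`; by A3, A2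
`(cn x R u)^p ≤ Q u`. -/
def StC1 : Prop := ∀ {ι : Type} (x : ι → ℝ), LF x → Uni x → ∀ (R : ℝ) (p : ℕ), 0 ≤ R →
  ∃ (Q : ℝ → ℝ) (q : ℝ), Continuous Q ∧ (∀ u, 0 ≤ Q u) ∧ (∀ u, (cn x R u : ℝ) ^ p ≤ Q u) ∧
    Tendsto (fun U : ℝ => U⁻¹ * ∫ u in (0 : ℝ)..U, Q u) atTop (𝓝 q)

/-- Sh (EASY). `∫_0^U G (u + s) du = ∫_0^(U+s) G - ∫_0^s G`, and `(U + s)/U` tends to `1`. -/
def StSh : Prop := ∀ (G : ℝ → ℝ) (c s : ℝ), Continuous G → 0 ≤ s →
  Tendsto (fun U : ℝ => U⁻¹ * ∫ u in (0 : ℝ)..U, G u) atTop (𝓝 c) →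
  Tendsto (fun U : ℝ => U⁻¹ * ∫ u in (0 : ℝ)..U, G (u + s)) atTop (𝓝 c) ∧
  Tendsto (fun U : ℝ => U⁻¹ * ∫ u in U..(U + s), G u) atTop (𝓝 0)

/-- C5 (MEDIUM, from Sh). Pure analysis. Expand the square: the mean over `[0, U]` of
`((1/H) ∑_(i < H) G (u + h i) - μ)^2` is `(1/H^2) ∑_(i,i') I_(i i') - (2 μ/H) ∑_i I_i + μ^2` with
`I_i → μ` (Sh), and for `|i - i'| = d > d₀` `I_(i i') → c d` (Sh applied to `u ↦ G u G (u + h d)` with the
shift `h min (i, i')`). For the other pairs `|I_(i i')| ≤ (1/2) ((1/U) ∫_0^U G (u + h i)^2 + the same for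
i') ≤ C + 1` eventually (from (iii) and a change of `U`: `(1/U) ∫_0^U G(u+s)^2 ≤ (1/U) ∫_0^(U+s) G^2 ≤
C (U + s)/U`). So the upper limit is at most
`(1/H^2) ∑_(|i - i'| > d₀) (c |i - i'| - μ^2) + (2 d₀ + 1)/H * (C + 1 + μ^2)`, which tends to `0` for
`H → ∞` because `c d → μ^2` (Cesaro). Choose `H`. -/
def StC5 : Prop := ∀ (G : ℝ → ℝ) (h μ C : ℝ) (c : ℕ → ℝ) (d₀ : ℕ), Continuous G → 0 < h →
  Tendsto (fun U : ℝ => U⁻¹ * ∫ u in (0 : ℝ)..U, G u) atTop (𝓝 μ) →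
  (∀ d, d₀ < d → Tendsto (fun U : ℝ => U⁻¹ * ∫ u in (0 : ℝ)..U, G u * G (u + h * d)) atTop
    (𝓝 (c d))) →
  Tendsto c atTop (𝓝 (μ ^ 2)) →
  (∀ᶠ U : ℝ in atTop, U⁻¹ * ∫ u in (0 : ℝ)..U, G u ^ 2 ≤ C) →
  ∀ δ : ℝ, 0 < δ → ∃ H : ℕ, 1 ≤ H ∧ ∀ᶠ U : ℝ in atTop,
    U⁻¹ * ∫ u in (0 : ℝ)..U, ((H : ℝ)⁻¹ * ∑ i ∈ range H, G (u + h * i) - μ) ^ 2 ≤ δ

/-! ## Part D: from the real variable to the lattice -/

/-- D2 (EASY-MEDIUM). Sums over a lattice against integrals: `|G (a + h j)| ≤ B Q v` for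
`|v - (a + h j)| ≤ h`, so `|G (a + h j)| ≤ (B/h) ∫_(a + h j)^(a + h (j+1)) Q`; add up. -/
def StD2 : Prop := ∀ (G Q : ℝ → ℝ) (a h B : ℝ) (m M : ℕ), Continuous Q → 0 < h → 0 ≤ B → m ≤ M →
  (∀ v, 0 ≤ Q v) → (∀ u v, |v - u| ≤ h → |G u| ≤ B * Q v) →
  ∑ j ∈ Finset.Ico m M, |G (a + h * j)| ≤ B / h * ∫ u in (a + h * m)..(a + h * M), Q u

/-- D1 (MEDIUM, from Sh, D2). THE TRANSFER. Let `A_M = (1/M) ∑_(j<M) G (a + h j)`, `ζ > 0`. Take `ε` from (ii) for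
`δ = ζ`, `ε ≤ h`, and `H` from (i) for `(ζ ε / (2 h + 2))^2 / 4` or smaller. (1) Smoothing:
`|A_M - (1/M) ∑_j (1/ε) ∫_0^ε G (a + h j + s) ds| ≤ (ζ/M) ∑_j (1/h) ∫_(a + h j)^(a + h (j+1)) Q`, eventually
`≤ ζ (q + 1)` (from `Q`; `(1/(h M)) ∫_a^(a + h M) Q → q`). (2) Blocks: for `0 ≤ s ≤ ε` the difference between
`(1/M) ∑_(j<M) G (a + h j + s)` and `(1/M) ∑_(j<M) (1/H) ∑_(i<H) G (a + h (j + i) + s)` is at most
`(1/M) (∑_(j<H) + ∑_(M ≤ j < M+H)) |G (a + h j + s)|`, by D2 (with `a + s`) at most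
`(B/(h M)) (∫_a^(a + h H + h) Q + ∫_(a + h M)^(a + h (M + H) + h) Q)`, uniformly in `s`, which tends to `0` (Sh).
(3) Cauchy-Schwarz: with `F u = (1/H) ∑_(i<H) G (u + h i) - μ` and `U = a + h M` the mean
`(1/M) ∑_(j<M) (1/ε) ∫_0^ε F (a + h j + s) ds` is at most
`(1/(M ε)) ∫_0^U |F| ≤ (U/(M ε)) ((1/U) ∫_0^U F^2)^(1/2) ≤ ((h + 1)/ε) * (ζ ε/(2 h + 2)) ≤ ζ` eventually (the
intervals `[a + h j, a + h j + ε]` are disjoint and in `[0, U]` as `a ≥ 0`, `ε ≤ h`). Altogether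
`|A_M - μ| ≤ ζ (q + 1) + ζ + ζ` eventually. -/
def StD1 : Prop := ∀ (G Q : ℝ → ℝ) (a h μ q B : ℝ), Continuous G → Continuous Q → 0 ≤ a → 0 < h →
  0 ≤ B → (∀ v, 0 ≤ Q v) →
  Tendsto (fun U : ℝ => U⁻¹ * ∫ u in (0 : ℝ)..U, Q u) atTop (𝓝 q) →
  (∀ u v, |v - u| ≤ h → |G u| ≤ B * Q v) →
  (∀ δ : ℝ, 0 < δ → ∃ ε : ℝ, 0 < ε ∧ ∀ u v s : ℝ, 0 ≤ s → s ≤ ε → |v - u| ≤ h →
    |G (u + s) - G u| ≤ δ * Q v) →
  (∀ δ : ℝ, 0 < δ → ∃ H : ℕ, 1 ≤ H ∧ ∀ᶠ U : ℝ in atTop,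
    U⁻¹ * ∫ u in (0 : ℝ)..U, ((H : ℝ)⁻¹ * ∑ i ∈ range H, G (u + h * i) - μ) ^ 2 ≤ δ) →
  Tendsto (fun M : ℕ => (M : ℝ)⁻¹ * ∑ j ∈ range M, G (a + h * j)) atTop (𝓝 μ)

/-- D3 (EASY-MEDIUM, from A1, A4, A5, A9, Cc, Mx, C1, C5, D1). Let `f` be continuous, support in the cube
`R ≥ 0`, `|f| ≤ B`, `G = W x n f`, continuous (A5), `μ = ∫ f rho`. `Uni` for `f`. For `h d > 2 R` the product
`G u G (u + h d)` is `W x (n+n) (pr n f (h d)) u` (A4), so its mean tends to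
`c d = ∫ pr n f (h d) rho` (`Uni`), and `c d → μ^2` (Mx). With `Q₁` of C1 for `R`, `p = 2 n`:
`G^2 ≤ B^2 Q₁` (A1). So C5 applies. With `Q` of C1 for the radius `R + 1 + h` and `p = n`:
`cn x (R + 1) u ≤ cn x (R + 1 + h) v` for `|v - u| ≤ h` (`Set.ncard_le_ncard`, finite by `LF`), so
(A1, A9) the hypotheses of D1 hold. -/
def StD3 : Prop := ∀ {ι : Type} (x : ι → ℝ), LF x → Uni x → ∀ a h : ℝ, 0 ≤ a → 0 < h → Smp x a h

/-! ## Part E: from the lattice to the real variable -/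

/-- E1 (MEDIUM, from A1, A5, A7, Cc, Cb, Rc, Ps). Let `f` be continuous with support in the cube `R`, `|f| ≤ B`,
`G = W x n f`, `μ = ∫ f rho`. `F = cube n (R + h)`: for `0 ≤ s ≤ h`, `|G (v + s)| ≤ B W x n F v` (A7: both sides are
sums over the same tuples, `|f (y - s)| ≤ B F y`). With `M = M(U) = ⌊(U - a)/h⌋`:
`∫_a^(a + h M) G = ∑_(j<M) ∫_0^h G (a + h j + s) ds = ∫_0^h ∑_(j<M) W x n f_s (a + h j) ds`,
`f_s y = f (y - s)` (A7). For every `s` `(1/M) ∑_(j<M) W x n f_s (a + h j)` tends to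
`∫ f_s rho = ∫ f rho = μ` (`Smp`; translation invariance of the measure and of `rho`), and it is bounded by
`B (1/M) ∑_(j<M) W x n F (a + h j)`, which converges; so by dominated convergence on `[0, h]`
`(1/M) ∫_a^(a + h M) G → h μ`. The rest `∫_(a + h M)^U |G| ≤ h B W x n F (a + h M)` is `o(M)`, because
`(1/M) ∑_(j<M) W x n F (a + h j)` converges; `∫_0^a G` is constant; `M/U → 1/h`. (`n = 0` is
included.) -/
def StE1 : Prop := ∀ {ι : Type} (x : ι → ℝ), LF x → ∀ a h : ℝ, 0 ≤ a → 0 < h → Smp x a h → Uni x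

/-! ## Part F: numbers of members in the intervals `[j, j + 1)` -/

/-- F0 (EASY-MEDIUM). For `0 < η < 1/2` let `l_η t` be the continuous piecewise linear function which is `1` on
`[η, 1 - η]` and `0` outside `(0, 1)`, and `r_η t` the one which is `1` on `[0, 1]` and `0` outside
`(-η, 1 + η)`. `f y = ∏_a l_η (y a)`, `g y = ∏_a r_η (y a)`: `f ≤ 1_Q ≤ g`, `Q = [0,1)^m`, and
`g - f` is bounded by `1` and vanishes outside a set of measure at most
`(1 + 2 η)^m - (1 - 2 η)^m` (the cube `[-η, 1+η]^m` without the cube `[η, 1-η]^m`), which is small for small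
`η`; `0 ≤ rho ≤ 1` (Ps). -/
def StF0 : Prop := ∀ (m : ℕ) (δ : ℝ), 0 < δ → ∃ f g : (Fin m → ℝ) → ℝ, CC m f ∧ CC m g ∧
  (∀ y, 0 ≤ f y) ∧ (∀ y, (∀ a, 0 ≤ y a ∧ y a < 1) → f y ≤ 1 ∧ 1 ≤ g y) ∧ (∀ y, 0 ≤ g y) ∧
  (∀ y, ¬ (∀ a, 0 ≤ y a ∧ y a < 1) → f y = 0) ∧
  (m.factorial : ℝ) * dm m - δ ≤ ∫ y : Fin m → ℝ, f y * rho m y ∧
  ∫ y : Fin m → ℝ, g y * rho m y ≤ (m.factorial : ℝ) * dm m + δ

/-- F1 (EASY-MEDIUM, from A7, A8, Cc, F0). With `N_j = #{i | j ≤ x i < j + 1}` and `f, g` of F0: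
`W x m f j ≤ N_j.descFactorial m ≤ W x m g j` (A7, A8), the means of the outer terms converge to
`∫ f rho`, `∫ g rho` (`Smp x 0 1`), within `δ` of `m! dm m`; `N.descFactorial m = m! N.choose m`. -/
def StF1 : Prop := ∀ {ι : Type} (x : ι → ℝ), LF x → Smp x 0 1 → ∀ m : ℕ,
  Tendsto (fun M : ℕ => (M : ℝ)⁻¹ * ∑ j ∈ range M,
    (({i | (j : ℝ) ≤ x i ∧ x i < j + 1}.ncard.choose m : ℕ) : ℝ)) atTop (𝓝 (dm m))

/-- F2 (EASY, from Ps). `0 ≤ rho ≤ 1` and the cube has measure `1`. -/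
def StF2 : Prop := ∀ m : ℕ, 0 ≤ dm m ∧ dm m ≤ (m.factorial : ℝ)⁻¹

/-- Bf (EASY-MEDIUM). Bonferroni. `C(m,k) C(N,m) = C(N,k) C(N-k, m-k)` (`Nat.choose_mul`), so for `N > k` the
sum over `r ≤ L` is `C(N,k) ∑_(r ≤ L) (-1)^r C(N-k, r) = C(N,k) (-1)^L C(N-k-1, L)`
(`Int.alternating_sum_range_choose`-type identity, induction on `L`), and `C(N-k-1, L) ≤ C(N-k, L+1)`.
For `N = k` the sum is `1`; for `N < k` it is `0`. -/
def StBf : Prop := ∀ N k L : ℕ,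
  |(if N = k then (1 : ℝ) else 0) -
    ∑ r ∈ range (L + 1), (-1 : ℝ) ^ r * ((k + r).choose k : ℝ) * (N.choose (k + r) : ℝ)| ≤
  ((k + L + 1).choose k : ℝ) * (N.choose (k + L + 1) : ℝ)

open Classical in
/-- F3 (EASY-MEDIUM, from Bf, F2). Average Bf over `j < M`: the proportion differs from
`∑_(r ≤ L) (-1)^r C(k+r,k) F_(k+r)(M)` by at most `C(k+L+1,k) F_(k+L+1)(M)`, `F_m(M) → dm m`. The series
of `ek k` converges absolutely: `C(k+r,k) dm (k+r) ≤ C(k+r,k)/(k+r)! = 1/(k! r!)`. So the upper limit of the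
distance to `ek k` is at most `2/(k! (L+1)!)` plus the tail, for every `L`. -/
def StF3 : Prop := ∀ (N : ℕ → ℕ),
  (∀ m : ℕ, Tendsto (fun M : ℕ => (M : ℝ)⁻¹ * ∑ j ∈ range M, ((N j).choose m : ℝ)) atTop
    (𝓝 (dm m))) →
  ∀ k : ℕ, Tendsto (fun M : ℕ => (M : ℝ)⁻¹ * (((range M).filter fun j => N j = k).card : ℝ)) atTop
    (𝓝 (ek k))

end Pool.Agent.Work.MP_7eec5e_nt.GG
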