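import Pool.Agent.Work.MP_7eec5e_nt.GG.Stmts

/-!
# MP_7eec5e_nt, block GG: statements, parts G (unitary group) and H (zeta)

Every docstring is a complete proof. Items used are hypotheses. Item `X`: statement `StX`, file
`GG/I_X.lean`, theorem `prX`, auxiliary lemmas in the namespace `IX`. (`import` this file.)
-/

set_option autoImplicit false

namespace Pool.Agent.Work.MP_7eec5e_nt.GG

open MeasureTheory Filter Topology Finset

/-! ## Part G: the unitary group -/

/-- Vd (EASY). `KN N (θ i - θ j) = (2 π)^(-1) ∑_(a<N) z_i^a conj (z_j)^a`, `z_i = exp (i θ_i)`, so the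
matrix is `(2 π)^(-1) V V^*` with the Vandermonde matrix `V` of `z`; `Matrix.det_mul`, `Matrix.det_smul`,
`Matrix.det_conjTranspose`, `Matrix.det_vandermonde`; the norm of the product of the differences is the
product of the norms. -/
def StVd : Prop := ∀ (N : ℕ) (θ : Fin N → ℝ), dN N N θ = ((N.factorial * pN N θ : ℝ) : ℂ)

/-- Bd (EASY-MEDIUM). Bordered determinants. If `det A ≠ 0`: `Matrix.det_fromBlocks₁₁` gives
`det A * (d - c A⁻¹ b)`, and `A⁻¹ = (det A)⁻¹ • adjugate A`. In general replace `A` by `A + t • 1`; both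
sides are continuous (polynomials) in `t`, and `det (A + t • 1) ≠ 0` for all but finitely many `t` (the
characteristic polynomial of `-A` at `t`; it has finitely many roots), so for `t ≠ 0` small. -/
def StBd : Prop := ∀ (m : ℕ) (A : Matrix (Fin m) (Fin m) ℂ) (b c : Fin m → ℂ) (d : ℂ),
  (Matrix.fromBlocks A (Matrix.of fun i (_ : Unit) => b i) (Matrix.of fun (_ : Unit) j => c j)
    (Matrix.of fun (_ _ : Unit) => d)).det =
    d * A.det - ∑ i, ∑ j, c i * A.adjugate i j * b j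

/-- Io (MEDIUM, from Bd). Integration of the last variable. The matrix of `Fin.snoc θ φ` is, after
`Fin (m + 1) ≃ Fin m ⊕ Unit`, the block matrix with `A = (KN (θ i - θ j))`, `b i = KN (θ i - φ)`,
`c j = KN (φ - θ j)`, `d = KN 0 = N / (2 π)`. Bd; `∫_(-π)^π KN N (s - φ) KN N (φ - t) dφ = KN N (s - t)` because
`∫ exp (i (a' - a) φ) dφ = 2 π` or `0`; so the integral is `N det A - ∑_(i,j) adj(A)_(i j) A_(j i) =
N det A - trace (adj A * A) = (N - m) det A` (`Matrix.adjugate_mul`, `Matrix.trace_smul`). -/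
def StIo : Prop := ∀ (N m : ℕ) (θ : Fin m → ℝ),
  ∫ φ in Set.Ico (-Real.pi) Real.pi, dN N (m + 1) (Fin.snoc θ φ) = ((N : ℂ) - m) * dN N m θ

/-- Mm (MEDIUM, from Vd, Io). `N! pN = (dN N N).re` (Vd). Claim: for `m + r ≤ N` the integral of
`(dN N (m + r)).re` over the `θ : Fin (m + r) → ℝ` with `θ i ∈ J` for `i < m` and `θ i ∈ [-π, π)` for
`i ≥ m` is `(N - m)! / (N - m - r)!` times the integral of `(dN N m).re` over `J^m`. Induction on `r`: write
`Fin (m + r + 1) → ℝ` as `(Fin (m + r) → ℝ) × ℝ` (`Fin.snoc`; `MeasurableEquiv.piFinSuccAbove` at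
`Fin.last`, `volume_preserving_piFinSuccAbove`), integrate the last variable by Io (all functions are
continuous, the sets bounded). `r = N - m`. -/
def StMm : Prop := ∀ (N m : ℕ) (b c : ℝ), m ≤ N → -Real.pi ≤ b → c ≤ Real.pi →
  ∫ θ in {θ : Fin N → ℝ | ∀ i : Fin N, θ i ∈ (if (i : ℕ) < m then Set.Ico b c
      else Set.Ico (-Real.pi) Real.pi)}, pN N θ =
    ((N - m).factorial : ℝ) / N.factorial *
      ∫ θ in {θ : Fin m → ℝ | ∀ a, θ a ∈ Set.Ico b c}, (dN N m θ).re

/-- Ie (MEDIUM, from Mm). Inclusion and exclusion. Let `J = [b, b + 2 π/N)`, `F = [-π, π)`, `J ⊆ F`. The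
indicator of `J^k × (F \ J)^(N-k)` is `∏_(i<k) 1_J ∏_(i≥k) (1_F - 1_J)`
`= ∑_(S ⊆ {k, .., N-1}) (-1)^|S| ∏_(i<k or i ∈ S) 1_J ∏_(other i) 1_F` (`Finset.prod_sub` or
`Finset.prod_add`). `pN` is invariant under permutations of the coordinates (it is
`(dN N N).re / N!` by Vd, `Matrix.det_submatrix_equiv_self`; permutations preserve the measure,
`volume_measurePreserving_piCongrLeft`), so the integral for `S`, `|S| = r`, is that for
`{k, .., k + r - 1}`, by Mm equal to `(N-k-r)!/N! * (k+r)! mN N (k + r) b`. So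
`EU = C(N,k) ∑_r (-1)^r C(N-k, r) (N-k-r)! (k+r)!/N! mN (k + r) = ∑_r (-1)^r C(k+r, k) mN (k + r)`. -/
def StIe : Prop := ∀ (N k : ℕ) (b : ℝ), 1 ≤ N → k ≤ N → -Real.pi ≤ b →
  b + 2 * Real.pi / N ≤ Real.pi →
  EU N k b = ∑ r ∈ range (N - k + 1), (-1 : ℝ) ^ r * ((k + r).choose k : ℝ) * mN N (k + r) b

/-- Kp (EASY-MEDIUM). The matrix is `(2 π)^(-1) V V^*` with the `m × N` matrix `V_(j a) = exp (i a θ_j)`,
positive semidefinite with trace `m N / (2 π)`; its determinant is the product of the eigenvalues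
(real, `≥ 0`), at most `(trace / m)^m` by the inequality of the means (`m = 0`: it is `1`). For `m > N`
nothing else is needed. -/
def StKp : Prop := ∀ (N m : ℕ) (θ : Fin m → ℝ), (dN N m θ).im = 0 ∧ 0 ≤ (dN N m θ).re ∧
  (dN N m θ).re ≤ ((N : ℝ) / (2 * Real.pi)) ^ m

/-- Kb (EASY, from Kp). `0 ≤ (dN N m).re ≤ (N/(2 π))^m` on a cube of side `2 π/N`. -/
def StKb : Prop := ∀ (N m : ℕ) (b : ℝ), 1 ≤ N → 0 ≤ mN N m b ∧ mN N m b ≤ (m.factorial : ℝ)⁻¹

/-- Lm (MEDIUM, from Kp). Substitute `θ = b + (2 π/N) y` (`MeasureTheory.Measure.addHaar_smul` or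
`integral_comp_smul`, translation): `mN N m b = (1/m!) ∫_([0,1)^m) ((2 π/N)^m dN N m ((2 π/N) y)).re dy`, where
`(2 π/N)^m dN` is the determinant of `κ_N (y_i - y_j)`, `κ_N t = (1/N) ∑_(a<N) exp (2 π i a t/N)`.
For `N → ∞` `κ_N t → ∫_0^1 exp (2 π i v t) dv = exp (i π t) sk t` (Riemann sums, or the geometric sum
`(exp (2 π i t) - 1)/(N (exp (2 π i t/N) - 1))` for `t` not an integer multiple.., for `t = 0` it is `1`;
the Riemann sum is simplest: the difference is at most `2 π |t|/N`). The determinant of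
`exp (i π (y_i - y_j)) sk (y_i - y_j)` is `rho m y` (diagonal matrices on both sides, `Matrix.det_mul_row`,
`Matrix.det_mul_column`, the product of the factors is `1`). Dominated convergence (Kp: at most `1`). -/
def StLm : Prop := ∀ (m : ℕ) (b : ℕ → ℝ),
  Tendsto (fun N : ℕ => mN N m (b N)) atTop (𝓝 (dm m))

/-- El (EASY-MEDIUM, from Ie, Kb, Lm). `tendsto_tsum_of_dominated_convergence`: write Ie as a sum over all `r`
(terms with `r > N - k` replaced by `0`), dominated by `C(k+r,k)/(k+r)! = 1/(k! r!)` (Kb). -/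
def StEl : Prop := ∀ (k : ℕ) (b : ℕ → ℝ),
  (∀ᶠ N : ℕ in atTop, -Real.pi ≤ b N ∧ b N + 2 * Real.pi / N ≤ Real.pi) →
  Tendsto (fun N : ℕ => EU N k (b N)) atTop (𝓝 (ek k))

/-! ## Part H: zeta -/

/-- Gm (EASY-MEDIUM). `ϑ` continuous. (1) For `t > g n` the sign of `ϑ t - n π` is constant (intermediate
values: it is never `0` for `t > 7`, `t ≠ g n`). If it were negative, all `g m`, `m > n` (where
`ϑ (g m) = m π > n π`) would be in `(7, g n]`, where `ϑ` is bounded: contradiction. So `ϑ t > n π` for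
`t > g n`. (2) Hence `g m > g n` is impossible for `m < n` (`ϑ (g m) = m π < n π`), and `g` is injective:
`g` is strictly increasing. (3) For `n ≥ 1` and `7 < t < g n`: the sign of `ϑ t - n π` is constant there and
negative at `g 0`. (4) `ϑ` is bounded on `[0, 7]`, say by `j₁ π`; let `j ≥ j₁ + 1`. If `g j ≤ t < g (j+1)` then
`j π ≤ ϑ t < (j+1) π` by (1), (3). If `j π ≤ ϑ t < (j+1) π`, `t > 0`, then `t > 7`, `t ≥ g j` (3) and `t < g (j+1)`
(1). -/
def StGm : Prop := ∀ (ϑ : ℝ → ℝ) (g : ℕ → ℝ), IsTheta ϑ → IsGram ϑ g → StrictMono g ∧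
  (∀ (n : ℕ) (t : ℝ), g n < t → n * Real.pi < ϑ t) ∧
  ∃ j₁ : ℕ, ∀ j : ℕ, j₁ ≤ j → ∀ t : ℝ, 0 < t →
    (g j ≤ t ∧ t < g (j + 1) ↔ (j : ℝ) ≤ ϑ t / Real.pi ∧ ϑ t / Real.pi < j + 1)

/-- Zf (EASY-MEDIUM). `mult t ≠ 0` implies that `ζ(1/2 + i t) = 0` (the order is not `0`;
`AnalyticAt.analyticOrderAt_eq_zero`) . `ζ` is analytic on the connected set `{s | s ≠ 1}` and not
identically `0` (`ζ(2) ≠ 0`), so its zeros in it are isolated and a compact set which does not contain `1`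
contains only finitely many (`AnalyticOnNhd.eqOn_zero_or_eventually_ne_zero_of_preconnected`, codiscrete
sets, or Bolzano-Weierstrass with `AnalyticOnNhd.eqOn_zero_of_preconnected_of_frequently_eq_zero`). The segment
`1/2 + i [0, T]` is compact. -/
def StZf : Prop := ∀ T : ℝ, {t : ℝ | 0 < t ∧ t ≤ T ∧ mult t ≠ 0}.Finite

/-- Lf (EASY, from Gm, Zf). `|ϑ t/π| ≤ R` implies `t ≤ g n` for `n ≥ R + 1` (Gm (2): otherwise `ϑ t > n π`). The
set of the `z : CZ` with `z.1 ≤ T` is finite: a sigma type over a finite set with finite fibres. -/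
def StLf : Prop := ∀ (ϑ : ℝ → ℝ) (g : ℕ → ℝ), IsTheta ϑ → IsGram ϑ g → LF (xz ϑ)

/-- Q1 (EASY-MEDIUM, from Gm, Lf, F1, F3, D3). `x = xz ϑ`, `N_j = #{z | j ≤ x z < j + 1}`. `Uni x` gives
`Smp x 0 1`, F1 and F3: the proportion of the `j < M` with `N_j = k` tends to `ek k`. For `j ≥ j₁` (Gm)
`{z | g j ≤ z.1 < g (j+1)}` is the same set (`xz ϑ z = ϑ z.1/π`), it is finite (Lf), so its `encard` is `k` iff
its `ncard` is `k`; the `j < j₁` change the count by at most `j₁`. -/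
def StQ1 : Prop := ∀ (ϑ : ℝ → ℝ) (g : ℕ → ℝ), IsTheta ϑ → IsGram ϑ g → Uni (xz ϑ) →
  ∀ k : ℕ, Tendsto (fun M : ℕ => Gp g M k) atTop (𝓝 (ek k))

end Pool.Agent.Work.MP_7eec5e_nt.GG
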